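import Pool.Agent.Lib.MP_668cf7_lc.Sep.Spec

/-!
# Module 3: averaging over the revealed points
-/

namespace MP668cf7.Sep

open Finset

theorem prod_om {k N : ℕ} {A B U : Type} [DecidableEq U] [Fintype B]
    (P : Sys k N A B U) (q : B → ℝ) (s : A) {l : ℕ} (κ : Fin l → Option U) :
    ∏ a, P.om q s (κ a) =
      ∑ τ : Fin l → B, if (fun a => P.lab s (τ a)) = κ then ∏ a, q (τ a) else 0 := by
  classical
  unfold Sys.om
  rw [Finset.prod_univ_sum, Fintype.piFinset_univ]
  apply Finset.sum_congr rfl
  intro τ _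
  split_ifs with h
  · apply Finset.prod_congr rfl
    intro a _
    rw [if_pos (congrFun h a)]
  · have : ∃ a, P.lab s (τ a) ≠ κ a := by
      by_contra hc
      push Not at hc
      exact h (funext hc)
    obtain ⟨a, ha⟩ := this
    exact Finset.prod_eq_zero (mem_univ a) (if_neg ha)

/-- `StAvg`. -/
theorem stAvg (hM : StKLMix) : StAvg := by
  intro k N A B U _ _ _ _ P p q hp hq hq1 l
  classical
  set lam : (Fin l → B) → ℝ := fun τ => ∏ a, q (τ a) with hlam
  have hlam0 : ∀ τ, 0 ≤ lam τ := fun τ => Finset.prod_nonneg fun a _ => hq _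
  have hlam1 : ∑ τ, lam τ = 1 := by
    have h := (Finset.prod_univ_sum (fun _ : Fin l => (univ : Finset B))
      (fun (_ : Fin l) (t : B) => q t))
    rw [Fintype.piFinset_univ] at h
    rw [hlam, ← h]
    simp [hq1]
  set nuT : (Fin l → B) → ((Fin l → Option U) × U) → ℝ := fun τ z =>
    (∑ s, if (fun a : Fin l => P.lab s (τ a)) = z.1 ∧ z.2 ∈ P.S s then p s else 0) *
      P.bv q z.2 with hnuT
  set nu0T : (Fin l → B) → ((Fin l → Option U) × U) → ℝ := fun τ z =>
    (∑ s, if (fun a : Fin l => P.lab s (τ a)) = z.1 then p s else 0) * P.cv p q z.2 with hnu0T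
  have hbv0 : ∀ u, 0 ≤ P.bv q u := fun u => by
    unfold Sys.bv
    exact Finset.sum_nonneg fun t _ => by split_ifs <;> simp [hq]
  have hav0 : ∀ u, 0 ≤ P.av p u := fun u => by
    unfold Sys.av
    exact Finset.sum_nonneg fun t _ => by split_ifs <;> simp [hp]
  have hcv0 : ∀ u, 0 ≤ P.cv p q u := fun u => mul_nonneg (hav0 u) (hbv0 u)
  have h1 : P.nu p q l = fun z => ∑ τ, lam τ * nuT τ z := by
    funext z
    unfold Sys.nu
    simp only [hnuT, prod_om]
    have : ∀ τ : Fin l → B, lam τ * ((∑ s, if (fun a : Fin l => P.lab s (τ a)) = z.1 ∧ z.2 ∈ P.S s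
        then p s else 0) * P.bv q z.2) = (∑ s, if z.2 ∈ P.S s then
          p s * (if (fun a : Fin l => P.lab s (τ a)) = z.1 then lam τ else 0) else 0) *
            P.bv q z.2 := by
      intro τ
      rw [← mul_assoc, Finset.mul_sum]
      congr 1
      apply Finset.sum_congr rfl
      intro s _
      by_cases h1 : (fun a : Fin l => P.lab s (τ a)) = z.1 <;> by_cases h2 : z.2 ∈ P.S s <;>
        simp [h1, h2, mul_comm]
    rw [Finset.sum_congr rfl (fun τ _ => this τ), ← Finset.sum_mul, Finset.sum_comm]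
    congr 1
    apply Finset.sum_congr rfl
    intro s _
    by_cases h2 : z.2 ∈ P.S s
    · simp only [h2, if_true]
      rw [Finset.mul_sum]
    · simp only [h2, if_false]
      simp
  have h0 : P.nu0 p q l = fun z => ∑ τ, lam τ * nu0T τ z := by
    funext z
    unfold Sys.nu0
    simp only [hnu0T, prod_om]
    have : ∀ τ : Fin l → B, lam τ * ((∑ s, if (fun a : Fin l => P.lab s (τ a)) = z.1
        then p s else 0) * P.cv p q z.2) = (∑ s,
          p s * (if (fun a : Fin l => P.lab s (τ a)) = z.1 then lam τ else 0)) *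
            P.cv p q z.2 := by
      intro τ
      rw [← mul_assoc, Finset.mul_sum]
      congr 1
      apply Finset.sum_congr rfl
      intro s _
      by_cases h1 : (fun a : Fin l => P.lab s (τ a)) = z.1 <;>
        simp [h1, mul_comm]
    rw [Finset.sum_congr rfl (fun τ _ => this τ), ← Finset.sum_mul, Finset.sum_comm]
    congr 1
    apply Finset.sum_congr rfl
    intro s _
    rw [Finset.mul_sum]
  have hnn : ∀ τ z, 0 ≤ nuT τ z := fun τ z => mul_nonneg
    (Finset.sum_nonneg fun s _ => by split_ifs <;> simp [hp]) (hbv0 _)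
  have hnn0 : ∀ τ z, 0 ≤ nu0T τ z := fun τ z => mul_nonneg
    (Finset.sum_nonneg fun s _ => by split_ifs <;> simp [hp]) (hcv0 _)
  have hac : ∀ τ z, nu0T τ z = 0 → nuT τ z = 0 := by
    intro τ z h
    simp only [hnu0T, mul_eq_zero] at h
    simp only [hnuT, mul_eq_zero]
    rcases h with h | h
    · left
      rw [Finset.sum_eq_zero_iff_of_nonneg (fun s _ => by split_ifs <;> simp [hp])] at h
      apply Finset.sum_eq_zero
      intro s hs
      have := h s hs
      split_ifs with h2
      · rwa [if_pos h2.1] at this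
      · rfl
    · unfold Sys.cv at h
      rcases mul_eq_zero.1 h with h | h
      · left
        unfold Sys.av at h
        rw [Finset.sum_eq_zero_iff_of_nonneg (fun s _ => by split_ifs <;> simp [hp])] at h
        apply Finset.sum_eq_zero
        intro s hs
        have := h s hs
        split_ifs with h2
        · rwa [if_pos h2.2] at this
        · rfl
      · right
        exact h
  have key := hM ((Fin l → Option U) × U) (Fin l → B) lam nuT nu0T hlam0 hnn hnn0 hac
  have key2 : P.gh p q l ≤ ∑ τ, lam τ * KL (nuT τ) (nu0T τ) := by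
    unfold Sys.gh
    rw [h1, h0]
    exact key
  by_contra hcon
  push Not at hcon
  have hlt : ∀ τ : Fin l → B, KL (nuT τ) (nu0T τ) < P.gh p q l := by
    intro τ
    have := hcon τ
    unfold Sys.gphi at this
    convert this using 3
  -- some `τ` with positive weight
  have hex : ∃ τ, 0 < lam τ := by
    by_contra hc
    push Not at hc
    have : ∑ τ, lam τ ≤ 0 := Finset.sum_nonpos fun τ _ => hc τ
    linarith
  obtain ⟨τ0, hτ0⟩ := hex
  have : ∑ τ, lam τ * KL (nuT τ) (nu0T τ) < ∑ τ, lam τ * P.gh p q l := by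
    apply Finset.sum_lt_sum
    · intro τ _
      exact mul_le_mul_of_nonneg_left (hlt τ).le (hlam0 τ)
    · exact ⟨τ0, mem_univ _, mul_lt_mul_of_pos_left (hlt τ0) hτ0⟩
  rw [← Finset.sum_mul, hlam1, one_mul] at this
  linarith

end MP668cf7.Sep
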