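import Pool.Agent.Lib.MP_668cf7_lc.Sep.Spec

/-!
# Module 12: the probabilities of `Coll` and of `E_l`
-/

namespace MP668cf7.Sep

open Finset

section

variable {k N : ℕ} {A B U : Type} [DecidableEq U] [Fintype A] [Fintype B] [Fintype U]

theorem bad_prod_sum (P : Sys k N A B U) (q : B → ℝ) (s : A) (h1 : ∑ κ, P.om q s κ = 1) (l : ℕ) :
    ∑ κ : Fin l → Option U, ∏ a, P.om q s (κ a) = 1 := by
  rw [← Fintype.sum_pow, h1, one_pow]

theorem bad_om_sum_le (P : Sys k N A B U) (q : B → ℝ) (s : A) (h0 : ∀ κ, 0 ≤ P.om q s κ)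
    (h1 : ∑ κ, P.om q s κ = 1) : ∑ u, P.om q s (some u) ≤ 1 := by
  have := Fintype.sum_option (fun κ => P.om q s κ)
  rw [h1] at this
  have := h0 none
  linarith

theorem bad_nu_ge (P : Sys k N A B U) (p : A → ℝ) (q : B → ℝ) (hp : ∀ s, 0 ≤ p s)
    (h0 : ∀ s κ, 0 ≤ P.om q s κ)
    (hle : ∀ s w, P.om q s (some w) ≤ if w ∈ P.S s then P.bv q w else 0)
    (l : ℕ) (κ : Fin l → Option U) (u : U) :
    ∑ s, p s * ((∏ a, P.om q s (κ a)) * P.om q s (some u)) ≤ P.nu p q l (κ, u) := by
  unfold Sys.nu
  rw [sum_mul]
  apply sum_le_sum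
  intro s _
  have h2 := hle s u
  have h3 : 0 ≤ p s * ∏ a, P.om q s (κ a) := mul_nonneg (hp s) (prod_nonneg fun a _ => h0 s _)
  dsimp only
  split_ifs at h2 ⊢ with hu
  · rw [← mul_assoc]
    exact mul_le_mul_of_nonneg_left h2 h3
  · rw [← mul_assoc, zero_mul]
    exact mul_nonpos_of_nonneg_of_nonpos h3 h2

end

theorem stBad (hBasic : StBasic) (hL1 : StL1) (hMass : StMass) : StBad := by
  classical
  intro k N A B U _ _ _ _ P p q η h hW hk hh
  obtain ⟨hB, -⟩ := hBasic P p q η hW
  obtain ⟨-, -, -, hEv⟩ := hL1 P p q η hW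
  obtain ⟨hmE, hmF⟩ := hMass P p q η h hW hk hh
  have hp0 := hW.p0
  have hp1 := hW.p1
  have hom0 := hB.om0
  have hom1 := hB.om1
  have hkpos : (0 : ℝ) < k := by exact_mod_cast hk
  have hge := bad_nu_ge P p q hp0 hom0 hB.omle
  have hcv0 : ∀ u, 0 ≤ P.cv p q u := fun u => mul_nonneg (hB.av0 u) (hB.bv0 u)
  refine ⟨?_, ?_⟩
  · -- collisions
    set F : Finset (U × U) := univ.filter fun z => 1 / (k : ℝ) ≤ P.massC p q h z.1 z.2 with hF
    -- the two parts
    have hsplit : P.pColl p q h =
        ∑ w : U × U, ∑ u, (if P.Coll p q h w.1 w.2 u then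
          ∑ s, p s * (P.om q s (some w.1) * P.om q s (some w.2) * P.om q s (some u)) else 0) := by
      unfold Sys.pColl
      rw [Fintype.sum_prod_type]
      rw [sum_comm]
      apply sum_congr rfl
      intro w1 _
      rw [sum_comm]
      apply sum_congr rfl
      intro w2 _
      rw [sum_comm]
      apply sum_congr rfl
      intro u _
      dsimp only
      split_ifs with hc
      · rfl
      · simp
    have hsplit2 : P.pColl p q h =
        ∑ w ∈ F, ∑ u, (if P.Coll p q h w.1 w.2 u then
          ∑ s, p s * (P.om q s (some w.1) * P.om q s (some w.2) * P.om q s (some u)) else 0) +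
        ∑ w ∈ Fᶜ, ∑ u, (if P.Coll p q h w.1 w.2 u then
          ∑ s, p s * (P.om q s (some w.1) * P.om q s (some w.2) * P.om q s (some u)) else 0) := by
      rw [hsplit]
      exact (sum_add_sum_compl F _).symm
    -- first part
    let e1 : (U × U) ↪ ((Fin 1 → Option U) × U) :=
      ⟨fun z => (fun _ => some z.1, z.2), by
        intro z z' hz
        have h1 := congrArg (fun x => x.1 0) hz
        have h2 := congrArg (fun x => x.2) hz
        simp only [Option.some.injEq] at h1 h2
        exact Prod.ext h1 h2⟩
    have hpart1 : ∑ w ∈ F, ∑ u, (if P.Coll p q h w.1 w.2 u then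
          ∑ s, p s * (P.om q s (some w.1) * P.om q s (some w.2) * P.om q s (some u)) else 0) ≤
        P.gh p q 1 + 4 * (k : ℝ) ^ 4 * h * P.zz p q ^ 2 := by
      have h1 : ∑ w ∈ F, ∑ u, (if P.Coll p q h w.1 w.2 u then
          ∑ s, p s * (P.om q s (some w.1) * P.om q s (some w.2) * P.om q s (some u)) else 0) ≤
          ∑ z ∈ F.map e1, P.nu p q 1 z := by
        rw [sum_map]
        apply sum_le_sum
        intro w _
        have h2 := hge 1 (fun _ => some w.1) w.2
        refine le_trans ?_ h2
        have h3 : ∀ u, (if P.Coll p q h w.1 w.2 u then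
          ∑ s, p s * (P.om q s (some w.1) * P.om q s (some w.2) * P.om q s (some u)) else 0) ≤
          ∑ s, p s * (P.om q s (some w.1) * P.om q s (some w.2) * P.om q s (some u)) := by
          intro u
          split_ifs
          · exact le_rfl
          · exact sum_nonneg fun s _ => mul_nonneg (hp0 s)
              (mul_nonneg (mul_nonneg (hom0 s _) (hom0 s _)) (hom0 s _))
        refine (sum_le_sum fun u _ => h3 u).trans ?_
        rw [sum_comm]
        apply sum_le_sum
        intro s _
        rw [← mul_sum, ← mul_sum]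
        simp only [univ_unique, Fin.default_eq_zero, Fin.isValue, prod_const, card_singleton,
          pow_one]
        apply mul_le_mul_of_nonneg_left _ (hp0 s)
        exact mul_le_of_le_one_right (mul_nonneg (hom0 s _) (hom0 s _))
          (bad_om_sum_le P q s (hom0 s) (hom1 s))
      have h2 : ∑ z ∈ F.map e1, P.nu0 p q 1 z ≤ P.massF p q h := by
        rw [sum_map]
        have h3 : P.massF p q h = ∑ w ∈ F, P.cv p q w.1 * P.cv p q w.2 := by
          unfold Sys.massF
          rw [hF, sum_filter, Fintype.sum_prod_type]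
        rw [h3]
        apply sum_le_sum
        intro w _
        have h4 : P.nu0 p q 1 (e1 w) = P.ev p q w.1 * P.cv p q w.2 := by
          unfold Sys.nu0 Sys.ev
          simp [e1]
        rw [h4]
        exact mul_le_mul_of_nonneg_right (hB.evle _) (hcv0 _)
      have h3 := hEv 1 (F.map e1)
      linarith
    -- second part
    let e2 : ((U × U) × U) ↪ ((Fin 2 → Option U) × U) :=
      ⟨fun z => (![some z.1.1, some z.1.2], z.2), by
        intro z z' hz
        have h1 := congrArg (fun x => x.1 0) hz
        have h1' := congrArg (fun x => x.1 1) hz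
        have h2 := congrArg (fun x => x.2) hz
        simp only [Matrix.cons_val_zero, Matrix.cons_val_one, Option.some.injEq] at h1 h1' h2
        exact Prod.ext (Prod.ext h1 h1') h2⟩
    have hpart2 : ∑ w ∈ Fᶜ, ∑ u, (if P.Coll p q h w.1 w.2 u then
          ∑ s, p s * (P.om q s (some w.1) * P.om q s (some w.2) * P.om q s (some u)) else 0) ≤
        P.gh p q 2 + 2 / k := by
      set E : Finset ((U × U) × U) :=
        univ.filter (fun z => z.1 ∈ Fᶜ ∧ P.Coll p q h z.1.1 z.1.2 z.2) with hE
      have hsumE : ∀ f : (U × U) → U → ℝ, ∑ z ∈ E, f z.1 z.2 =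
          ∑ w ∈ Fᶜ, ∑ u, (if P.Coll p q h w.1 w.2 u then f w u else 0) := by
        intro f
        rw [hE, sum_filter, Fintype.sum_prod_type, ← sum_filter_add_sum_filter_not univ
          (fun w => w ∈ Fᶜ)]
        have h0 : ∑ w ∈ univ.filter (fun w => ¬ w ∈ Fᶜ),
            ∑ u, (if w ∈ Fᶜ ∧ P.Coll p q h w.1 w.2 u then f w u else 0) = 0 := by
          apply sum_eq_zero
          intro w hw
          rw [mem_filter] at hw
          apply sum_eq_zero
          intro u _
          rw [if_neg]
          exact fun h' => hw.2 h'.1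
        dsimp only at h0 ⊢
        rw [h0, add_zero]
        have h1 : univ.filter (fun w => w ∈ Fᶜ) = Fᶜ := by
          ext w
          simp
        rw [h1]
        apply sum_congr rfl
        intro w hw
        apply sum_congr rfl
        intro u _
        simp only [hw, true_and]
      have h1 : ∑ w ∈ Fᶜ, ∑ u, (if P.Coll p q h w.1 w.2 u then
          ∑ s, p s * (P.om q s (some w.1) * P.om q s (some w.2) * P.om q s (some u)) else 0) ≤
          ∑ z ∈ E.map e2, P.nu p q 2 z := by
        rw [sum_map, ← hsumE (fun w u =>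
          ∑ s, p s * (P.om q s (some w.1) * P.om q s (some w.2) * P.om q s (some u)))]
        apply sum_le_sum
        intro z _
        have h2 := hge 2 (![some z.1.1, some z.1.2]) z.2
        refine le_trans (le_of_eq ?_) h2
        apply sum_congr rfl
        intro s _
        simp [Fin.prod_univ_two]
      have h2 : ∑ z ∈ E.map e2, P.nu0 p q 2 z ≤ 1 / k := by
        rw [sum_map]
        have h3 : ∀ z : (U × U) × U, P.nu0 p q 2 (e2 z) =
            (∑ s, p s * (P.om q s (some z.1.1) * P.om q s (some z.1.2))) * P.cv p q z.2 := by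
          intro z
          unfold Sys.nu0
          simp [e2, Fin.prod_univ_two]
        rw [sum_congr rfl fun z _ => h3 z]
        rw [hsumE (fun w u =>
          (∑ s, p s * (P.om q s (some w.1) * P.om q s (some w.2))) * P.cv p q u)]
        have h4 : ∀ w ∈ Fᶜ, ∑ u, (if P.Coll p q h w.1 w.2 u then
            (∑ s, p s * (P.om q s (some w.1) * P.om q s (some w.2))) * P.cv p q u else 0) ≤
            (∑ s, p s * (P.om q s (some w.1) * P.om q s (some w.2))) * (1 / k) := by
          intro w hw
          have h5 : ∑ u, (if P.Coll p q h w.1 w.2 u then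
            (∑ s, p s * (P.om q s (some w.1) * P.om q s (some w.2))) * P.cv p q u else 0) =
            (∑ s, p s * (P.om q s (some w.1) * P.om q s (some w.2))) * P.massC p q h w.1 w.2 := by
            unfold Sys.massC
            rw [mul_sum]
            apply sum_congr rfl
            intro u _
            rw [mul_ite, mul_zero]
          rw [h5]
          apply mul_le_mul_of_nonneg_left
          · rw [hF, mem_compl, mem_filter] at hw
            push_neg at hw
            exact (hw (mem_univ _)).le
          · exact sum_nonneg fun s _ => mul_nonneg (hp0 s) (mul_nonneg (hom0 s _) (hom0 s _))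
        refine (sum_le_sum h4).trans ?_
        rw [← sum_mul]
        have h6 : ∑ w ∈ Fᶜ, ∑ s, p s * (P.om q s (some w.1) * P.om q s (some w.2)) ≤ 1 := by
          refine (sum_le_univ_sum_of_nonneg (fun w => sum_nonneg fun s _ =>
            mul_nonneg (hp0 s) (mul_nonneg (hom0 s _) (hom0 s _)))).trans ?_
          rw [sum_comm, ← hp1]
          apply sum_le_sum
          intro s _
          rw [← mul_sum]
          have h7 : ∑ w : U × U, P.om q s (some w.1) * P.om q s (some w.2) =
              (∑ w, P.om q s (some w)) * (∑ w, P.om q s (some w)) := by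
            rw [Fintype.sum_prod_type, sum_mul_sum]
          rw [h7]
          have h8 := bad_om_sum_le P q s (hom0 s) (hom1 s)
          have h9 : 0 ≤ ∑ w, P.om q s (some w) := sum_nonneg fun w _ => hom0 s _
          have h10 : (∑ w, P.om q s (some w)) * (∑ w, P.om q s (some w)) ≤ 1 := by nlinarith
          exact mul_le_of_le_one_right (hp0 s) h10
        exact mul_le_of_le_one_left (by positivity) h6
      have h3 := hEv 2 (E.map e2)
      have h4 : 2 * (1 / (k : ℝ)) = 2 / k := by ring
      linarith
    rw [hsplit2]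
    linarith
  · -- E_l
    intro l
    set E : Finset ((Fin l → Option U) × U) :=
      univ.filter (fun z => P.EE p q h z.1 z.2) with hE
    have hsumE : ∀ f : (Fin l → Option U) → U → ℝ, ∑ z ∈ E, f z.1 z.2 =
        ∑ κ, ∑ u, (if P.EE p q h κ u then f κ u else 0) := by
      intro f
      rw [hE, sum_filter, Fintype.sum_prod_type]
    have h1 : P.pE p q h l ≤ ∑ z ∈ E, P.nu p q l z := by
      have h2 : ∑ z ∈ E, P.nu p q l z =
          ∑ κ, ∑ u, (if P.EE p q h κ u then P.nu p q l (κ, u) else 0) :=
        hsumE (fun κ u => P.nu p q l (κ, u))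
      rw [h2]
      unfold Sys.pE
      rw [sum_comm]
      apply sum_le_sum
      intro κ _
      rw [sum_comm]
      apply sum_le_sum
      intro u _
      split_ifs with hc
      · exact hge l κ u
      · simp
    have h2 : ∑ z ∈ E, P.nu0 p q l z ≤ (l : ℝ) ^ 3 * (k : ℝ) ^ 3 * h := by
      have h3 : ∑ z ∈ E, P.nu0 p q l z =
          ∑ κ, ∑ u, (if P.EE p q h κ u then P.nu0 p q l (κ, u) else 0) :=
        hsumE (fun κ u => P.nu0 p q l (κ, u))
      rw [h3]
      have h4 : ∀ κ : Fin l → Option U,
          ∑ u, (if P.EE p q h κ u then P.nu0 p q l (κ, u) else 0) ≤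
          (∑ s, p s * ∏ a, P.om q s (κ a)) * ((l : ℝ) ^ 3 * (k : ℝ) ^ 3 * h) := by
        intro κ
        have h5 : ∑ u, (if P.EE p q h κ u then P.nu0 p q l (κ, u) else 0) =
            (∑ s, p s * ∏ a, P.om q s (κ a)) * P.massE p q h κ := by
          unfold Sys.massE Sys.nu0
          rw [mul_sum]
          apply sum_congr rfl
          intro u _
          rw [mul_ite, mul_zero]
        rw [h5]
        exact mul_le_mul_of_nonneg_left (hmE l κ)
          (sum_nonneg fun s _ => mul_nonneg (hp0 s) (prod_nonneg fun a _ => hom0 s _))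
      refine (sum_le_sum fun κ _ => h4 κ).trans ?_
      rw [← sum_mul]
      have h6 : ∑ κ : Fin l → Option U, ∑ s, p s * ∏ a, P.om q s (κ a) = 1 := by
        rw [sum_comm, ← hp1]
        apply sum_congr rfl
        intro s _
        rw [← mul_sum, bad_prod_sum P q s (hom1 s) l, mul_one]
      rw [h6, one_mul]
    have h3 := hEv l E
    linarith

end MP668cf7.Sep
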