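import Pool.Agent.Lib.MP_668cf7_lc.Sep.Spec

/-! Module 5: basic facts of worlds. -/

namespace MP668cf7.Sep

open Finset

namespace BasicM

variable {k N : ℕ} {A B U : Type} [DecidableEq U]

lemma lab_mem (P : Sys k N A B U) {s : A} {t : B} {w : U} (h : P.lab s t = some w) :
    w ∈ P.S s ∧ w ∈ P.T t := by
  rw [P.lab_eq_some] at h
  have h1 : w ∈ P.S s ∩ P.T t := by rw [h]; simp
  exact Finset.mem_inter.1 h1

lemma lab_ne_none (P : Sys k N A B U) {s : A} {t : B} (h : ¬ Meet (P.x s) (P.y t)) :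
    P.lab s t ≠ none := by
  obtain ⟨w, hw⟩ := Finset.card_eq_one.1 (P.one s t h)
  have := (P.lab_eq_some s t w).2 hw
  rw [this]
  simp

variable [Fintype A] [Fintype B] [Fintype U] (P : Sys k N A B U) (p : A → ℝ) (q : B → ℝ)

lemma card_eq (s : A) (t : B) : ((P.S s ∩ P.T t).card : ℝ) =
    ∑ w, if w ∈ P.S s ∧ w ∈ P.T t then (1 : ℝ) else 0 := by
  rw [Finset.sum_boole]
  congr 2
  ext w
  simp

lemma ev_eq (w : U) : P.ev p q w = ∑ s, ∑ t, if P.lab s t = some w then p s * q t else 0 := by
  unfold Sys.ev Sys.om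
  refine Finset.sum_congr rfl fun s _ => ?_
  rw [Finset.mul_sum]
  refine Finset.sum_congr rfl fun t _ => ?_
  split_ifs <;> simp

lemma cv_eq (w : U) : P.cv p q w =
    ∑ s, ∑ t, if w ∈ P.S s ∧ w ∈ P.T t then p s * q t else 0 := by
  unfold Sys.cv Sys.av Sys.bv
  rw [Finset.sum_mul_sum]
  refine Finset.sum_congr rfl fun s _ => Finset.sum_congr rfl fun t _ => ?_
  by_cases h1 : w ∈ P.S s <;> by_cases h2 : w ∈ P.T t <;> simp [h1, h2]

lemma zz_eq : P.zz p q = ∑ s, ∑ t, p s * q t * ((P.S s ∩ P.T t).card : ℝ) := by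
  unfold Sys.zz
  simp_rw [cv_eq, card_eq, Finset.mul_sum]
  rw [Finset.sum_comm]
  refine Finset.sum_congr rfl fun s _ => ?_
  rw [Finset.sum_comm]
  refine Finset.sum_congr rfl fun t _ => Finset.sum_congr rfl fun w _ => ?_
  split_ifs <;> simp

lemma evsum_eq : ∑ w, P.ev p q w =
    ∑ s, ∑ t, p s * q t * (if P.lab s t = none then 0 else 1) := by
  simp_rw [ev_eq]
  rw [Finset.sum_comm]
  refine Finset.sum_congr rfl fun s _ => ?_
  rw [Finset.sum_comm]
  refine Finset.sum_congr rfl fun t _ => ?_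
  cases h : P.lab s t with
  | none => simp
  | some w =>
    simp

/-- Comparison of double sums. -/
lemma le_eta {η : ℝ} (hW : World P p q η) (F : A → B → ℝ)
    (hF : ∀ s t, F s t ≤ if Meet (P.x s) (P.y t) then (((P.S s ∩ P.T t).card : ℝ) + 1) else 0) :
    ∑ s, ∑ t, p s * q t * F s t ≤ η := by
  refine le_trans (Finset.sum_le_sum fun s _ => Finset.sum_le_sum fun t _ => ?_) hW.clean
  have h0 : 0 ≤ p s * q t := mul_nonneg (hW.p0 s) (hW.q0 t)
  refine (mul_le_mul_of_nonneg_left (hF s t) h0).trans (le_of_eq ?_)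
  split_ifs <;> simp

lemma one_eq {η : ℝ} (hW : World P p q η) : ∑ s, ∑ t, p s * q t * (1 : ℝ) = 1 := by
  simp_rw [mul_one]
  rw [← Finset.sum_mul_sum, hW.p1, hW.q1, one_mul]

lemma swap_world {η : ℝ} (hW : World P p q η) : World P.swap q p η where
  p0 := hW.q0
  p1 := hW.q1
  q0 := hW.p0
  q1 := hW.p1
  clean := by
    refine le_trans (le_of_eq ?_) hW.clean
    rw [Finset.sum_comm]
    refine Finset.sum_congr rfl fun s _ => Finset.sum_congr rfl fun t _ => ?_
    have h1 : Meet (P.swap.x t) (P.swap.y s) ↔ Meet (P.x s) (P.y t) := meet_comm _ _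
    have h2 : P.swap.S t ∩ P.swap.T s = P.S s ∩ P.T t := inter_comm _ _
    rw [h2]
    by_cases h : Meet (P.x s) (P.y t)
    · rw [if_pos h, if_pos (h1.2 h)]; ring
    · rw [if_neg h, if_neg (fun h' => h (h1.1 h'))]

end BasicM

open BasicM in
theorem stBasic : StBasic := by
  intro k N A B U _ _ _ _ P p q η hW
  refine ⟨?_, swap_world P p q hW⟩
  have hcard0 : ∀ s t, (0 : ℝ) ≤ if Meet (P.x s) (P.y t) then
      (((P.S s ∩ P.T t).card : ℝ) + 1) else 0 := by
    intro s t
    split_ifs <;> positivity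
  have eta0 : 0 ≤ η := by
    refine le_trans ?_ (le_eta P p q hW (fun _ _ => 0) hcard0)
    simp
  have om0 : ∀ s κ, 0 ≤ P.om q s κ := fun s κ => Finset.sum_nonneg fun t _ => by
    split_ifs
    · exact hW.q0 t
    · exact le_rfl
  have om1 : ∀ s, ∑ κ, P.om q s κ = 1 := by
    intro s
    unfold Sys.om
    rw [Finset.sum_comm, ← hW.q1]
    refine Finset.sum_congr rfl fun t _ => ?_
    simp
  have omle : ∀ s w, P.om q s (some w) ≤ if w ∈ P.S s then P.bv q w else 0 := by
    intro s w
    by_cases hw : w ∈ P.S s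
    · rw [if_pos hw]
      unfold Sys.om Sys.bv
      refine Finset.sum_le_sum fun t _ => ?_
      by_cases h : P.lab s t = some w
      · rw [if_pos h, if_pos (lab_mem P h).2]
      · rw [if_neg h]
        split_ifs
        · exact hW.q0 t
        · exact le_rfl
    · rw [if_neg hw]
      unfold Sys.om
      refine le_of_eq (Finset.sum_eq_zero fun t _ => ?_)
      rw [if_neg (fun h => hw (lab_mem P h).1)]
  have av0 : ∀ u, 0 ≤ P.av p u := fun u => Finset.sum_nonneg fun s _ => by
    split_ifs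
    · exact hW.p0 s
    · exact le_rfl
  have av1 : ∀ u, P.av p u ≤ 1 := fun u => by
    rw [← hW.p1]
    refine Finset.sum_le_sum fun s _ => ?_
    split_ifs
    · exact le_rfl
    · exact hW.p0 s
  have bv0 : ∀ u, 0 ≤ P.bv q u := fun u => Finset.sum_nonneg fun t _ => by
    split_ifs
    · exact hW.q0 t
    · exact le_rfl
  have bv1 : ∀ u, P.bv q u ≤ 1 := fun u => by
    rw [← hW.q1]
    refine Finset.sum_le_sum fun t _ => ?_
    split_ifs
    · exact le_rfl
    · exact hW.q0 t
  have evle : ∀ w, P.ev p q w ≤ P.cv p q w := by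
    intro w
    rw [ev_eq, cv_eq]
    refine Finset.sum_le_sum fun s _ => Finset.sum_le_sum fun t _ => ?_
    have h0 : 0 ≤ p s * q t := mul_nonneg (hW.p0 s) (hW.q0 t)
    by_cases h : P.lab s t = some w
    · rw [if_pos h, if_pos (lab_mem P h)]
    · rw [if_neg h]
      split_ifs
      · exact h0
      · exact le_rfl
  have ev0 : ∀ w, 0 ≤ P.ev p q w := fun w => Finset.sum_nonneg fun s _ =>
    mul_nonneg (hW.p0 s) (om0 s _)
  have hone := one_eq P p q hW
  have evsum : ∑ w, (P.cv p q w - P.ev p q w) ≤ η := by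
    rw [Finset.sum_sub_distrib]
    have h1 : ∑ w, P.cv p q w = P.zz p q := rfl
    rw [h1, zz_eq, evsum_eq, ← Finset.sum_sub_distrib]
    have h2 := le_eta P p q hW
      (fun s t => ((P.S s ∩ P.T t).card : ℝ) - (if P.lab s t = none then 0 else 1)) (by
        intro s t
        by_cases hm : Meet (P.x s) (P.y t)
        · rw [if_pos hm]
          split_ifs <;> linarith
        · rw [if_neg hm, P.one s t hm, if_neg (lab_ne_none P hm)]
          norm_num)
    refine le_trans (le_of_eq ?_) h2
    refine Finset.sum_congr rfl fun s _ => ?_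
    rw [← Finset.sum_sub_distrib]
    refine Finset.sum_congr rfl fun t _ => ?_
    ring
  have ev1 : 1 - η ≤ ∑ w, P.ev p q w := by
    rw [evsum_eq]
    have h2 := le_eta P p q hW (fun s t => 1 - (if P.lab s t = none then 0 else 1)) (by
        intro s t
        by_cases hm : Meet (P.x s) (P.y t)
        · rw [if_pos hm]
          have : (0 : ℝ) ≤ ((P.S s ∩ P.T t).card : ℝ) := by positivity
          split_ifs <;> linarith
        · rw [if_neg hm, if_neg (lab_ne_none P hm)]
          norm_num)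
    have h3 : ∑ s, ∑ t, p s * q t * (1 - (if P.lab s t = none then 0 else 1)) =
        ∑ s, ∑ t, p s * q t * (1 : ℝ) -
          ∑ s, ∑ t, p s * q t * (if P.lab s t = none then 0 else 1) := by
      rw [← Finset.sum_sub_distrib]
      refine Finset.sum_congr rfl fun s _ => ?_
      rw [← Finset.sum_sub_distrib]
      refine Finset.sum_congr rfl fun t _ => ?_
      ring
    rw [h3, hone] at h2
    linarith
  have zz0 : 1 - η ≤ P.zz p q := ev1.trans (Finset.sum_le_sum fun w _ => evle w)
  have zz1 : P.zz p q ≤ 1 + η := by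
    rw [zz_eq]
    have h2 := le_eta P p q hW (fun s t => ((P.S s ∩ P.T t).card : ℝ) - 1) (by
        intro s t
        by_cases hm : Meet (P.x s) (P.y t)
        · rw [if_pos hm]; linarith
        · rw [if_neg hm, P.one s t hm]; norm_num)
    have h3 : ∑ s, ∑ t, p s * q t * (((P.S s ∩ P.T t).card : ℝ) - 1) =
        ∑ s, ∑ t, p s * q t * ((P.S s ∩ P.T t).card : ℝ) - ∑ s, ∑ t, p s * q t * (1 : ℝ) := by
      rw [← Finset.sum_sub_distrib]
      refine Finset.sum_congr rfl fun s _ => ?_
      rw [← Finset.sum_sub_distrib]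
      refine Finset.sum_congr rfl fun t _ => ?_
      ring
    rw [h3, hone] at h2
    linarith
  have avswap : ∀ u, P.swap.av q u = P.bv q u := fun u => rfl
  have bvswap : ∀ u, P.swap.bv p u = P.av p u := fun u => rfl
  have cvswap : ∀ u, P.swap.cv q p u = P.cv p q u := fun u => by
    unfold Sys.cv
    rw [avswap, bvswap, mul_comm]
  refine ⟨eta0, om0, om1, omle, av0, av1, bv0, bv1, evle, ev0, evsum, ev1, zz0, zz1, ?_, avswap,
    bvswap, cvswap, ?_, ?_⟩
  · intro w
    rw [ev_eq, ev_eq, Finset.sum_comm]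
    refine Finset.sum_congr rfl fun s _ => Finset.sum_congr rfl fun t _ => ?_
    rw [P.swap_lab s t]
    split_ifs
    · ring
    · rfl
  · unfold Sys.zz
    exact Finset.sum_congr rfl fun u _ => cvswap u
  · have h2 := le_eta P p q hW
      (fun s t => if Meet (P.x s) (P.y t) then ((P.S s ∩ P.T t).card : ℝ) else 0) (by
        intro s t
        split_ifs
        · linarith
        · exact le_rfl)
    refine le_trans (le_of_eq ?_) h2
    rw [Finset.sum_comm]
    refine Finset.sum_congr rfl fun s _ => ?_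
    rw [Finset.sum_comm]
    refine Finset.sum_congr rfl fun t _ => ?_
    by_cases hm : Meet (P.x s) (P.y t)
    · rw [if_pos hm, card_eq, Finset.mul_sum]
      refine Finset.sum_congr rfl fun w _ => ?_
      by_cases h1 : w ∈ P.S s <;> by_cases h3 : w ∈ P.T t <;> simp [h1, h3, hm]
    · rw [if_neg hm, mul_zero]
      refine Finset.sum_eq_zero fun w _ => ?_
      rw [if_neg]
      exact fun h => hm h.2.2

end MP668cf7.Sep
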