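import Pool.Agent.Lib.MP_668cf7_lc.Sep.Spec

/-!
# ZAM versus coNP, module 19: the bound for `fkN`
-/

set_option autoImplicit false

namespace MP668cf7.Sep

open Finset

namespace BoundAux

/-- Gibbs' inequality. -/
lemma gibbs {ι : Type} [Fintype ι] (W : ℝ) (hW : 0 < W) (f : ι → ℝ) (hf : ∀ i, 0 ≤ f i)
    (hs : ∑ i, f i = W) :
    ∑ i, f i * Real.log (W / f i) ≤ W * Real.log (Fintype.card ι) := by
  have hne : Nonempty ι := by
    by_contra h
    rw [not_nonempty_iff] at h
    rw [Finset.univ_eq_empty, Finset.sum_empty] at hs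
    exact absurd hs hW.ne
  have hm : (0 : ℝ) < Fintype.card ι := by exact_mod_cast Fintype.card_pos
  have key : ∀ i, f i * Real.log (W / f i) ≤
      f i * Real.log (Fintype.card ι) + (W / Fintype.card ι - f i) := by
    intro i
    rcases (hf i).eq_or_lt with h0 | h0
    · rw [← h0]
      simp only [zero_mul, zero_add, sub_zero]
      positivity
    · have h1 : Real.log (W / f i) = Real.log (Fintype.card ι) +
          Real.log (W / (Fintype.card ι * f i)) := by
        rw [← Real.log_mul hm.ne' (by positivity)]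
        congr 1
        field_simp
      have h2 : Real.log (W / (Fintype.card ι * f i)) ≤ W / (Fintype.card ι * f i) - 1 :=
        Real.log_le_sub_one_of_pos (by positivity)
      have h3 : f i * Real.log (W / (Fintype.card ι * f i)) ≤
          f i * (W / (Fintype.card ι * f i) - 1) := mul_le_mul_of_nonneg_left h2 h0.le
      have h4 : f i * (W / (Fintype.card ι * f i) - 1) = W / Fintype.card ι - f i := by
        field_simp
      rw [h1, mul_add]
      linarith
  calc ∑ i, f i * Real.log (W / f i)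
      ≤ ∑ i, (f i * Real.log (Fintype.card ι) + (W / Fintype.card ι - f i)) :=
        Finset.sum_le_sum fun i _ => key i
    _ = W * Real.log (Fintype.card ι) := by
        rw [Finset.sum_add_distrib, Finset.sum_sub_distrib, ← Finset.sum_mul, hs]
        simp only [Finset.sum_const, Finset.card_univ, nsmul_eq_mul]
        field_simp
        ring

section
variable {k N : ℕ} {A B U : Type} [DecidableEq U] [Fintype A] [Fintype B] [Fintype U]

omit [Fintype A] [Fintype B] in
lemma Zr_eq (P : Sys k N A B U) (A' : Finset A) (B' : Finset B) :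
    P.Zr A' B' = ∑ u, P.al A' u * P.swap.al B' u := by
  have h1 : ∀ (S T : Finset U), ((S ∩ T).card : ℝ) =
      ∑ u, (if u ∈ S then (1 : ℝ) else 0) * (if u ∈ T then (1 : ℝ) else 0) := by
    intro S T
    have : (S ∩ T) = univ.filter fun u => u ∈ S ∧ u ∈ T := by
      ext u
      simp
    rw [this, Finset.card_filter, Nat.cast_sum]
    refine Finset.sum_congr rfl fun u _ => ?_
    by_cases h : u ∈ S <;> by_cases h' : u ∈ T <;> simp [h, h']
  have h2 : ∀ (A' : Finset A) (u : U), P.al A' u =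
      ∑ s ∈ A', (if u ∈ P.S s then (1 : ℝ) else 0) := by
    intro A' u
    unfold Sys.al
    rw [Finset.card_filter, Nat.cast_sum]
    exact Finset.sum_congr rfl fun s _ => by split_ifs <;> simp
  have h3 : ∀ (B' : Finset B) (u : U), P.swap.al B' u =
      ∑ t ∈ B', (if u ∈ P.T t then (1 : ℝ) else 0) := by
    intro B' u
    unfold Sys.al
    rw [Finset.card_filter, Nat.cast_sum]
    exact Finset.sum_congr rfl fun s _ => by
      show ((if u ∈ P.T s then 1 else 0 : ℕ) : ℝ) = _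
      split_ifs <;> simp
  unfold Sys.Zr
  simp only [h1, h2, h3, Finset.sum_mul_sum]
  rw [Finset.sum_comm (s := univ) (t := A')]
  refine Finset.sum_congr rfl fun s _ => ?_
  rw [Finset.sum_comm (s := univ) (t := B')]

lemma Er_le (P : Sys k N A B U) (W : ℝ) (hW : 0 < W)
    (hW' : W = (Fintype.card A : ℝ) * Fintype.card B) (hZ : P.Zr univ univ = W) :
    P.Er univ univ ≤ W * Real.log (Fintype.card U) := by
  have h := gibbs W hW (fun u => P.al univ u * P.swap.al univ u) (fun u => by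
    unfold Sys.al
    positivity) (by rw [← Zr_eq]; exact hZ)
  refine le_trans (le_of_eq ?_) h
  unfold Sys.Er
  rw [hW']
  simp only [Finset.card_univ]

end

/-- The numerical part. `x = log m`, `y = log (m + 1)`, `L = ⌈y⌉`, `g = log` of the error. -/
lemma numer (K : ℕ) (hK : 10 ^ 10 ≤ K) (m : ℕ) (hm : 1 ≤ m)
    (hlt : Real.log m < Real.sqrt K / 10 ^ 4) :
    let L : ℕ := ⌈Real.log ((m : ℝ) + 1)⌉₊
    1 ≤ L ∧ Real.log m ≤ L ∧
      Real.exp (-((K ^ 2 : ℕ) : ℝ) / 10000) * ((m : ℝ) + 1) ^ (800 * K * L) ≤ 1 / 100 := by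
  intro L
  have hm' : (1 : ℝ) ≤ m := by exact_mod_cast hm
  have hK' : (10 : ℝ) ^ 10 ≤ K := by exact_mod_cast hK
  have hpos : 0 < Real.log ((m : ℝ) + 1) := Real.log_pos (by linarith)
  have hL1 : 1 ≤ L := Nat.one_le_ceil_iff.2 hpos
  have hyL : Real.log ((m : ℝ) + 1) ≤ L := Nat.le_ceil _
  have hxy : Real.log m ≤ Real.log ((m : ℝ) + 1) := Real.log_le_log (by linarith) (by linarith)
  refine ⟨hL1, hxy.trans hyL, ?_⟩
  have hy : Real.log ((m : ℝ) + 1) ≤ Real.log m + 1 := by
    have h1 : Real.log ((m : ℝ) + 1) ≤ Real.log (2 * m) :=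
      Real.log_le_log (by linarith) (by linarith)
    rw [Real.log_mul (by norm_num) (by linarith)] at h1
    have h2 : Real.log 2 ≤ 1 := by
      have := Real.log_two_lt_d9
      linarith
    linarith
  have hL2 : (L : ℝ) < Real.log ((m : ℝ) + 1) + 1 := Nat.ceil_lt_add_one hpos.le
  set r := Real.sqrt K with hr
  have hr2 : r ^ 2 = K := Real.sq_sqrt (by linarith)
  have hr5 : (10 : ℝ) ^ 5 ≤ r := by
    rw [hr]
    apply Real.le_sqrt_of_sq_le
    norm_num at hK' ⊢
    exact hK'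
  have hL3 : (L : ℝ) ≤ 12 / 10 * (r / 10 ^ 4) := by
    have : (10 : ℝ) ≤ r / 10 ^ 4 := by
      rw [le_div_iff₀ (by norm_num)]
      linarith
    linarith
  have hL0 : (0 : ℝ) ≤ L := Nat.cast_nonneg L
  have hLsq : (L : ℝ) ^ 2 ≤ 144 / 100 * (K / 10 ^ 8) := by
    calc (L : ℝ) ^ 2 ≤ (12 / 10 * (r / 10 ^ 4)) ^ 2 := pow_le_pow_left₀ hL0 hL3 2
      _ = 144 / 100 * (K / 10 ^ 8) := by rw [← hr2]; ring
  have hexp : ((m : ℝ) + 1) ^ (800 * K * L) =
      Real.exp ((800 * K * L : ℕ) * Real.log ((m : ℝ) + 1)) := by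
    rw [mul_comm ((800 * K * L : ℕ) : ℝ), Real.exp_mul, Real.exp_log (by linarith),
      Real.rpow_natCast]
  rw [hexp, ← Real.exp_add]
  have h3 : ((800 * K * L : ℕ) : ℝ) * Real.log ((m : ℝ) + 1) ≤ 800 * K * (L : ℝ) ^ 2 := by
    push_cast
    have : (0 : ℝ) ≤ 800 * K * L := by positivity
    calc (800 : ℝ) * K * L * Real.log ((m : ℝ) + 1) ≤ 800 * K * L * L :=
          mul_le_mul_of_nonneg_left hyL this
      _ = 800 * K * (L : ℝ) ^ 2 := by ring
  have h4 : 800 * K * (L : ℝ) ^ 2 ≤ (K : ℝ) ^ 2 / 20000 := by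
    calc 800 * K * (L : ℝ) ^ 2 ≤ 800 * K * (144 / 100 * (K / 10 ^ 8)) :=
          mul_le_mul_of_nonneg_left hLsq (by positivity)
      _ = (K : ℝ) ^ 2 * (115200 / 10 ^ 10) := by ring
      _ ≤ (K : ℝ) ^ 2 / 20000 := by
          rw [div_eq_mul_inv]
          apply mul_le_mul_of_nonneg_left _ (by positivity)
          norm_num
  have h5 : -((K ^ 2 : ℕ) : ℝ) / 10000 + ((800 * K * L : ℕ) : ℝ) * Real.log ((m : ℝ) + 1) ≤
      -100 := by
    push_cast at h3 ⊢
    have h6 : (10 : ℝ) ^ 20 ≤ (K : ℝ) ^ 2 := by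
      calc (10 : ℝ) ^ 20 = (10 ^ 10) ^ 2 := by norm_num
        _ ≤ (K : ℝ) ^ 2 := pow_le_pow_left₀ (by norm_num) hK' 2
    have h7 : (2000000 : ℝ) ≤ (10 : ℝ) ^ 20 := by norm_num
    linarith
  refine (Real.exp_le_exp.2 h5).trans ?_
  rw [Real.exp_neg, one_div]
  apply inv_anti₀ (by norm_num)
  have := Real.add_one_le_exp (100 : ℝ)
  linarith

end BoundAux

open BoundAux in
theorem stBound (hC : StCorr) (hI : StInduct) (hR : StRoot) : StBound := by
  intro K hK Pr hPr
  by_contra hlt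
  rw [not_le] at hlt
  have hK0 : 0 < K := lt_of_lt_of_le (by norm_num) hK
  have hK' : (10 : ℝ) ^ 10 ≤ K := by exact_mod_cast hK
  have hKp : (0 : ℝ) < K := by exact_mod_cast hK0
  have hKN : K ≤ K ^ 32 := Nat.le_self_pow (by norm_num) K
  obtain ⟨R, Q, _, _, _, _, P, hx, hy, hZ, hY, hG⟩ :=
    hR (K ^ 2) (K ^ 32) (le_trans (le_trans (by norm_num) hK) hKN) Pr hPr
  have hpos : Nonempty (Fin (K ^ 32)) := ⟨⟨0, pow_pos hK0 32⟩⟩
  have hcA : (0 : ℝ) < Fintype.card ((Fin (K ^ 2) → Fin (K ^ 32)) × R) := by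
    exact_mod_cast Fintype.card_pos
  have hcB : (0 : ℝ) < Fintype.card ((Fin (K ^ 2) → Fin (K ^ 32)) × Q) := by
    exact_mod_cast Fintype.card_pos
  set W : ℝ := (Fintype.card ((Fin (K ^ 2) → Fin (K ^ 32)) × R) : ℝ) *
    Fintype.card ((Fin (K ^ 2) → Fin (K ^ 32)) × Q) with hW
  have hWp : 0 < W := mul_pos hcA hcB
  set ε : ℝ := ((K ^ 2 : ℕ) : ℝ) / ((K ^ 32 : ℕ) : ℝ) with hε
  have hεp : 0 < ε := by
    rw [hε]
    push_cast
    positivity
  have hεK : ε * (K : ℝ) ^ 28 = 1 / (K : ℝ) ^ 2 := by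
    rw [hε]
    push_cast
    field_simp
  set err : ℝ := ε * Real.exp (-((K ^ 2 : ℕ) : ℝ) / 10000) * W with herr
  have hcorr : ∀ (A' : Finset ((Fin (K ^ 2) → Fin (K ^ 32)) × R))
      (B' : Finset ((Fin (K ^ 2) → Fin (K ^ 32)) × Q)),
      (95 / 100 : ℝ) * ε * ((A'.card : ℝ) * B'.card) - err ≤ P.Mr A' B' := by
    intro A' B'
    have h := hC (K ^ 2) (K ^ 32) ?_ ?_ R Q A' B'
    · refine le_trans (le_of_eq ?_) (h.trans (le_of_eq ?_))
      · rw [herr, hW]
      · unfold Sys.Mr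
        refine Finset.sum_congr rfl fun s _ => Finset.sum_congr rfl fun t _ => ?_
        rw [hx, hy]
    · exact le_trans (le_trans (by norm_num) hK) hKN
    · calc 100 * K ^ 2 ≤ K * K ^ 2 := Nat.mul_le_mul_right _ (le_trans (by norm_num) hK)
        _ = K ^ 3 := by ring
        _ ≤ K ^ 32 := Nat.pow_le_pow_right hK0 (by norm_num)
  have hm : 1 ≤ Pr.m := by
    by_contra h
    have h0 : Pr.m = 0 := by omega
    have hZ0 : P.Zr univ univ = 0 := by
      rw [Zr_eq]
      apply Finset.sum_eq_zero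
      intro u _
      exact absurd u.2 (by omega)
    rw [hZ0] at hZ
    exact absurd hZ hWp.ne
  obtain ⟨hL1, hL2, hL3⟩ := numer K hK Pr.m hm hlt
  set L : ℕ := ⌈Real.log ((Pr.m : ℝ) + 1)⌉₊ with hL
  have hEr := Er_le P W hWp rfl hZ
  rw [Fintype.card_fin] at hEr
  have hind := hI K (le_trans (by norm_num) hK) P ε err hεp.le (by positivity) hcorr
    (800 * K * L) (800 * K * L) le_rfl univ univ
  rw [Fintype.card_fin] at hind
  have herr2 : err * ((Pr.m : ℝ) + 1) ^ (800 * K * L) ≤ ε * W * (1 / 100) := by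
    calc err * ((Pr.m : ℝ) + 1) ^ (800 * K * L)
        = ε * W * (Real.exp (-((K ^ 2 : ℕ) : ℝ) / 10000) *
          ((Pr.m : ℝ) + 1) ^ (800 * K * L)) := by rw [herr]; ring
      _ ≤ ε * W * (1 / 100) := mul_le_mul_of_nonneg_left hL3 (by positivity)
  have hLr : (1 : ℝ) ≤ L := by exact_mod_cast hL1
  have hPsi : 89 / 100 * W ≤ P.Psi K (800 * K * L) (800 * K * L) univ univ := by
    unfold Sys.Psi
    have hn : (0 : ℝ) < ((800 * K * L : ℕ) : ℝ) := by
      push_cast
      positivity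
    rw [le_div_iff₀ hn]
    push_cast
    rw [hZ]
    have e1 : 80 * (K : ℝ) * P.Er univ univ ≤ 80 * K * (W * L) :=
      mul_le_mul_of_nonneg_left (hEr.trans (mul_le_mul_of_nonneg_left hL2 hWp.le))
        (by positivity)
    have e2 : 2 * (800 * (K : ℝ) * L) * (K : ℝ) ^ 28 * P.Yr univ univ ≤
        W * L * K / 100 := by
      have : (2 : ℝ) * (800 * (K : ℝ) * L) * (K : ℝ) ^ 28 * P.Yr univ univ ≤
          2 * (800 * (K : ℝ) * L) * (K : ℝ) ^ 28 * (2 * ε * W) :=
        mul_le_mul_of_nonneg_left hY (by positivity)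
      refine this.trans ?_
      have e3 : 2 * (800 * (K : ℝ) * L) * (K : ℝ) ^ 28 * (2 * ε * W) =
          3200 * K * L * W * (ε * (K : ℝ) ^ 28) := by ring
      rw [e3, hεK]
      have e4 : 1 / (K : ℝ) ^ 2 ≤ 1 / 10 ^ 10 := by
        apply one_div_le_one_div_of_le (by norm_num)
        calc (10 : ℝ) ^ 10 ≤ K := hK'
          _ ≤ (K : ℝ) ^ 2 := by nlinarith
      calc 3200 * (K : ℝ) * L * W * (1 / (K : ℝ) ^ 2)
          ≤ 3200 * (K : ℝ) * L * W * (1 / 10 ^ 10) :=
            mul_le_mul_of_nonneg_left e4 (by positivity)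
        _ = W * L * K * (3200 / 10 ^ 10) := by ring
        _ ≤ W * L * K * (1 / 100) := by
            apply mul_le_mul_of_nonneg_left _ (by positivity)
            norm_num
        _ = W * L * K / 100 := by ring
    have e5 : 2 * (K : ℝ) * W ≤ 2 * K * W * L := le_mul_of_one_le_right (by positivity) hLr
    have e6 : 0 ≤ W * L * K := by positivity
    nlinarith [e1, e2, e5, e6]
  have h1 : 85 / 100 * ε * (89 / 100 * W) ≤
      85 / 100 * ε * P.Psi K (800 * K * L) (800 * K * L) univ univ :=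
    mul_le_mul_of_nonneg_left hPsi (by positivity)
  have h2 : 0 < ε * W := mul_pos hεp hWp
  have h3 : P.Gr univ univ ≤ 1 / 2 * ε * W := hG
  nlinarith [h1, h2, h3, hind, herr2]

end MP668cf7.Sep
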