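import Pool.Agent.Lib.MP_668cf7_lc.Sep.Spec

/-!
# Module 21: the `coNP` complexity of disjointness
-/

namespace MP668cf7.Sep

open Finset

theorem stCoNP : StCoNP := by
  classical
  intro n
  unfold coNP
  refine Nat.clog_mono_right 2 (Nat.sInf_le ?_)
  refine ⟨fun i => {x | i ∈ x}, fun i => {y | i ∈ y}, fun x y => ?_⟩
  unfold DISJ
  rw [decide_eq_false_iff_not, Finset.not_disjoint_iff]
  rfl

end MP668cf7.Sep
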