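import Pool.Agent.Lib.MP_668cf7_lc.Sep.Spec

/-!
Module 13: abstract counting.
-/

namespace MP668cf7.Sep

open Finset

/-- elements minus values is at most the number of colliding pairs -/
theorem count_image {L k : ℕ} (G : Finset (Fin L)) (f : Fin L → Fin k)
    (C : Finset (Fin L × Fin L))
    (h : ∀ a ∈ G, ∀ a' ∈ G, a < a' → f a = f a' → (a, a') ∈ C) :
    G.card ≤ (G.image f).card + C.card := by
  classical
  -- representatives: the least element of each fibre
  set R : Finset (Fin L) := G.filter fun a => ∀ a' ∈ G, a' < a → f a' ≠ f a with hR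
  have hRinj : Set.InjOn f (R : Set (Fin L)) := by
    intro a ha a' ha' hf
    rw [hR, mem_coe, mem_filter] at ha ha'
    rcases lt_trichotomy a a' with hlt | heq | hlt
    · exact absurd hf (ha'.2 a ha.1 hlt)
    · exact heq
    · exact absurd hf.symm (ha.2 a' ha'.1 hlt)
  have h1 : R.card ≤ (G.image f).card := by
    rw [← Finset.card_image_of_injOn hRinj]
    exact Finset.card_le_card (Finset.image_subset_image (Finset.filter_subset _ _))
  have h2 : (G \ R).card ≤ C.card := by
    have hex : ∀ a ∈ G \ R, ∃ a' ∈ G, a' < a ∧ f a' = f a := by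
      intro a ha
      rw [mem_sdiff, hR, mem_filter] at ha
      by_contra hcon
      push Not at hcon
      exact ha.2 ⟨ha.1, fun a' ha' hlt => hcon a' ha' hlt⟩
    choose! g hg1 hg2 hg3 using hex
    refine Finset.card_le_card_of_injOn (fun a => (g a, a)) ?_ ?_
    · intro a ha
      have ha' : a ∈ G \ R := ha
      exact h (g a) (hg1 a ha') a (mem_sdiff.1 ha').1 (hg2 a ha') (hg3 a ha')
    · intro a _ a' _ haa
      exact (Prod.ext_iff.1 haa).2
  have h3 : (G \ R).card = G.card - R.card := by
    rw [Finset.card_sdiff_of_subset (Finset.filter_subset _ _)]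
  have h4 : R.card ≤ G.card := Finset.card_le_card (Finset.filter_subset _ _)
  omega

theorem stCount : StCount := by
  intro k L good b coll E _ _ _ h1 h2
  classical
  set G : Fin L → Finset (Fin L) := fun l => univ.filter fun a : Fin L => a < l ∧ good a l with hG
  set C : Fin L → Finset (Fin L × Fin L) := fun l =>
    univ.filter fun z : Fin L × Fin L => z.1 < z.2 ∧ z.2 < l ∧ coll z.1 z.2 l with hC
  set B : Fin L → Finset (Fin k) := fun l => (G l).image fun a => b a l with hB
  have hGC : ∀ l, (G l).card ≤ (B l).card + (C l).card := by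
    intro l
    refine count_image (G l) (fun a => b a l) (C l) ?_
    intro a ha a' ha' hlt hf
    simp only [hG, mem_filter, mem_univ, true_and] at ha ha'
    simp only [hC, mem_filter, mem_univ, true_and]
    exact ⟨hlt, ha'.1, h1 a a' l hlt ha'.1 ha.2 ha'.2 hf⟩
  have hGl : ∀ l : Fin L, ((G l).card : ℝ) ≤ (l : ℝ) := by
    intro l
    have h3 : (G l).card ≤ (Finset.Iio l).card := by
      refine Finset.card_le_card ?_
      intro a ha
      simp only [hG, mem_filter, mem_univ, true_and] at ha
      exact Finset.mem_Iio.2 ha.1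
    rw [Fin.card_Iio] at h3
    exact_mod_cast h3
  have hterm : ∀ l : Fin L, (((G l).card : ℝ) - ((C l).card : ℝ)) - (if E l then (l : ℝ) else 0) ≤
      if ¬ E l then ((B l).card : ℝ) else 0 := by
    intro l
    have h3 : ((G l).card : ℝ) ≤ ((B l).card : ℝ) + ((C l).card : ℝ) := by exact_mod_cast hGC l
    have h4 := hGl l
    have h5 : (0 : ℝ) ≤ ((C l).card : ℝ) := Nat.cast_nonneg _
    by_cases hE : E l
    · simp only [hE, if_true, not_true_eq_false, if_false]
      linarith
    · simp only [hE, if_false, not_false_eq_true, if_true]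
      linarith
  have hdisj : ∀ l ∈ univ.filter (fun l : Fin L => ¬ E l),
      ∀ l' ∈ univ.filter (fun l : Fin L => ¬ E l), l ≠ l' → Disjoint (B l) (B l') := by
    have key : ∀ l l' : Fin L, l' < l → ¬ E l → Disjoint (B l) (B l') := by
      intro l l' hlt hE
      rw [Finset.disjoint_left]
      intro z hz hz'
      simp only [hB, mem_image, hG, mem_filter, mem_univ, true_and] at hz hz'
      obtain ⟨a, ⟨ha1, ha2⟩, rfl⟩ := hz
      obtain ⟨a', ⟨ha1', ha2'⟩, hf⟩ := hz'
      exact hE (h2 a l a' l' ha1 ha1' hlt ha2 ha2' hf.symm)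
    intro l hl l' hl' hne
    rw [mem_filter] at hl hl'
    rcases lt_or_gt_of_ne hne with hlt | hlt
    · exact (key l' l hlt hl'.2).symm
    · exact key l l' hlt hl.2
  calc ∑ l, ((((G l).card : ℝ) - ((C l).card : ℝ)) - if E l then (l : ℝ) else 0)
      ≤ ∑ l : Fin L, (if ¬ E l then ((B l).card : ℝ) else 0) :=
        Finset.sum_le_sum fun l _ => hterm l
    _ = ∑ l ∈ univ.filter (fun l : Fin L => ¬ E l), ((B l).card : ℝ) := by
        rw [Finset.sum_filter]
    _ = (((univ.filter (fun l : Fin L => ¬ E l)).biUnion B).card : ℝ) := by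
        rw [Finset.card_biUnion hdisj, Nat.cast_sum]
    _ ≤ k := by
        have := Finset.card_le_univ ((univ.filter (fun l : Fin L => ¬ E l)).biUnion B)
        rw [Fintype.card_fin] at this
        exact_mod_cast this

end MP668cf7.Sep
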