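import Pool.Agent.Lib.MP_668cf7_lc.Sep.Spec

/-!
# Module 7: the diagonal mass
-/

namespace MP668cf7.Sep

open Finset

theorem diag_aux (a b : ℝ) (ha : 0 ≤ a) (hb : 0 ≤ b) (hab : a * b ≤ 9 / 10) :
    (1 / 10) * (a * b) ≤ b * (1 - a) + a * (1 - b) := by
  have h0 : 0 ≤ a * b := mul_nonneg ha hb
  have h1 : (21 / 10 * (a * b)) ^ 2 ≤ (a + b) ^ 2 := by
    have h2 : 4 * (a * b) ≤ (a + b) ^ 2 := by nlinarith [sq_nonneg (a - b)]
    have h3 : (21 / 10 * (a * b)) ^ 2 ≤ 4 * (a * b) := by nlinarith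
    exact h3.trans h2
  have h4 : 21 / 10 * (a * b) ≤ a + b := by
    have := abs_le_of_sq_le_sq h1 (by linarith)
    exact (le_abs_self _).trans this
  nlinarith

theorem stDiag (hB : StBasic) (hL : StL1) : StDiag := by
  classical
  intro k N A B U _ _ _ _ P p q η hW hc
  obtain ⟨hb, hWs⟩ := hB P p q η hW
  obtain ⟨-, -, h3, -⟩ := hL P p q η hW
  obtain ⟨-, -, h3', -⟩ := hL P.swap q p η hWs
  simp only [hb.evswap, hb.avswap, hb.bvswap, hb.zzswap] at h3'
  set X := Real.sqrt (P.zz p q * P.gh p q 1)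
  set Y := Real.sqrt (P.zz p q * P.swap.gh q p 1)
  have h4 : ∑ w, (1 / 10) * (P.ev p q w * P.cv p q w) ≤ 2 * X + 2 * Y := by
    refine le_trans ?_ (add_le_add h3 h3')
    rw [← Finset.sum_add_distrib]
    refine Finset.sum_le_sum fun w _ => ?_
    have h5 := diag_aux (P.av p w) (P.bv q w) (hb.av0 w) (hb.bv0 w) (hc w)
    have h6 := mul_le_mul_of_nonneg_left h5 (hb.ev0 w)
    have h7 : P.cv p q w = P.av p w * P.bv q w := rfl
    rw [h7]
    linarith [h6]
  rw [← Finset.mul_sum] at h4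
  have h8 : ∑ w, P.cv p q w ^ 2 ≤ ∑ w, (P.ev p q w * P.cv p q w + (P.cv p q w - P.ev p q w)) := by
    refine Finset.sum_le_sum fun w _ => ?_
    have h9 := hb.evle w
    have h10 := hc w
    nlinarith
  rw [Finset.sum_add_distrib] at h8
  have h11 := hb.evsum
  linarith

end MP668cf7.Sep
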