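import Pool.Agent.Lib.MP_668cf7_lc.Sep.Spec

/-! Module 4: the entropy drop identity. -/

namespace MP668cf7.Sep

open Finset

namespace DropM

lemma term {a b ai x al y : ℝ} (ha : 0 < a) (hb : 0 < b) (hx : 0 ≤ x) (hy : 0 ≤ y)
    (hai : x ≤ ai) (hal : x ≤ al) :
    x * y * Real.log (ai * b / (x * y)) = x * y * Real.log (a * b / (al * y)) -
      a * b * (x / a * (y / b) * Real.log ((x / a * (y / b)) / (ai / a * (al / a * (y / b))))) := by
  rcases hx.eq_or_lt with h | hx
  · rw [← h]; simp
  rcases hy.eq_or_lt with h | hy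
  · rw [← h]; simp
  have hai0 : 0 < ai := by linarith
  have hal0 : 0 < al := by linarith
  have e1 : (x / a * (y / b)) / (ai / a * (al / a * (y / b))) = (a * b / (al * y)) / (ai * b / (x * y)) := by
    field_simp
  have e2 : a * b * (x / a * (y / b) * Real.log ((x / a * (y / b)) / (ai / a * (al / a * (y / b))))) =
      x * y * Real.log ((x / a * (y / b)) / (ai / a * (al / a * (y / b)))) := by
    field_simp
  have e3 : Real.log ((a * b / (al * y)) / (ai * b / (x * y))) =
      Real.log (a * b / (al * y)) - Real.log (ai * b / (x * y)) :=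
    Real.log_div (by positivity) (by positivity)
  rw [e2, e1, e3]
  ring

lemma sum_unif {A : Type} [Fintype A] (A' : Finset A) (p : A → Prop) [DecidablePred p] :
    (∑ s, if p s then unif A' s else 0) = ((A'.filter p).card : ℝ) / A'.card := by
  classical
  have h : ∀ s, (if p s then unif A' s else 0) =
      if s ∈ A'.filter p then 1 / (A'.card : ℝ) else 0 := by
    intro s
    unfold unif
    by_cases h1 : p s <;> by_cases h2 : s ∈ A' <;> simp [h1, h2]
  simp_rw [h]
  rw [Finset.sum_ite_mem, Finset.univ_inter, Finset.sum_const, nsmul_eq_mul]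
  ring

end DropM

open DropM in
theorem stDrop : StDrop := by
  intro k N A B U _ _ _ _ P A' B' hA hB κ _ _ φ
  set a : ℝ := (A'.card : ℝ) with ha
  set b : ℝ := (B'.card : ℝ) with hb
  have ha0 : 0 < a := by
    rw [ha]; exact_mod_cast hA.card_pos
  have hb0 : 0 < b := by
    rw [hb]; exact_mod_cast hB.card_pos
  have hbv : ∀ u, P.bv (unif B') u = P.swap.al B' u / b := by
    intro u
    unfold Sys.bv
    exact sum_unif B' (fun t => u ∈ P.T t)
  have hav : ∀ u, P.av (unif A') u = P.al A' u / a := by
    intro u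
    unfold Sys.av
    exact sum_unif A' (fun s => u ∈ P.S s)
  have hni : ∀ (i : κ) (u : U), (∑ s, if φ s = i ∧ u ∈ P.S s then unif A' s else 0) =
      P.al (A'.filter fun s => φ s = i) u / a := by
    intro i u
    rw [sum_unif A' (fun s => φ s = i ∧ u ∈ P.S s)]
    unfold Sys.al
    rw [Finset.filter_filter]
  have hi : ∀ i : κ, (∑ s, if φ s = i then unif A' s else 0) =
      ((A'.filter fun s => φ s = i).card : ℝ) / a := fun i => sum_unif A' (fun s => φ s = i)
  have hsum : ∀ u, P.al A' u = ∑ i, P.al (A'.filter fun s => φ s = i) u := by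
    intro u
    unfold Sys.al
    rw [← Nat.cast_sum]
    congr 1
    have h1 := Finset.card_eq_sum_card_fiberwise (f := φ) (s := A'.filter fun s => u ∈ P.S s)
      (t := univ) (fun s _ => by simp)
    rw [h1]
    refine Finset.sum_congr rfl fun i _ => ?_
    congr 1
    ext s
    simp only [Finset.mem_filter]
    tauto
  have hx0 : ∀ (X : Finset A) u, 0 ≤ P.al X u := fun X u => by unfold Sys.al; positivity
  have hy0 : ∀ u, 0 ≤ P.swap.al B' u := fun u => by unfold Sys.al; positivity
  have hle1 : ∀ i u, P.al (A'.filter fun s => φ s = i) u ≤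
      ((A'.filter fun s => φ s = i).card : ℝ) := by
    intro i u
    unfold Sys.al
    exact_mod_cast Finset.card_filter_le _ _
  have hle2 : ∀ i u, P.al (A'.filter fun s => φ s = i) u ≤ P.al A' u := by
    intro i u
    rw [hsum u]
    exact Finset.single_le_sum (f := fun i => P.al (A'.filter fun s => φ s = i) u)
      (fun j _ => hx0 _ u) (Finset.mem_univ i)
  unfold Sys.gphi KL
  rw [Fintype.sum_prod_type]
  simp only [Sys.cv]
  simp_rw [hni, hi, hbv, hav]
  rw [Finset.mul_sum]
  have hE : P.Er A' B' = ∑ i : κ, ∑ u, P.al (A'.filter fun s => φ s = i) u * P.swap.al B' u *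
      Real.log (a * b / (P.al A' u * P.swap.al B' u)) := by
    unfold Sys.Er
    rw [Finset.sum_comm]
    refine Finset.sum_congr rfl fun u _ => ?_
    rw [← Finset.sum_mul, ← Finset.sum_mul, ← hsum u]
  rw [hE, ← Finset.sum_sub_distrib]
  refine Finset.sum_congr rfl fun i _ => ?_
  unfold Sys.Er
  rw [Finset.mul_sum, ← Finset.sum_sub_distrib]
  refine Finset.sum_congr rfl fun u _ => ?_
  exact term ha0 hb0 (hx0 _ u) (hy0 u) (hle1 i u) (hle2 i u)

end MP668cf7.Sep
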