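import Pool.Agent.Lib.MP_668cf7_lc.Sep.Spec

/-!
# Module 20: restriction of a protocol for disjointness
-/

namespace MP668cf7.Sep

open Finset

theorem stEmbed : StEmbed := by
  classical
  intro k N n hkn Pr hPr
  let ι : Fin k × Fin N → Fin n := fun z => Fin.castLE hkn (finProdFinEquiv z)
  have hι : Function.Injective ι := by
    intro z z' h
    exact finProdFinEquiv.injective (Fin.castLE_injective hkn h)
  let X : (Fin k → Fin N) → Finset (Fin n) := fun x => univ.image fun b => ι (b, x b)
  have hX : ∀ x y, DISJ n (X x) (X y) = fkN k N x y := by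
    intro x y
    unfold DISJ fkN
    congr 1
    rw [eq_iff_iff, Finset.disjoint_left]
    constructor
    · intro h hm
      obtain ⟨b, hb⟩ := hm
      refine h (a := ι (b, x b)) ?_ ?_
      · exact Finset.mem_image.2 ⟨b, Finset.mem_univ _, rfl⟩
      · exact Finset.mem_image.2 ⟨b, Finset.mem_univ _, by rw [hb]⟩
    · intro h a ha ha'
      obtain ⟨b, -, hb⟩ := Finset.mem_image.1 ha
      obtain ⟨b', -, hb'⟩ := Finset.mem_image.1 ha'
      have h1 : (b, x b) = (b', y b') := hι (hb.trans hb'.symm)
      have h2 : b = b' := congrArg Prod.fst h1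
      have h3 : x b = y b' := congrArg Prod.snd h1
      subst h2
      exact h ⟨b, h3⟩
  let Pr' : AMProtocol (Fin k → Fin N) (Fin k → Fin N) :=
    { R := Pr.R
      Q := Pr.Q
      finR := Pr.finR
      finQ := Pr.finQ
      nonR := Pr.nonR
      nonQ := Pr.nonQ
      m := Pr.m
      A := fun i => {z | (X z.1, z.2) ∈ Pr.A i}
      B := fun i => {z | (X z.1, z.2) ∈ Pr.B i} }
  refine ⟨Pr', ⟨?_, ?_, ?_, ?_⟩, rfl⟩
  · intro x y h
    exact hPr.complete (X x) (X y) ((hX x y).trans h)
  · intro x y h
    exact hPr.sound (X x) (X y) ((hX x y).trans h)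
  · intro x y h c i j
    exact hPr.unambiguous (X x) (X y) ((hX x y).trans h) c i j
  · intro x y x' y' h h' i
    exact hPr.zeroInfo (X x) (X y) (X x') (X y') ((hX x y).trans h) ((hX x' y').trans h') i

end MP668cf7.Sep
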