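import Pool.Agent.Lib.MP_668cf7_lc.Sep.Spec

/-!
# Module 15: the expected count
-/

namespace MP668cf7.Sep

open Finset

section general

variable {ι : Type} [Fintype ι]

theorem ex_sum_snoc {n : ℕ} (G : (Fin (n + 1) → ι) → ℝ) :
    ∑ κ, G κ = ∑ κ' : Fin n → ι, ∑ o : ι, G (Fin.snoc (α := fun _ => ι) κ' o) := by
  rw [← (Fin.snocEquiv (fun _ : Fin (n + 1) => ι)).sum_comp, Fintype.sum_prod_type, sum_comm]
  rfl

theorem ex_sum_two (G : (Fin 2 → ι) → ℝ) : ∑ κ, G κ = ∑ o, ∑ o', G ![o, o'] := by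
  rw [← (finTwoArrowEquiv ι).symm.sum_comp, Fintype.sum_prod_type]
  rfl

theorem ex_sum_three (G : (Fin 3 → ι) → ℝ) :
    ∑ κ, G κ = ∑ o, ∑ o', ∑ o'', G ![o, o', o''] := by
  rw [← (Fin.consEquiv (fun _ : Fin 3 => ι)).sum_comp, Fintype.sum_prod_type]
  refine sum_congr rfl fun o _ => ?_
  rw [ex_sum_two]
  rfl

theorem ex_marg_two (hMarg : StMarg) (ω : ι → ℝ) (hω : ∑ i, ω i = 1) {L : ℕ} (a l : Fin L)
    (hal : a ≠ l) (F : ι → ι → ℝ) :
    ∑ κ : Fin L → ι, (∏ i, ω (κ i)) * F (κ a) (κ l) =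
      ∑ o, ∑ o', ω o * ω o' * F o o' := by
  have hinj : Function.Injective (![a, l] : Fin 2 → Fin L) := by
    intro i j hij
    fin_cases i <;> fin_cases j <;> simp_all
  have h := hMarg ι ω hω L 2 ![a, l] hinj (fun κ' => F (κ' 0) (κ' 1))
  simp only [Matrix.cons_val_zero, Matrix.cons_val_one] at h
  rw [h, ex_sum_two]
  refine sum_congr rfl fun o _ => sum_congr rfl fun o' _ => ?_
  simp [Fin.prod_univ_two]

theorem ex_marg_three (hMarg : StMarg) (ω : ι → ℝ) (hω : ∑ i, ω i = 1) {L : ℕ}
    (a a' l : Fin L) (h1 : a ≠ a') (h2 : a ≠ l) (h3 : a' ≠ l) (F : ι → ι → ι → ℝ) :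
    ∑ κ : Fin L → ι, (∏ i, ω (κ i)) * F (κ a) (κ a') (κ l) =
      ∑ o, ∑ o', ∑ o'', ω o * ω o' * ω o'' * F o o' o'' := by
  have hinj : Function.Injective (![a, a', l] : Fin 3 → Fin L) := by
    intro i j hij
    fin_cases i <;> fin_cases j <;> simp_all
  have h := hMarg ι ω hω L 3 ![a, a', l] hinj (fun κ' => F (κ' 0) (κ' 1) (κ' 2))
  have e2 : (![a, a', l] : Fin 3 → Fin L) 2 = l := rfl
  simp only [Matrix.cons_val_zero, Matrix.cons_val_one, e2] at h
  rw [h, ex_sum_three]
  refine sum_congr rfl fun o _ => sum_congr rfl fun o' _ => sum_congr rfl fun o'' _ => ?_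
  have e3 : (![o, o', o''] : Fin 3 → ι) 2 = o'' := rfl
  simp only [Matrix.cons_val_zero, Matrix.cons_val_one, e3, Fin.prod_univ_three]

theorem ex_marg_last (hMarg : StMarg) (ω : ι → ℝ) (hω : ∑ i, ω i = 1) {L : ℕ} (l : Fin L)
    (F : (Fin l.val → ι) → ι → ℝ) :
    ∑ κ : Fin L → ι, (∏ i, ω (κ i)) *
      F (fun a => κ (Fin.castLE (Nat.succ_le_of_lt l.isLt) a.castSucc)) (κ l) =
      ∑ κ' : Fin l.val → ι, ∑ o, (∏ i, ω (κ' i)) * ω o * F κ' o := by
  have h := hMarg ι ω hω L (l.val + 1) (Fin.castLE (Nat.succ_le_of_lt l.isLt))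
    (Fin.castLE_injective _) (fun κ' => F (fun a => κ' a.castSucc) (κ' (Fin.last _)))
  have e : (Fin.castLE (Nat.succ_le_of_lt l.isLt) (Fin.last l.val)) = l := Fin.ext rfl
  simp only [e] at h
  rw [h, ex_sum_snoc]
  refine sum_congr rfl fun κ' _ => sum_congr rfl fun o _ => ?_
  rw [Fin.prod_univ_castSucc]
  simp only [Fin.snoc_castSucc, Fin.snoc_last]

theorem ex_total (hMarg : StMarg) (ω : ι → ℝ) (hω : ∑ i, ω i = 1) (L : ℕ) :
    ∑ κ : Fin L → ι, (∏ i, ω (κ i)) = 1 := by
  have h := hMarg ι ω hω L 0 Fin.elim0 (fun i => i.elim0) (fun _ => 1)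
  simpa using h

theorem ex_card_lt {L : ℕ} (l : Fin L) (c : ℝ) :
    ∑ a : Fin L, (if a < l then c else 0) = (l : ℝ) * c := by
  rw [← sum_filter, sum_const, nsmul_eq_mul]
  have : (univ.filter fun a : Fin L => a < l) = Iio l := by ext; simp
  rw [this, Fin.card_Iio]

theorem ex_sum_val {L : ℕ} (l : Fin L) :
    ∑ a : Fin L, (if a < l then (a : ℝ) else 0) = (l : ℝ) * (l - 1) / 2 := by
  have h1 : ∑ a : Fin L, (if a < l then (a : ℝ) else 0) =
      ∑ i ∈ range L, (if i < l.val then (i : ℝ) else 0) := by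
    rw [Finset.sum_range]
    refine sum_congr rfl fun a _ => ?_
    simp only [Fin.lt_def]
  rw [h1, ← sum_filter]
  have h2 : (range L).filter (fun i => i < l.val) = range l.val := by
    ext i
    simp only [mem_filter, mem_range]
    have := l.isLt
    omega
  rw [h2]
  generalize l.val = m
  induction m with
  | zero => simp
  | succ m ih => rw [sum_range_succ, ih]; push_cast; ring

end general

section

variable {k N : ℕ} {A B U : Type} [DecidableEq U] [Fintype A] [Fintype B] [Fintype U]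

/-- good pairs of labels -/
def exGood (P : Sys k N A B U) (p : A → ℝ) (q : B → ℝ) (h : ℝ) (s : A) (o o' : Option U) :
    Prop :=
  ∃ w u, o = some w ∧ o' = some u ∧ P.PP p q w u ∧ ¬ P.Hit q h s w ∧ ¬ P.Hit q h s u

/-- colliding triples of labels -/
def exColl (P : Sys k N A B U) (p : A → ℝ) (q : B → ℝ) (h : ℝ) (o o' o'' : Option U) : Prop :=
  ∃ w1 w2 u, o = some w1 ∧ o' = some w2 ∧ o'' = some u ∧ P.Coll p q h w1 w2 u

/-- the event `E` for labels -/
def exE (P : Sys k N A B U) (p : A → ℝ) (q : B → ℝ) (h : ℝ) {l : ℕ} (κ : Fin l → Option U)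
    (o : Option U) : Prop := ∃ u, o = some u ∧ P.EE p q h κ u

open scoped Classical in
/-- good pairs, conditional probability given `s` -/
noncomputable def exG (P : Sys k N A B U) (p : A → ℝ) (q : B → ℝ) (h : ℝ) (s : A) : ℝ :=
  ∑ o, ∑ o', P.om q s o * P.om q s o' * (if exGood P p q h s o o' then 1 else 0)

open scoped Classical in
/-- colliding triples, conditional probability given `s` -/
noncomputable def exC (P : Sys k N A B U) (p : A → ℝ) (q : B → ℝ) (h : ℝ) (s : A) : ℝ :=
  ∑ o, ∑ o', ∑ o'', P.om q s o * P.om q s o' * P.om q s o'' *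
    (if exColl P p q h o o' o'' then 1 else 0)

open scoped Classical in
/-- the event `E`, conditional probability given `s` -/
noncomputable def exEl (P : Sys k N A B U) (p : A → ℝ) (q : B → ℝ) (h : ℝ) (s : A) (l : ℕ) : ℝ :=
  ∑ κ : Fin l → Option U, ∑ o, (∏ i, P.om q s (κ i)) * P.om q s o *
    (if exE P p q h κ o then 1 else 0)

theorem ex_pGood (P : Sys k N A B U) (p : A → ℝ) (q : B → ℝ) (h : ℝ) :
    P.pGood p q h = ∑ s, p s * exG P p q h s := by
  classical
  unfold Sys.pGood exG
  refine sum_congr rfl fun s _ => ?_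
  rw [mul_sum, Fintype.sum_option]
  have h0 : p s * (∑ o', P.om q s none * P.om q s o' *
      (if exGood P p q h s none o' then (1 : ℝ) else 0)) = 0 := by
    rw [sum_eq_zero, mul_zero]
    intro o' _
    rw [if_neg, mul_zero]
    rintro ⟨w, u, h1, -⟩
    simp at h1
  rw [h0, zero_add]
  refine sum_congr rfl fun w _ => ?_
  rw [mul_sum, Fintype.sum_option]
  have h1 : p s * (P.om q s (some w) * P.om q s none *
      (if exGood P p q h s (some w) none then (1 : ℝ) else 0)) = 0 := by
    rw [if_neg, mul_zero, mul_zero]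
    rintro ⟨w, u, -, h1, -⟩
    simp at h1
  rw [h1, zero_add]
  refine sum_congr rfl fun u _ => ?_
  by_cases hc : P.PP p q w u ∧ ¬ P.Hit q h s w ∧ ¬ P.Hit q h s u
  · rw [if_pos hc, if_pos ⟨w, u, rfl, rfl, hc⟩, mul_one]
  · rw [if_neg hc, if_neg, mul_zero, mul_zero]
    rintro ⟨w', u', h1, h2, h3⟩
    simp only [Option.some.injEq] at h1 h2
    subst h1 h2
    exact hc h3

theorem ex_pColl (P : Sys k N A B U) (p : A → ℝ) (q : B → ℝ) (h : ℝ) :
    P.pColl p q h = ∑ s, p s * exC P p q h s := by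
  classical
  unfold Sys.pColl exC
  refine sum_congr rfl fun s _ => ?_
  rw [mul_sum, Fintype.sum_option]
  have h0 : p s * (∑ o', ∑ o'', P.om q s none * P.om q s o' * P.om q s o'' *
      (if exColl P p q h none o' o'' then (1 : ℝ) else 0)) = 0 := by
    rw [sum_eq_zero, mul_zero]
    intro o' _
    refine sum_eq_zero fun o'' _ => ?_
    rw [if_neg, mul_zero]
    rintro ⟨w1, w2, u, h1, -⟩
    simp at h1
  rw [h0, zero_add]
  refine sum_congr rfl fun w1 _ => ?_
  rw [mul_sum, Fintype.sum_option]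
  have h1 : p s * (∑ o'', P.om q s (some w1) * P.om q s none * P.om q s o'' *
      (if exColl P p q h (some w1) none o'' then (1 : ℝ) else 0)) = 0 := by
    rw [sum_eq_zero, mul_zero]
    intro o'' _
    rw [if_neg, mul_zero]
    rintro ⟨w1, w2, u, -, h1, -⟩
    simp at h1
  rw [h1, zero_add]
  refine sum_congr rfl fun w2 _ => ?_
  rw [mul_sum, Fintype.sum_option]
  have h2 : p s * (P.om q s (some w1) * P.om q s (some w2) * P.om q s none *
      (if exColl P p q h (some w1) (some w2) none then (1 : ℝ) else 0)) = 0 := by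
    rw [if_neg, mul_zero, mul_zero]
    rintro ⟨w1, w2, u, -, -, h1, -⟩
    simp at h1
  rw [h2, zero_add]
  refine sum_congr rfl fun u _ => ?_
  by_cases hc : P.Coll p q h w1 w2 u
  · rw [if_pos hc, if_pos ⟨w1, w2, u, rfl, rfl, rfl, hc⟩, mul_one]
  · rw [if_neg hc, if_neg, mul_zero, mul_zero]
    rintro ⟨w1', w2', u', h1, h2, h3, h4⟩
    simp only [Option.some.injEq] at h1 h2 h3
    subst h1 h2 h3
    exact hc h4

theorem ex_pE (P : Sys k N A B U) (p : A → ℝ) (q : B → ℝ) (h : ℝ) (l : ℕ) :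
    P.pE p q h l = ∑ s, p s * exEl P p q h s l := by
  classical
  unfold Sys.pE exEl
  refine sum_congr rfl fun s _ => ?_
  rw [mul_sum]
  refine sum_congr rfl fun κ _ => ?_
  rw [mul_sum, Fintype.sum_option]
  have h2 : p s * ((∏ i, P.om q s (κ i)) * P.om q s none *
      (if exE P p q h κ none then (1 : ℝ) else 0)) = 0 := by
    rw [if_neg, mul_zero, mul_zero]
    rintro ⟨u, h1, -⟩
    simp at h1
  rw [h2, zero_add]
  refine sum_congr rfl fun u _ => ?_
  by_cases hc : P.EE p q h κ u
  · rw [if_pos hc, if_pos ⟨u, rfl, hc⟩, mul_one]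
  · rw [if_neg hc, if_neg, mul_zero, mul_zero]
    rintro ⟨u', h1, h2⟩
    simp only [Option.some.injEq] at h1
    subst h1
    exact hc h2

/-- the count for a fixed `s` and fixed labels -/
theorem ex_count (hLabels : StLabels) (hCount : StCount) (P : Sys k N A B U) (p : A → ℝ)
    (q : B → ℝ) (η h : ℝ) (hW : World P p q η) (hk : 1 ≤ k) (hh : 0 < h) {L : ℕ} (s : A)
    (κ : Fin L → Option U) (hκ : ∀ a w, κ a = some w → w ∈ P.S s) :
    (open Classical in ∑ l : Fin L, ((∑ a : Fin L, if a < l then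
        (if exGood P p q h s (κ a) (κ l) then (1 : ℝ) else 0) else 0)
      - (∑ a : Fin L, ∑ a' : Fin L, if a < a' ∧ a' < l then
        (if exColl P p q h (κ a) (κ a') (κ l) then (1 : ℝ) else 0) else 0)
      - (l : ℝ) * (if exE P p q h (fun a : Fin l.val =>
          κ (Fin.castLE (Nat.succ_le_of_lt l.isLt) a.castSucc)) (κ l) then (1 : ℝ) else 0)))
      ≤ k := by
  classical
  obtain ⟨-, -, -, hlab, -⟩ := hLabels P p q η h hW hk hh
  set good : Fin L → Fin L → Prop := fun a l => exGood P p q h s (κ a) (κ l) with hgood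
  set coll : Fin L → Fin L → Fin L → Prop := fun a a' l => exColl P p q h (κ a) (κ a') (κ l)
    with hcoll
  set E : Fin L → Prop := fun l => exE P p q h (fun a : Fin l.val =>
          κ (Fin.castLE (Nat.succ_le_of_lt l.isLt) a.castSucc)) (κ l) with hE
  have hbex : ∀ a l, ∃ b : Fin k, good a l → ∀ w u, κ a = some w → κ l = some u →
      (b, P.x s b) ∈ P.J' p q h w u := by
    intro a l
    by_cases hg : good a l
    · obtain ⟨w, u, h1, h2, h3, h4, h5⟩ := hg
      obtain ⟨b, hb⟩ := hlab w u s h3 (hκ a w h1) (hκ l u h2)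
      refine ⟨b, fun _ w' u' h6 h7 => ?_⟩
      have e1 : w' = w := by rw [h1] at h6; simpa using h6.symm
      have e2 : u' = u := by rw [h2] at h7; simpa using h7.symm
      subst e1 e2
      unfold Sys.J'
      rw [mem_sdiff, mem_union]
      refine ⟨hb, ?_⟩
      rintro (h8 | h8)
      · exact h4 ⟨b, h8⟩
      · exact h5 ⟨b, h8⟩
    · exact ⟨⟨0, hk⟩, fun h' => absurd h' hg⟩
  choose b hb using hbex
  have hmain := hCount k L good b coll E ?_ ?_
  · refine le_trans (le_of_eq ?_) hmain
    refine sum_congr rfl fun l _ => ?_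
    congr 1
    · congr 1
      · rw [card_filter]
        push_cast
        refine sum_congr rfl fun a _ => ?_
        by_cases h1 : a < l <;> simp [h1, hgood]
      · rw [card_filter]
        push_cast
        rw [Fintype.sum_prod_type]
        refine sum_congr rfl fun a _ => sum_congr rfl fun a' _ => ?_
        by_cases h1 : a < a' <;> by_cases h2 : a' < l <;> simp [h1, h2, hcoll]
    · by_cases h1 : E l
      · rw [if_pos h1, if_pos h1, mul_one]
      · rw [if_neg h1, if_neg h1, mul_zero]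
  · intro a a' l h1 h2 hg hg' hbb
    obtain ⟨w1, u, e1, e2, h3, -, -⟩ := id hg
    obtain ⟨w2, u', e3, e4, h4, -, -⟩ := id hg'
    have e5 : u' = u := by rw [e2] at e4; simpa using e4.symm
    subst e5
    refine ⟨w1, w2, u', e1, e3, e2, h3, h4, ?_⟩
    refine ⟨(b a l, P.x s (b a l)), mem_inter.mpr ⟨hb a l hg w1 u' e1 e2, ?_⟩⟩
    rw [hbb]
    exact hb a' l hg' w2 u' e3 e4
  · intro a l a' l' h1 h2 h3 hg hg' hbb
    obtain ⟨w, u, e1, e2, h4, -, -⟩ := id hg
    obtain ⟨w', w'', e3, e4, h5, -, -⟩ := id hg'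
    refine ⟨u, e2, ⟨a.val, h1⟩, w, e1, h4, ⟨a'.val, lt_trans h2 h3⟩, ⟨l'.val, h3⟩, w', w'', ?_,
      e3, e4, h5, ?_⟩
    · exact h2
    · refine ⟨(b a l, P.x s (b a l)), mem_inter.mpr ⟨hb a l hg w u e1 e2, ?_⟩⟩
      rw [hbb]
      exact hb a' l' hg' w' w'' e3 e4

theorem ex_cond (hBasic : StBasic) (hLabels : StLabels) (hCount : StCount) (hMarg : StMarg)
    (P : Sys k N A B U) (p : A → ℝ)
    (q : B → ℝ) (η h : ℝ) (hW : World P p q η) (hk : 1 ≤ k) (hh : 0 < h) (L : ℕ) (s : A) :
    ∑ l : Fin L, ((l : ℝ) * exG P p q h s - (l : ℝ) * (l - 1) / 2 * exC P p q h s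
      - (l : ℝ) * exEl P p q h s l) ≤ k := by
  classical
  obtain ⟨hf, -⟩ := hBasic P p q η hW
  set ω := P.om q s with hω
  have hω1 : ∑ κ, ω κ = 1 := hf.om1 s
  have hω0 : ∀ κ, 0 ≤ ω κ := hf.om0 s
  have e1 : ∑ l : Fin L, ((l : ℝ) * exG P p q h s - (l : ℝ) * (l - 1) / 2 * exC P p q h s
      - (l : ℝ) * exEl P p q h s l) =
      ∑ κ : Fin L → Option U, (∏ i, ω (κ i)) * (∑ l : Fin L, ((∑ a : Fin L, if a < l then
        (if exGood P p q h s (κ a) (κ l) then (1 : ℝ) else 0) else 0)
      - (∑ a : Fin L, ∑ a' : Fin L, if a < a' ∧ a' < l then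
        (if exColl P p q h (κ a) (κ a') (κ l) then (1 : ℝ) else 0) else 0)
      - (l : ℝ) * (if exE P p q h (fun a : Fin l.val =>
          κ (Fin.castLE (Nat.succ_le_of_lt l.isLt) a.castSucc)) (κ l) then (1 : ℝ) else 0))) := by
    simp only [mul_sum (univ : Finset (Fin L))]
    rw [sum_comm]
    refine sum_congr rfl fun l _ => ?_
    simp only [mul_sub, sum_sub_distrib]
    congr 1
    · congr 1
      · simp only [mul_sum]
        rw [sum_comm]
        rw [← ex_card_lt]
        refine sum_congr rfl fun a _ => ?_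
        by_cases h1 : a < l
        · simp only [h1, if_true]
          rw [ex_marg_two hMarg ω hω1 a l (ne_of_lt h1)
            (fun o o' => if exGood P p q h s o o' then 1 else 0)]
          rfl
        · simp only [h1, if_false, mul_zero, sum_const_zero]
      · simp only [mul_sum]
        rw [sum_comm]
        have h2 : ∀ a : Fin L, ∑ κ : Fin L → Option U, ∑ a' : Fin L, (∏ i, ω (κ i)) *
            (if a < a' ∧ a' < l then
              (if exColl P p q h (κ a) (κ a') (κ l) then (1 : ℝ) else 0) else 0) =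
            ∑ a' : Fin L, if a < a' ∧ a' < l then exC P p q h s else 0 := by
          intro a
          rw [sum_comm]
          refine sum_congr rfl fun a' _ => ?_
          by_cases h1 : a < a' ∧ a' < l
          · simp only [h1, and_self, if_true]
            rw [ex_marg_three hMarg ω hω1 a a' l (ne_of_lt h1.1) (ne_of_lt (h1.1.trans h1.2))
              (ne_of_lt h1.2) (fun o o' o'' => if exColl P p q h o o' o'' then 1 else 0)]
            rfl
          · simp only [h1, if_false, mul_zero, sum_const_zero]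
        simp only [h2]
        rw [sum_comm]
        have h3 : ∀ a' : Fin L, ∑ a : Fin L, (if a < a' ∧ a' < l then exC P p q h s else 0) =
            (if a' < l then (a' : ℝ) else 0) * exC P p q h s := by
          intro a'
          by_cases h1 : a' < l
          · simp only [h1, and_true, if_true]
            rw [ex_card_lt]
          · simp [h1]
        simp only [h3]
        rw [← sum_mul, ex_sum_val]
        ring
    · have h4 : ∀ κ : Fin L → Option U, (∏ i, ω (κ i)) * ((l : ℝ) *
          (if exE P p q h (fun a : Fin l.val =>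
            κ (Fin.castLE (Nat.succ_le_of_lt l.isLt) a.castSucc)) (κ l) then (1 : ℝ) else 0)) =
          (l : ℝ) * ((∏ i, ω (κ i)) *
          (if exE P p q h (fun a : Fin l.val =>
            κ (Fin.castLE (Nat.succ_le_of_lt l.isLt) a.castSucc)) (κ l) then (1 : ℝ) else 0)) := by
        intro κ; ring
      simp only [h4]
      rw [← mul_sum, ex_marg_last hMarg ω hω1 l (fun κ' o => if exE P p q h κ' o then 1 else 0)]
      rfl
  rw [e1]
  calc _ ≤ ∑ κ : Fin L → Option U, (∏ i, ω (κ i)) * (k : ℝ) := by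
        refine sum_le_sum fun κ _ => ?_
        by_cases hκ : ∀ a w, κ a = some w → w ∈ P.S s
        · exact mul_le_mul_of_nonneg_left
            (ex_count hLabels hCount P p q η h hW hk hh s κ hκ)
            (prod_nonneg fun i _ => hω0 _)
        · push Not at hκ
          obtain ⟨a, w, h1, h2⟩ := hκ
          have h3 : ω (κ a) = 0 := by
            rw [h1]
            have h4 := hf.omle s w
            rw [if_neg h2] at h4
            exact le_antisymm h4 (hω0 _)
          have h5 : ∏ i, ω (κ i) = 0 := prod_eq_zero (mem_univ a) h3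
          rw [h5, zero_mul, zero_mul]
    _ = k := by rw [← sum_mul, ex_total hMarg ω hω1, one_mul]

end

theorem stExp (hBasic : StBasic) (hLabels : StLabels) (hCount : StCount) (hMarg : StMarg) :
    StExp := by
  intro k N A B U _ _ _ _ P p q η h hW hk hh L
  have h1 : ∑ l ∈ range L, ((l : ℝ) * P.pGood p q h - (l : ℝ) * (l - 1) / 2 * P.pColl p q h
      - (l : ℝ) * P.pE p q h l) =
      ∑ s, p s * ∑ l : Fin L, ((l : ℝ) * exG P p q h s -
        (l : ℝ) * (l - 1) / 2 * exC P p q h s - (l : ℝ) * exEl P p q h s l) := by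
    rw [Finset.sum_range]
    simp only [mul_sum]
    rw [sum_comm]
    refine sum_congr rfl fun l _ => ?_
    rw [ex_pGood, ex_pColl, ex_pE]
    simp only [mul_sub, sum_sub_distrib, mul_sum]
    congr 1
    · congr 1
      · refine sum_congr rfl fun s _ => ?_
        ring
      · refine sum_congr rfl fun s _ => ?_
        ring
    · refine sum_congr rfl fun s _ => ?_
      ring
  rw [h1]
  calc _ ≤ ∑ s, p s * (k : ℝ) := by
        refine sum_le_sum fun s _ => ?_
        exact mul_le_mul_of_nonneg_left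
          (ex_cond hBasic hLabels hCount hMarg P p q η h hW hk hh L s) (hW.p0 s)
    _ = k := by rw [← sum_mul, hW.p1, one_mul]

end MP668cf7.Sep
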