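import Pool.Agent.Lib.MP_668cf7_lc.Sep.Spec

/-!
# Module 9: heavy hits
-/

namespace MP668cf7.Sep

open Finset

/-- `StHit`. -/
theorem stHit (hB : StBasic) : StHit := by
  intro k N A B U _ _ _ _ P p q η h hW hh
  classical
  obtain ⟨F, -⟩ := hB P p q η hW
  set iota : U → ℝ := fun w => ∑ s, ∑ t, if w ∈ P.S s ∧ w ∈ P.T t ∧ Meet (P.x s) (P.y t) then
    p s * q t else 0 with hiota
  have hiota0 : ∀ w, 0 ≤ iota w := fun w => Finset.sum_nonneg fun s _ =>
    Finset.sum_nonneg fun t _ => by
      split_ifs
      · exact mul_nonneg (hW.p0 s) (hW.q0 t)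
      · exact le_refl _
  have hper : ∀ w, (∑ s, if P.Hit q h s w then p s * P.om q s (some w) else 0) ≤
      (k : ℝ) / h ^ 2 * iota w := by
    intro w
    have hb0 := F.bv0 w
    rcases hb0.eq_or_lt with hb | hb
    · have : ∀ s, (if P.Hit q h s w then p s * P.om q s (some w) else 0) = 0 := by
        intro s
        have h1 := F.omle s w
        have h2 := F.om0 s (some w)
        have h3 : P.om q s (some w) = 0 := by
          apply le_antisymm _ h2
          refine h1.trans ?_
          split_ifs
          · exact hb.symm.le
          · exact le_refl _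
        rw [h3]
        simp
      rw [Finset.sum_congr rfl (fun s _ => this s)]
      simp only [Finset.sum_const_zero]
      exact mul_nonneg (by positivity) (hiota0 w)
    · -- the number of heavy labels
      have hcard : ((P.Hv q h w).card : ℝ) ≤ (k : ℝ) / h := by
        have h1 : ((P.Hv q h w).card : ℝ) * (h * P.bv q w) ≤
            ∑ z ∈ P.Hv q h w, ∑ t, if P.y t z.1 = z.2 ∧ w ∈ P.T t then q t else 0 := by
          rw [← nsmul_eq_mul]
          apply Finset.card_nsmul_le_sum
          intro z hz
          exact (Finset.mem_filter.1 hz).2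
        have h2 : ∑ z ∈ P.Hv q h w, (∑ t, if P.y t z.1 = z.2 ∧ w ∈ P.T t then q t else 0) ≤
            ∑ z : Fin k × Fin N, ∑ t, if P.y t z.1 = z.2 ∧ w ∈ P.T t then q t else 0 := by
          apply Finset.sum_le_sum_of_subset_of_nonneg (Finset.subset_univ _)
          intro z _ _
          exact Finset.sum_nonneg fun t _ => by
            split_ifs
            · exact hW.q0 t
            · exact le_refl _
        have h3 : ∑ z : Fin k × Fin N, (∑ t, if P.y t z.1 = z.2 ∧ w ∈ P.T t then q t else 0) =
            k * P.bv q w := by
          rw [Finset.sum_comm]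
          have : ∀ t, ∑ z : Fin k × Fin N, (if P.y t z.1 = z.2 ∧ w ∈ P.T t then q t else 0) =
              k * (if w ∈ P.T t then q t else 0) := by
            intro t
            rw [Fintype.sum_prod_type]
            by_cases hw : w ∈ P.T t
            · simp [hw]
            · simp [hw]
          rw [Finset.sum_congr rfl (fun t _ => this t), ← Finset.mul_sum]
          rfl
        rw [le_div_iff₀ hh]
        have h4 : ((P.Hv q h w).card : ℝ) * h * P.bv q w ≤ k * P.bv q w := by
          calc ((P.Hv q h w).card : ℝ) * h * P.bv q w
              = ((P.Hv q h w).card : ℝ) * (h * P.bv q w) := by ring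
            _ ≤ k * P.bv q w := (h1.trans h2).trans_eq h3
        exact le_of_mul_le_mul_right h4 hb
      -- one heavy label
      have hlab : ∀ z ∈ P.Hv q h w,
          P.bv q w * (∑ s, if P.x s z.1 = z.2 ∧ w ∈ P.S s then p s else 0) ≤ iota w / h := by
        intro z hz
        have hz2 := (Finset.mem_filter.1 hz).2
        rw [le_div_iff₀ hh]
        have hX0 : 0 ≤ ∑ s, if P.x s z.1 = z.2 ∧ w ∈ P.S s then p s else 0 :=
          Finset.sum_nonneg fun s _ => by
            split_ifs
            · exact hW.p0 s
            · exact le_refl _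
        calc P.bv q w * (∑ s, if P.x s z.1 = z.2 ∧ w ∈ P.S s then p s else 0) * h
            = (∑ s, if P.x s z.1 = z.2 ∧ w ∈ P.S s then p s else 0) * (h * P.bv q w) := by ring
          _ ≤ (∑ s, if P.x s z.1 = z.2 ∧ w ∈ P.S s then p s else 0) *
              (∑ t, if P.y t z.1 = z.2 ∧ w ∈ P.T t then q t else 0) :=
              mul_le_mul_of_nonneg_left hz2 hX0
          _ = ∑ s, ∑ t, (if P.x s z.1 = z.2 ∧ w ∈ P.S s then p s else 0) *
              (if P.y t z.1 = z.2 ∧ w ∈ P.T t then q t else 0) := by
              rw [Finset.sum_mul_sum]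
          _ ≤ iota w := by
              apply Finset.sum_le_sum
              intro s _
              apply Finset.sum_le_sum
              intro t _
              by_cases h1 : P.x s z.1 = z.2 ∧ w ∈ P.S s
              · by_cases h2 : P.y t z.1 = z.2 ∧ w ∈ P.T t
                · have hm : Meet (P.x s) (P.y t) := ⟨z.1, h1.1.trans h2.1.symm⟩
                  rw [if_pos h1, if_pos h2, if_pos ⟨h1.2, h2.2, hm⟩]
                · rw [if_neg h2, mul_zero]
                  split_ifs
                  · exact mul_nonneg (hW.p0 s) (hW.q0 t)
                  · exact le_refl _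
              · rw [if_neg h1, zero_mul]
                split_ifs
                · exact mul_nonneg (hW.p0 s) (hW.q0 t)
                · exact le_refl _
      -- sum over the points
      have hsum : (∑ s, if P.Hit q h s w then p s * P.om q s (some w) else 0) ≤
          ∑ z ∈ P.Hv q h w,
            P.bv q w * (∑ s, if P.x s z.1 = z.2 ∧ w ∈ P.S s then p s else 0) := by
        have e : ∑ z ∈ P.Hv q h w,
            P.bv q w * (∑ s, if P.x s z.1 = z.2 ∧ w ∈ P.S s then p s else 0) =
            ∑ s, ∑ z ∈ P.Hv q h w,
              P.bv q w * (if P.x s z.1 = z.2 ∧ w ∈ P.S s then p s else 0) := by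
          rw [Finset.sum_comm]
          apply Finset.sum_congr rfl
          intro z _
          rw [Finset.mul_sum]
        rw [e]
        apply Finset.sum_le_sum
        intro s _
        have hnn : ∀ z ∈ P.Hv q h w,
            0 ≤ P.bv q w * (if P.x s z.1 = z.2 ∧ w ∈ P.S s then p s else 0) := by
          intro z _
          apply mul_nonneg hb.le
          split_ifs
          · exact hW.p0 s
          · exact le_refl _
        split_ifs with hhit
        · obtain ⟨b, hb'⟩ := hhit
          by_cases hwS : w ∈ P.S s
          · have h1 := F.omle s w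
            rw [if_pos hwS] at h1
            calc p s * P.om q s (some w) ≤ p s * P.bv q w :=
                  mul_le_mul_of_nonneg_left h1 (hW.p0 s)
              _ = P.bv q w * (if P.x s (b, P.x s b).1 = (b, P.x s b).2 ∧ w ∈ P.S s
                  then p s else 0) := by
                  rw [if_pos ⟨rfl, hwS⟩, mul_comm]
              _ ≤ _ := Finset.single_le_sum
                  (f := fun z : Fin k × Fin N =>
                    P.bv q w * (if P.x s z.1 = z.2 ∧ w ∈ P.S s then p s else 0)) hnn hb'
          · have h1 := F.omle s w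
            rw [if_neg hwS] at h1
            have h2 : P.om q s (some w) = 0 := le_antisymm h1 (F.om0 s _)
            rw [h2, mul_zero]
            exact Finset.sum_nonneg hnn
        · exact Finset.sum_nonneg hnn
      calc (∑ s, if P.Hit q h s w then p s * P.om q s (some w) else 0)
          ≤ ∑ z ∈ P.Hv q h w,
            P.bv q w * (∑ s, if P.x s z.1 = z.2 ∧ w ∈ P.S s then p s else 0) := hsum
        _ ≤ ∑ z ∈ P.Hv q h w, iota w / h := Finset.sum_le_sum hlab
        _ = ((P.Hv q h w).card : ℝ) * (iota w / h) := by
            rw [Finset.sum_const, nsmul_eq_mul]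
        _ ≤ ((k : ℝ) / h) * (iota w / h) :=
            mul_le_mul_of_nonneg_right hcard (div_nonneg (hiota0 w) hh.le)
        _ = (k : ℝ) / h ^ 2 * iota w := by
            field_simp
  have e : P.pHit p q h =
      ∑ w, ∑ s, if P.Hit q h s w then p s * P.om q s (some w) else 0 := by
    unfold Sys.pHit
    rw [Finset.sum_comm]
  rw [e]
  calc (∑ w, ∑ s, if P.Hit q h s w then p s * P.om q s (some w) else 0)
      ≤ ∑ w, (k : ℝ) / h ^ 2 * iota w := Finset.sum_le_sum fun w _ => hper w
    _ = (k : ℝ) / h ^ 2 * ∑ w, iota w := by rw [Finset.mul_sum]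
    _ ≤ (k : ℝ) / h ^ 2 * η := mul_le_mul_of_nonneg_left F.iota (by positivity)

end MP668cf7.Sep
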