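import Pool.Agent.Lib.MP_668cf7_lc.Sep.Spec

/-!
# Module 17: induction over rectangles
-/

namespace MP668cf7.Sep

open Finset

section

variable {k N : ℕ} {A B U : Type} [DecidableEq U]

theorem ind_Zr_nonneg (P : Sys k N A B U) (A' : Finset A) (B' : Finset B) : 0 ≤ P.Zr A' B' := by
  unfold Sys.Zr
  exact sum_nonneg fun s _ => sum_nonneg fun t _ => Nat.cast_nonneg _

theorem ind_Yr_nonneg (P : Sys k N A B U) (A' : Finset A) (B' : Finset B) : 0 ≤ P.Yr A' B' := by
  unfold Sys.Yr
  refine sum_nonneg fun s _ => sum_nonneg fun t _ => ?_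
  split_ifs
  · positivity
  · exact le_refl _

theorem ind_Gr_nonneg (P : Sys k N A B U) (A' : Finset A) (B' : Finset B) : 0 ≤ P.Gr A' B' := by
  unfold Sys.Gr
  refine sum_nonneg fun s _ => sum_nonneg fun t _ => ?_
  split_ifs <;> norm_num

theorem ind_al_nonneg (P : Sys k N A B U) (A' : Finset A) (u : U) : 0 ≤ P.al A' u :=
  Nat.cast_nonneg _

theorem ind_al_le (P : Sys k N A B U) (A' : Finset A) (u : U) : P.al A' u ≤ A'.card := by
  unfold Sys.al
  exact_mod_cast card_filter_le _ _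

theorem ind_Er_nonneg [Fintype U] (P : Sys k N A B U) (A' : Finset A) (B' : Finset B) :
    0 ≤ P.Er A' B' := by
  unfold Sys.Er
  refine sum_nonneg fun u _ => ?_
  have h1 := ind_al_nonneg P A' u
  have h2 := ind_al_nonneg P.swap B' u
  have h3 := ind_al_le P A' u
  have h4 := ind_al_le P.swap B' u
  rcases eq_or_lt_of_le (mul_nonneg h1 h2) with h | h
  · rw [← h, zero_mul]
  · apply mul_nonneg h.le
    apply Real.log_nonneg
    rw [one_le_div h]
    exact mul_le_mul h3 h4 h2 (Nat.cast_nonneg _)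

theorem ind_Zr_le (P : Sys k N A B U) (A' : Finset A) (B' : Finset B) :
    P.Zr A' B' ≤ (A'.card : ℝ) * B'.card + P.Yr A' B' := by
  unfold Sys.Zr Sys.Yr
  have h : (A'.card : ℝ) * B'.card = ∑ s ∈ A', ∑ t ∈ B', (1 : ℝ) := by
    simp [sum_const]
  rw [h, ← sum_add_distrib]
  refine sum_le_sum fun s _ => ?_
  rw [← sum_add_distrib]
  refine sum_le_sum fun t _ => ?_
  split_ifs with hm
  · linarith
  · rw [P.one s t hm]; norm_num

theorem ind_Zr_swap (P : Sys k N A B U) (A' : Finset A) (B' : Finset B) :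
    P.swap.Zr B' A' = P.Zr A' B' := by
  unfold Sys.Zr
  rw [sum_comm]
  refine sum_congr rfl fun s _ => sum_congr rfl fun t _ => ?_
  show (((P.T t) ∩ (P.S s)).card : ℝ) = _
  rw [inter_comm]

theorem ind_Yr_swap (P : Sys k N A B U) (A' : Finset A) (B' : Finset B) :
    P.swap.Yr B' A' = P.Yr A' B' := by
  unfold Sys.Yr
  rw [sum_comm]
  refine sum_congr rfl fun s _ => sum_congr rfl fun t _ => ?_
  show (if Meet (P.y t) (P.x s) then (((P.T t) ∩ (P.S s)).card : ℝ) + 1 else 0) = _
  rw [inter_comm]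
  simp only [meet_comm (P.y t) (P.x s)]

theorem ind_Gr_swap (P : Sys k N A B U) (A' : Finset A) (B' : Finset B) :
    P.swap.Gr B' A' = P.Gr A' B' := by
  unfold Sys.Gr
  rw [sum_comm]
  refine sum_congr rfl fun s _ => sum_congr rfl fun t _ => ?_
  show (if Meet (P.y t) (P.x s) ∧ ((P.T t) ∩ (P.S s)).Nonempty then (1 : ℝ) else 0) = _
  rw [inter_comm]
  simp only [meet_comm (P.y t) (P.x s)]

theorem ind_Er_swap [Fintype U] (P : Sys k N A B U) (A' : Finset A) (B' : Finset B) :
    P.swap.Er B' A' = P.Er A' B' := by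
  unfold Sys.Er
  refine sum_congr rfl fun u _ => ?_
  rw [Sys.swap_swap, mul_comm (P.swap.al B' u) (P.al A' u), mul_comm (B'.card : ℝ)]

theorem ind_Psi_swap [Fintype U] (P : Sys k N A B U) (K nR n : ℕ) (A' : Finset A)
    (B' : Finset B) : P.swap.Psi K nR n B' A' = P.Psi K nR n A' B' := by
  unfold Sys.Psi
  rw [ind_Zr_swap, ind_Yr_swap, ind_Er_swap]

open scoped Classical in
theorem ind_sum_fiber {κ : Type} [Fintype κ] [DecidableEq κ] (A' : Finset A) (φ : A → κ)
    (f : A → ℝ) : ∑ i, ∑ s ∈ A'.filter (fun s => φ s = i), f s = ∑ s ∈ A', f s := by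
  rw [← sum_fiberwise_of_maps_to (s := A') (t := univ) (g := φ) (fun _ _ => mem_univ _) f]

theorem ind_Zr_fiber (P : Sys k N A B U) {κ : Type} [Fintype κ] [DecidableEq κ]
    (A' : Finset A) (B' : Finset B) (φ : A → κ) :
    ∑ i, P.Zr (A'.filter fun s => φ s = i) B' = P.Zr A' B' := by
  unfold Sys.Zr
  exact ind_sum_fiber A' φ _

theorem ind_Yr_fiber (P : Sys k N A B U) {κ : Type} [Fintype κ] [DecidableEq κ]
    (A' : Finset A) (B' : Finset B) (φ : A → κ) :
    ∑ i, P.Yr (A'.filter fun s => φ s = i) B' = P.Yr A' B' := by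
  unfold Sys.Yr
  exact ind_sum_fiber A' φ _

theorem ind_Gr_fiber (P : Sys k N A B U) {κ : Type} [Fintype κ] [DecidableEq κ]
    (A' : Finset A) (B' : Finset B) (φ : A → κ) :
    ∑ i, P.Gr (A'.filter fun s => φ s = i) B' = P.Gr A' B' := by
  unfold Sys.Gr
  exact ind_sum_fiber A' φ _

/-- One revealing step. -/
theorem ind_step (hAvg : StAvg) (hDrop : StDrop) [Fintype A] [Fintype B] [Fintype U] (K : ℕ)
    (hK : 10000 ≤ K) (P : Sys k N A B U) (ε err : ℝ) (hε : 0 ≤ ε) (nR n l : ℕ)
    (hl : 1 ≤ l) (hln : l ≤ n) (A' : Finset A) (B' : Finset B) (hA : A'.Nonempty)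
    (hB : B'.Nonempty)
    (hclean : (K : ℝ) ^ 28 * P.Yr A' B' ≤ (A'.card : ℝ) * B'.card)
    (hg : (l : ℝ) / (40 * K) ≤ P.gh (unif A') (unif B') l)
    (ih : ∀ A'' : Finset A, (85 / 100 : ℝ) * ε * P.Psi K nR (n - l) A'' B' -
      err * ((Fintype.card U : ℝ) + 1) ^ (n - l) ≤ P.Gr A'' B') :
    (85 / 100 : ℝ) * ε * P.Psi K nR n A' B' - err * ((Fintype.card U : ℝ) + 1) ^ n
      ≤ P.Gr A' B' := by
  classical
  have hA0 : (0 : ℝ) < A'.card := by exact_mod_cast hA.card_pos
  have hB0 : (0 : ℝ) < B'.card := by exact_mod_cast hB.card_pos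
  have hK0 : (0 : ℝ) < K := by
    have : 0 < K := by omega
    exact_mod_cast this
  have hp0 : ∀ s : A, 0 ≤ unif A' s := by
    intro s
    unfold unif
    split_ifs <;> positivity
  have hq0 : ∀ t : B, 0 ≤ unif B' t := by
    intro t
    unfold unif
    split_ifs <;> positivity
  have hq1 : ∑ t, unif B' t = 1 := by
    unfold unif
    rw [← sum_filter]
    simp only [filter_mem_eq_inter, univ_inter, sum_const, nsmul_eq_mul]
    field_simp
  obtain ⟨τ, hτ⟩ := hAvg P (unif A') (unif B') hp0 hq0 hq1 l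
  set φ : A → (Fin l → Option U) := fun s a => P.lab s (τ a) with hφ
  have hdrop := hDrop P A' B' hA hB (Fin l → Option U) φ
  set W : ℝ := (A'.card : ℝ) * B'.card with hW
  have hW0 : 0 < W := mul_pos hA0 hB0
  have hgphi : (l : ℝ) / (40 * K) ≤ P.gphi (unif A') (unif B') φ := hg.trans hτ
  -- sum of the potentials
  have hPsi : P.Psi K nR n A' B' ≤
      ∑ i, P.Psi K nR (n - l) (A'.filter fun s => φ s = i) B' := by
    have hsum : ∑ i, P.Psi K nR (n - l) (A'.filter fun s => φ s = i) B' =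
        ((((n - l : ℕ) : ℝ) - 2 * K) * P.Zr A' B' - 80 * K * (P.Er A' B' -
          W * P.gphi (unif A') (unif B') φ) -
          2 * ((n - l : ℕ) : ℝ) * (K : ℝ) ^ 28 * P.Yr A' B') / nR := by
      unfold Sys.Psi
      rw [← sum_div]
      congr 1
      rw [sum_sub_distrib, sum_sub_distrib, ← mul_sum, ← mul_sum, ← mul_sum, ind_Zr_fiber,
        ind_Yr_fiber, hdrop]
    rw [hsum]
    unfold Sys.Psi
    apply div_le_div_of_nonneg_right _ (Nat.cast_nonneg _)
    rw [Nat.cast_sub hln]
    have hZ := ind_Zr_le P A' B'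
    have hY := ind_Yr_nonneg P A' B'
    have hK28 : (1 : ℝ) ≤ (K : ℝ) ^ 28 := by
      apply one_le_pow₀
      have : 1 ≤ K := by omega
      exact_mod_cast this
    have hl0 : (0 : ℝ) ≤ l := Nat.cast_nonneg _
    have h1 : 2 * (l : ℝ) * W ≤ 80 * K * (W * P.gphi (unif A') (unif B') φ) := by
      have : 80 * K * (W * ((l : ℝ) / (40 * K))) = 2 * l * W := by
        field_simp
        norm_num
      rw [← this]
      have h2 : W * ((l : ℝ) / (40 * K)) ≤ W * P.gphi (unif A') (unif B') φ :=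
        mul_le_mul_of_nonneg_left hgphi hW0.le
      exact mul_le_mul_of_nonneg_left h2 (by positivity)
    have h3 : P.Yr A' B' ≤ (K : ℝ) ^ 28 * P.Yr A' B' := le_mul_of_one_le_left hY hK28
    have h4 : (l : ℝ) * P.Zr A' B' ≤ l * (W + (K : ℝ) ^ 28 * P.Yr A' B') :=
      mul_le_mul_of_nonneg_left (by linarith) hl0
    have h5 : 0 ≤ (l : ℝ) * W := mul_nonneg hl0 hW0.le
    have h6 : 0 ≤ (l : ℝ) * ((K : ℝ) ^ 28 * P.Yr A' B') :=
      mul_nonneg hl0 (mul_nonneg (by positivity) hY)
    nlinarith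
  -- sum of the induction hypotheses
  have hih := sum_le_sum fun i (_ : i ∈ (univ : Finset (Fin l → Option U))) =>
    ih (A'.filter fun s => φ s = i)
  rw [ind_Gr_fiber, sum_sub_distrib, ← mul_sum] at hih
  have hcard : ∑ _i : (Fin l → Option U), err * ((Fintype.card U : ℝ) + 1) ^ (n - l) =
      err * ((Fintype.card U : ℝ) + 1) ^ n := by
    rw [sum_const, card_univ, Fintype.card_fun, Fintype.card_fin, Fintype.card_option,
      nsmul_eq_mul]
    push_cast
    have : n = l + (n - l) := by omega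
    conv_rhs => rw [this, pow_add]
    ring
  rw [hcard] at hih
  have h7 : (85 / 100 : ℝ) * ε * P.Psi K nR n A' B' ≤ (85 / 100 : ℝ) * ε *
      ∑ i, P.Psi K nR (n - l) (A'.filter fun s => φ s = i) B' :=
    mul_le_mul_of_nonneg_left hPsi (by positivity)
  linarith

end

theorem stInduct (hWorld : StWorld) (hAvg : StAvg) (hDrop : StDrop) : StInduct := by
  intro K hK N A B U _ _ _ _ P ε err hε herr hM nR n
  classical
  induction n using Nat.strong_induction_on with
  | _ n ih =>
  intro hn A' B'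
  have hZ0 := ind_Zr_nonneg P A' B'
  have hY0 := ind_Yr_nonneg P A' B'
  have hE0 := ind_Er_nonneg P A' B'
  have hG0 := ind_Gr_nonneg P A' B'
  have hZ := ind_Zr_le P A' B'
  have hK0 : (0 : ℝ) < K := by
    have : 0 < K := by omega
    exact_mod_cast this
  have hK28 : (1 : ℝ) ≤ (K : ℝ) ^ 28 := by
    apply one_le_pow₀
    have : 1 ≤ K := by omega
    exact_mod_cast this
  have hU1 : (1 : ℝ) ≤ ((Fintype.card U : ℝ) + 1) ^ n := by
    apply one_le_pow₀
    have : (0 : ℝ) ≤ Fintype.card U := Nat.cast_nonneg _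
    linarith
  have herrn : 0 ≤ err * ((Fintype.card U : ℝ) + 1) ^ n := by positivity
  have hneg : P.Psi K nR n A' B' ≤ 0 → (85 / 100 : ℝ) * ε * P.Psi K nR n A' B' -
      err * ((Fintype.card U : ℝ) + 1) ^ n ≤ P.Gr A' B' := by
    intro h
    have : (85 / 100 : ℝ) * ε * P.Psi K nR n A' B' ≤ 0 :=
      mul_nonpos_of_nonneg_of_nonpos (by positivity) h
    linarith
  have hn0 : (0 : ℝ) ≤ n := Nat.cast_nonneg _
  -- small n
  rcases Nat.lt_or_ge (2 * K) n with hn2 | hn2
  swap
  · apply hneg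
    unfold Sys.Psi
    apply div_nonpos_of_nonpos_of_nonneg _ (Nat.cast_nonneg _)
    have h1 : ((n : ℝ) - 2 * K) * P.Zr A' B' ≤ 0 := by
      apply mul_nonpos_of_nonpos_of_nonneg _ hZ0
      have : (n : ℝ) ≤ 2 * K := by exact_mod_cast hn2
      linarith
    have h2 : 0 ≤ 80 * (K : ℝ) * P.Er A' B' := by positivity
    have h3 : 0 ≤ 2 * (n : ℝ) * (K : ℝ) ^ 28 * P.Yr A' B' := by positivity
    linarith
  set W : ℝ := (A'.card : ℝ) * B'.card with hW
  -- not clean
  rcases lt_or_ge W ((K : ℝ) ^ 28 * P.Yr A' B') with hcl | hcl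
  · apply hneg
    unfold Sys.Psi
    apply div_nonpos_of_nonpos_of_nonneg _ (Nat.cast_nonneg _)
    have h0 : ((n : ℝ) - 2 * K) * P.Zr A' B' ≤ n * P.Zr A' B' :=
      mul_le_mul_of_nonneg_right (by linarith) hZ0
    have h1 : (n : ℝ) * P.Zr A' B' ≤ n * (W + P.Yr A' B') := mul_le_mul_of_nonneg_left hZ hn0
    have h2 : (n : ℝ) * W ≤ n * ((K : ℝ) ^ 28 * P.Yr A' B') :=
      mul_le_mul_of_nonneg_left hcl.le hn0
    have h3 : (n : ℝ) * P.Yr A' B' ≤ n * ((K : ℝ) ^ 28 * P.Yr A' B') :=
      mul_le_mul_of_nonneg_left (le_mul_of_one_le_left hY0 hK28) hn0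
    have h4 : 0 ≤ 80 * (K : ℝ) * P.Er A' B' := by positivity
    nlinarith
  -- empty
  rcases A'.eq_empty_or_nonempty with hA | hA
  · apply hneg
    have h1 : P.Zr A' B' = 0 := by rw [hA]; unfold Sys.Zr; simp
    unfold Sys.Psi
    apply div_nonpos_of_nonpos_of_nonneg _ (Nat.cast_nonneg _)
    rw [h1]
    have h2 : 0 ≤ 80 * (K : ℝ) * P.Er A' B' := by positivity
    have h3 : 0 ≤ 2 * (n : ℝ) * (K : ℝ) ^ 28 * P.Yr A' B' := by positivity
    linarith
  rcases B'.eq_empty_or_nonempty with hB | hB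
  · apply hneg
    have h1 : P.Zr A' B' = 0 := by rw [hB]; unfold Sys.Zr; simp
    unfold Sys.Psi
    apply div_nonpos_of_nonpos_of_nonneg _ (Nat.cast_nonneg _)
    rw [h1]
    have h2 : 0 ≤ 80 * (K : ℝ) * P.Er A' B' := by positivity
    have h3 : 0 ≤ 2 * (n : ℝ) * (K : ℝ) ^ 28 * P.Yr A' B' := by positivity
    linarith
  have hA0 : (0 : ℝ) < A'.card := by exact_mod_cast hA.card_pos
  have hB0 : (0 : ℝ) < B'.card := by exact_mod_cast hB.card_pos
  have hW0 : 0 < W := mul_pos hA0 hB0
  -- the uniform weights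
  have hav : ∀ u, P.av (unif A') u = P.al A' u / A'.card := by
    intro u
    unfold Sys.av Sys.al unif
    have : ∀ s : A, (if u ∈ P.S s then (if s ∈ A' then 1 / (A'.card : ℝ) else 0) else 0) =
        if s ∈ A' ∧ u ∈ P.S s then 1 / (A'.card : ℝ) else 0 := by
      intro s
      by_cases h1 : u ∈ P.S s <;> by_cases h2 : s ∈ A' <;> simp [h1, h2]
    simp only [this]
    rw [← sum_filter, sum_const, nsmul_eq_mul]
    have h3 : (univ.filter fun s : A => s ∈ A' ∧ u ∈ P.S s) = A'.filter fun s => u ∈ P.S s := by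
      ext s; simp
    rw [h3]
    ring
  have hbv : ∀ u, P.bv (unif B') u = P.swap.al B' u / B'.card := by
    intro u
    unfold Sys.bv Sys.al unif
    have : ∀ t : B, (if u ∈ P.T t then (if t ∈ B' then 1 / (B'.card : ℝ) else 0) else 0) =
        if t ∈ B' ∧ u ∈ P.T t then 1 / (B'.card : ℝ) else 0 := by
      intro t
      by_cases h1 : u ∈ P.T t <;> by_cases h2 : t ∈ B' <;> simp [h1, h2]
    simp only [this]
    rw [← sum_filter, sum_const, nsmul_eq_mul]
    have h3 : (univ.filter fun t : B => t ∈ B' ∧ u ∈ P.T t) =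
        B'.filter fun t => u ∈ P.swap.S t := by
      ext t; simp [Sys.swap]
    rw [h3]
    ring
  by_cases hbig : ∃ u, (9 / 10 : ℝ) < P.cv (unif A') (unif B') u
  · -- a popular element
    obtain ⟨u, hu⟩ := hbig
    unfold Sys.cv at hu
    rw [hav, hbv] at hu
    set A1 := A'.filter fun s => u ∈ P.S s with hA1
    set B1 := B'.filter fun t => u ∈ P.T t with hB1
    have hal : P.al A' u = A1.card := rfl
    have hbl : P.swap.al B' u = B1.card := rfl
    rw [hal, hbl] at hu
    have hu' : (9 / 10 : ℝ) * W < (A1.card : ℝ) * B1.card := by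
      have h1 : (A1.card : ℝ) / A'.card * (B1.card / B'.card) =
          ((A1.card : ℝ) * B1.card) / W := by
        rw [hW]; field_simp
      rw [h1, lt_div_iff₀ hW0] at hu
      exact hu
    have hMr := hM A1 B1
    have hGr : P.Mr A1 B1 ≤ P.Gr A' B' := by
      unfold Sys.Mr Sys.Gr
      have h1 : ∀ s ∈ A1, ∀ t ∈ B1, (if Meet (P.x s) (P.y t) then (1 : ℝ) else 0) ≤
          if Meet (P.x s) (P.y t) ∧ (P.S s ∩ P.T t).Nonempty then (1 : ℝ) else 0 := by
        intro s hs t ht
        have h2 : (P.S s ∩ P.T t).Nonempty :=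
          ⟨u, mem_inter.mpr ⟨(mem_filter.mp hs).2, (mem_filter.mp ht).2⟩⟩
        by_cases hm : Meet (P.x s) (P.y t) <;> simp [hm, h2]
      calc _ ≤ ∑ s ∈ A1, ∑ t ∈ B1,
            if Meet (P.x s) (P.y t) ∧ (P.S s ∩ P.T t).Nonempty then (1 : ℝ) else 0 :=
            sum_le_sum fun s hs => sum_le_sum fun t ht => h1 s hs t ht
        _ ≤ ∑ s ∈ A1, ∑ t ∈ B',
            if Meet (P.x s) (P.y t) ∧ (P.S s ∩ P.T t).Nonempty then (1 : ℝ) else 0 := by
            refine sum_le_sum fun s _ => ?_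
            refine sum_le_sum_of_subset_of_nonneg (filter_subset _ _) fun t _ _ => ?_
            split_ifs <;> norm_num
        _ ≤ _ := by
            refine sum_le_sum_of_subset_of_nonneg (filter_subset _ _) fun s _ _ => ?_
            refine sum_nonneg fun t _ => ?_
            split_ifs <;> norm_num
    have hPsi : P.Psi K nR n A' B' ≤ (1 + 1 / 1000) * W := by
      unfold Sys.Psi
      have hnR : (0 : ℝ) < nR := by
        have : 0 < nR := by omega
        exact_mod_cast this
      rw [div_le_iff₀ hnR]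
      have h1 : ((n : ℝ) - 2 * K) * P.Zr A' B' ≤ n * P.Zr A' B' :=
        mul_le_mul_of_nonneg_right (by linarith) hZ0
      have h2 : 0 ≤ 80 * (K : ℝ) * P.Er A' B' := by positivity
      have h3 : 0 ≤ 2 * (n : ℝ) * (K : ℝ) ^ 28 * P.Yr A' B' := by positivity
      have hYs : P.Yr A' B' ≤ 1 / 1000 * W := by
        have h5 : (1000 : ℝ) ≤ (K : ℝ) ^ 28 := by
          have h6 : (1000 : ℝ) ≤ K := by
            have : 1000 ≤ K := by omega
            exact_mod_cast this
          calc (1000 : ℝ) ≤ K := h6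
            _ = (K : ℝ) ^ 1 := by ring
            _ ≤ (K : ℝ) ^ 28 := pow_le_pow_right₀ (by linarith) (by norm_num)
        have h7 : 1000 * P.Yr A' B' ≤ W :=
          (mul_le_mul_of_nonneg_right h5 hY0).trans hcl
        linarith
      have h4 : P.Zr A' B' ≤ (1 + 1 / 1000) * W := by linarith
      have h8 : (n : ℝ) ≤ nR := by exact_mod_cast hn
      have h9 : (n : ℝ) * P.Zr A' B' ≤ nR * ((1 + 1 / 1000) * W) :=
        mul_le_mul h8 h4 hZ0 hnR.le
      nlinarith
    have h10 : (85 / 100 : ℝ) * ε * P.Psi K nR n A' B' ≤ (85 / 100 : ℝ) * ε *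
        ((1 + 1 / 1000) * W) := mul_le_mul_of_nonneg_left hPsi (by positivity)
    have h11 : (95 / 100 : ℝ) * ε * ((9 / 10 : ℝ) * W) ≤
        (95 / 100 : ℝ) * ε * ((A1.card : ℝ) * B1.card) :=
      mul_le_mul_of_nonneg_left hu'.le (by positivity)
    have h12 : err ≤ err * ((Fintype.card U : ℝ) + 1) ^ n := le_mul_of_one_le_right herr hU1
    have h13 : 0 ≤ ε * W := mul_nonneg hε hW0.le
    nlinarith
  · -- apply the World Lemma
    push Not at hbig
    have hp0 : ∀ s : A, 0 ≤ unif A' s := by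
      intro s
      unfold unif
      split_ifs <;> positivity
    have hq0 : ∀ t : B, 0 ≤ unif B' t := by
      intro t
      unfold unif
      split_ifs <;> positivity
    have hp1 : ∑ s, unif A' s = 1 := by
      unfold unif
      rw [← sum_filter]
      simp only [filter_mem_eq_inter, univ_inter, sum_const, nsmul_eq_mul]
      field_simp
    have hq1 : ∑ t, unif B' t = 1 := by
      unfold unif
      rw [← sum_filter]
      simp only [filter_mem_eq_inter, univ_inter, sum_const, nsmul_eq_mul]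
      field_simp
    have hYW : ∑ s, ∑ t, (if Meet (P.x s) (P.y t) then
        unif A' s * unif B' t * (((P.S s ∩ P.T t).card : ℝ) + 1) else 0) =
        P.Yr A' B' / W := by
      have h1 : ∀ s t, (if Meet (P.x s) (P.y t) then
          unif A' s * unif B' t * (((P.S s ∩ P.T t).card : ℝ) + 1) else 0) =
          if s ∈ A' then (if t ∈ B' then ((if Meet (P.x s) (P.y t) then
            (((P.S s ∩ P.T t).card : ℝ) + 1) else 0) / W) else 0) else 0 := by
        intro s t
        unfold unif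
        by_cases hs : s ∈ A' <;> by_cases ht : t ∈ B' <;> by_cases hm : Meet (P.x s) (P.y t) <;>
          simp [hs, ht, hm, hW]
        field_simp
      simp only [h1]
      have h2 : ∀ s, (∑ t, if s ∈ A' then (if t ∈ B' then ((if Meet (P.x s) (P.y t) then
            (((P.S s ∩ P.T t).card : ℝ) + 1) else 0) / W) else 0) else 0) =
          if s ∈ A' then (∑ t ∈ B', (if Meet (P.x s) (P.y t) then
            (((P.S s ∩ P.T t).card : ℝ) + 1) else 0) / W) else 0 := by
        intro s
        split_ifs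
        · rw [← sum_filter]
          simp only [filter_mem_eq_inter, univ_inter]
        · simp
      simp only [h2]
      rw [← sum_filter]
      simp only [filter_mem_eq_inter, univ_inter]
      unfold Sys.Yr
      rw [sum_div]
      refine sum_congr rfl fun s _ => ?_
      rw [sum_div]
    have hK28' : (0 : ℝ) < (K : ℝ) ^ 28 := by positivity
    have hworld : World P (unif A') (unif B') (1 / (K : ℝ) ^ 28) := by
      refine ⟨hp0, hp1, hq0, hq1, ?_⟩
      rw [hYW, div_le_div_iff₀ hW0 hK28', one_mul, mul_comm]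
      exact hcl
    rcases hWorld K hK P (unif A') (unif B') hworld hbig with ⟨l, hl1, hl2, hl⟩ | hsw
    · exact ind_step hAvg hDrop K hK P ε err hε nR n l hl1 (by omega) A' B' hA hB hcl hl
        (fun A'' => ih (n - l) (by omega) (by omega) A'' B')
    · have h1 := ind_step hAvg hDrop K hK P.swap ε err hε nR n 1 le_rfl (by omega) B' A' hB hA
        (by rw [ind_Yr_swap, mul_comm (B'.card : ℝ)]; exact hcl) (by simpa using hsw)
        (fun B'' => by
          rw [ind_Psi_swap, ind_Gr_swap]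
          exact ih (n - 1) (by omega) (by omega) A' B'')
      rw [ind_Psi_swap, ind_Gr_swap] at h1
      exact h1

end MP668cf7.Sep
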