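import Pool.Agent.Lib.MP_668cf7_lc.Sep.Spec

/-!
# Relative entropy tools
-/

namespace MP668cf7.Sep

open Finset

/-- `x ln (x/y) - x + y ≥ (√x - √y)²` -/
theorem phi_ge (x y : ℝ) (hx : 0 ≤ x) (hy : 0 ≤ y) (h : y = 0 → x = 0) :
    (Real.sqrt x - Real.sqrt y) ^ 2 ≤ x * Real.log (x / y) - x + y := by
  rcases hx.eq_or_lt with rfl | hx
  · simp [Real.sq_sqrt hy]
  have hy' : 0 < y := lt_of_le_of_ne hy (fun h0 => hx.ne' (h h0.symm))
  have hsx : 0 < Real.sqrt x := Real.sqrt_pos.2 hx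
  have hsy : 0 < Real.sqrt y := Real.sqrt_pos.2 hy'
  have h1 : Real.log (Real.sqrt y / Real.sqrt x) ≤ Real.sqrt y / Real.sqrt x - 1 :=
    Real.log_le_sub_one_of_pos (div_pos hsy hsx)
  have h2 : Real.log (x / y) = -2 * Real.log (Real.sqrt y / Real.sqrt x) := by
    rw [Real.log_div hx.ne' hy'.ne', Real.log_div hsy.ne' hsx.ne', Real.log_sqrt hx.le,
      Real.log_sqrt hy]
    ring
  rw [h2]
  have hxx : Real.sqrt x * Real.sqrt x = x := Real.mul_self_sqrt hx.le
  have hyy : Real.sqrt y * Real.sqrt y = y := Real.mul_self_sqrt hy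
  have h3 : x * (Real.sqrt y / Real.sqrt x) = Real.sqrt x * Real.sqrt y := by
    field_simp
    rw [sq, hxx]
  have h4 : x * Real.log (Real.sqrt y / Real.sqrt x) ≤ x * (Real.sqrt y / Real.sqrt x - 1) :=
    mul_le_mul_of_nonneg_left h1 hx.le
  have h5 : x * (Real.sqrt y / Real.sqrt x - 1) = Real.sqrt x * Real.sqrt y - x := by
    rw [mul_sub, h3, mul_one]
  nlinarith

/-- `x ≤ (x ln (x/y) - x + y) + 2 y` -/
theorem phi_ge_two (x y : ℝ) (hx : 0 ≤ x) (hy : 0 ≤ y) (h : y = 0 → x = 0) :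
    x ≤ (x * Real.log (x / y) - x + y) + 2 * y := by
  rcases hx.eq_or_lt with rfl | hx
  · simp; linarith
  have hy' : 0 < y := lt_of_le_of_ne hy (fun h0 => hx.ne' (h h0.symm))
  -- log (x/y) = 1 + log (x/(e y)) ≥ 1 + 1 - e y / x
  have he : 0 < Real.exp 1 := Real.exp_pos 1
  have h1 : Real.log (Real.exp 1 * y / x) ≤ Real.exp 1 * y / x - 1 :=
    Real.log_le_sub_one_of_pos (by positivity)
  have h2 : Real.log (Real.exp 1 * y / x) = 1 - Real.log (x / y) := by
    rw [Real.log_div (by positivity) hx.ne', Real.log_mul he.ne' hy'.ne', Real.log_exp,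
      Real.log_div hx.ne' hy'.ne']
    ring
  rw [h2] at h1
  have h3 : x * (1 - Real.log (x / y)) ≤ x * (Real.exp 1 * y / x - 1) :=
    mul_le_mul_of_nonneg_left h1 hx.le
  have h4 : x * (Real.exp 1 * y / x - 1) = Real.exp 1 * y - x := by
    field_simp
  have h5 : Real.exp 1 < 3 := by
    have := Real.exp_one_lt_d9
    linarith
  nlinarith

theorem stKLEvent : StKLEvent := by
  intro ι _ ν ν0 h0 h00 hac hs E
  classical
  have hphi : ∀ i, 0 ≤ ν i * Real.log (ν i / ν0 i) - ν i + ν0 i := fun i =>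
    le_trans (sq_nonneg _) (phi_ge _ _ (h0 i) (h00 i) (hac i))
  have h1 : ∑ i ∈ E, ν i ≤ ∑ i ∈ E, ((ν i * Real.log (ν i / ν0 i) - ν i + ν0 i) + 2 * ν0 i) :=
    sum_le_sum (fun i _ => phi_ge_two _ _ (h0 i) (h00 i) (hac i))
  have h2 : ∑ i ∈ E, (ν i * Real.log (ν i / ν0 i) - ν i + ν0 i) ≤
      ∑ i, (ν i * Real.log (ν i / ν0 i) - ν i + ν0 i) :=
    sum_le_sum_of_subset_of_nonneg (subset_univ _) (fun i _ _ => hphi i)
  have h3 : ∑ i, (ν i * Real.log (ν i / ν0 i) - ν i + ν0 i) = KL ν ν0 := by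
    rw [sum_add_distrib, sum_sub_distrib, hs]
    unfold KL
    ring
  rw [sum_add_distrib, ← mul_sum] at h1
  linarith

theorem stKLTV : StKLTV := by
  intro ι _ ν ν0 h0 h00 hac hs
  classical
  have hphi : ∀ i, (Real.sqrt (ν i) - Real.sqrt (ν0 i)) ^ 2 ≤
      ν i * Real.log (ν i / ν0 i) - ν i + ν0 i := fun i =>
    phi_ge _ _ (h0 i) (h00 i) (hac i)
  have h3 : ∑ i, (ν i * Real.log (ν i / ν0 i) - ν i + ν0 i) = KL ν ν0 := by
    rw [sum_add_distrib, sum_sub_distrib, hs]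
    unfold KL
    ring
  have h4 : ∑ i, (Real.sqrt (ν i) - Real.sqrt (ν0 i)) ^ 2 ≤ KL ν ν0 := by
    rw [← h3]
    exact sum_le_sum (fun i _ => hphi i)
  have hKL : 0 ≤ KL ν ν0 := le_trans (sum_nonneg (fun i _ => sq_nonneg _)) h4
  refine ⟨hKL, ?_⟩
  have hz : 0 ≤ ∑ i, ν i := sum_nonneg (fun i _ => h0 i)
  have h5 : ∑ i, (Real.sqrt (ν i) + Real.sqrt (ν0 i)) ^ 2 ≤ 4 * ∑ i, ν i := by
    have : ∀ i, (Real.sqrt (ν i) + Real.sqrt (ν0 i)) ^ 2 ≤ 2 * (ν i + ν0 i) := by
      intro i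
      have ha := Real.sq_sqrt (h0 i)
      have hb := Real.sq_sqrt (h00 i)
      nlinarith [sq_nonneg (Real.sqrt (ν i) - Real.sqrt (ν0 i))]
    calc ∑ i, (Real.sqrt (ν i) + Real.sqrt (ν0 i)) ^ 2 ≤ ∑ i, 2 * (ν i + ν0 i) :=
          sum_le_sum (fun i _ => this i)
      _ = 4 * ∑ i, ν i := by
          rw [← mul_sum, sum_add_distrib, ← hs]
          ring
  have h6 : (∑ i, |ν i - ν0 i|) ^ 2 ≤ KL ν ν0 * (4 * ∑ i, ν i) := by
    have hcs : (∑ i, |Real.sqrt (ν i) - Real.sqrt (ν0 i)| * (Real.sqrt (ν i) + Real.sqrt (ν0 i))) ^ 2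
        ≤ (∑ i, |Real.sqrt (ν i) - Real.sqrt (ν0 i)| ^ 2) *
          ∑ i, (Real.sqrt (ν i) + Real.sqrt (ν0 i)) ^ 2 :=
      sum_mul_sq_le_sq_mul_sq _ _ _
    have heq : ∀ i, |Real.sqrt (ν i) - Real.sqrt (ν0 i)| * (Real.sqrt (ν i) + Real.sqrt (ν0 i)) =
        |ν i - ν0 i| := by
      intro i
      have hp : 0 ≤ Real.sqrt (ν i) + Real.sqrt (ν0 i) := by positivity
      have ha := Real.mul_self_sqrt (h0 i)
      have hb := Real.mul_self_sqrt (h00 i)
      have hc : ν i - ν0 i = (Real.sqrt (ν i) - Real.sqrt (ν0 i)) *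
          (Real.sqrt (ν i) + Real.sqrt (ν0 i)) := by nlinarith
      rw [hc, abs_mul, abs_of_nonneg hp]
    simp only [heq, sq_abs] at hcs
    calc _ ≤ _ := hcs
      _ ≤ KL ν ν0 * (4 * ∑ i, ν i) := by
          apply mul_le_mul h4 h5 (sum_nonneg (fun i _ => sq_nonneg _)) hKL
  have h7 : (2 * Real.sqrt ((∑ i, ν i) * KL ν ν0)) ^ 2 = KL ν ν0 * (4 * ∑ i, ν i) := by
    rw [mul_pow, Real.sq_sqrt (mul_nonneg hz hKL)]
    ring
  rw [← h7] at h6
  exact le_of_sq_le_sq h6 (by positivity)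

/-- log-sum inequality for two-point mixtures in finite form -/
theorem logsum {I : Type} [Fintype I] (f g : I → ℝ) (hf : ∀ j, 0 ≤ f j) (hg : ∀ j, 0 ≤ g j)
    (h : ∀ j, g j = 0 → f j = 0) :
    (∑ j, f j) * Real.log ((∑ j, f j) / ∑ j, g j) ≤ ∑ j, f j * Real.log (f j / g j) := by
  classical
  set F := ∑ j, f j with hF
  set G := ∑ j, g j with hG
  have hF0 : 0 ≤ F := sum_nonneg (fun j _ => hf j)
  have hG0 : 0 ≤ G := sum_nonneg (fun j _ => hg j)
  rcases hF0.eq_or_lt with hF1 | hF1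
  · have hz : ∀ j, f j = 0 := by
      intro j
      have := (sum_eq_zero_iff_of_nonneg (fun j _ => hf j)).1 hF1.symm j (mem_univ j)
      exact this
    rw [← hF1]
    simp [hz]
  have hG1 : 0 < G := by
    rcases hG0.eq_or_lt with h0 | h0
    · exfalso
      have hz : ∀ j, g j = 0 := fun j =>
        (sum_eq_zero_iff_of_nonneg (fun j _ => hg j)).1 h0.symm j (mem_univ j)
      have : F = 0 := by
        rw [hF]
        exact sum_eq_zero (fun j _ => h j (hz j))
      exact hF1.ne' this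
    · exact h0
  -- pointwise: f log (f/g) ≥ f log (F/G) + f - g F / G
  have hp : ∀ j, f j * Real.log (F / G) + f j - g j * (F / G) ≤ f j * Real.log (f j / g j) := by
    intro j
    rcases (hf j).eq_or_lt with h0 | h0
    · rw [← h0]
      have : 0 ≤ g j * (F / G) := mul_nonneg (hg j) (by positivity)
      simp only [zero_mul, zero_add, zero_sub]
      linarith
    have hgj : 0 < g j := lt_of_le_of_ne (hg j) (fun h1 => h0.ne' (h j h1.symm))
    have h1 : Real.log (g j * (F / G) / f j) ≤ g j * (F / G) / f j - 1 :=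
      Real.log_le_sub_one_of_pos (by positivity)
    have h2 : Real.log (g j * (F / G) / f j) = Real.log (F / G) - Real.log (f j / g j) := by
      rw [Real.log_div (by positivity) h0.ne', Real.log_mul hgj.ne' (by positivity),
        Real.log_div h0.ne' hgj.ne']
      ring
    rw [h2] at h1
    have h3 := mul_le_mul_of_nonneg_left h1 h0.le
    have h4 : f j * (g j * (F / G) / f j - 1) = g j * (F / G) - f j := by
      field_simp
    nlinarith
  have hs := sum_le_sum (fun j (_ : j ∈ (univ : Finset I)) => hp j)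
  rw [sum_sub_distrib, sum_add_distrib, ← sum_mul, ← sum_mul, ← hF, ← hG] at hs
  have h5 : G * (F / G) = F := by field_simp
  rw [h5] at hs
  linarith

theorem stKLMix : StKLMix := by
  intro ι I _ _ lam ν ν0 hl h0 h00 hac
  classical
  unfold KL
  simp only [mul_sum]
  rw [sum_comm (s := (univ : Finset I)) (t := (univ : Finset ι))]
  apply sum_le_sum
  intro i _
  have h := logsum (fun j => lam j * ν j i) (fun j => lam j * ν0 j i)
    (fun j => mul_nonneg (hl j) (h0 j i)) (fun j => mul_nonneg (hl j) (h00 j i))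
    (fun j hj => by
      rcases mul_eq_zero.1 hj with h | h
      · rw [h, zero_mul]
      · rw [hac j i h, mul_zero])
  refine h.trans (le_of_eq ?_)
  apply sum_congr rfl
  intro j _
  rcases (hl j).eq_or_lt with h1 | h1
  · rw [← h1]; simp
  · rw [mul_div_mul_left _ _ h1.ne']
    ring

end MP668cf7.Sep
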