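import Pool.Agent.Lib.MP_668cf7_lc.Sep.Spec

/-!
# Module 6: `L¹` estimates
-/

namespace MP668cf7.Sep

open Finset

section

variable {k N : ℕ} {A B U : Type} [DecidableEq U] [Fintype A] [Fintype B] [Fintype U]

theorem l1_prod_sum {ι : Type} [Fintype ι] (ω : ι → ℝ) (h1 : ∑ i, ω i = 1) (l : ℕ) :
    ∑ κ : Fin l → ι, ∏ a, ω (κ a) = 1 := by
  classical
  have h := Finset.prod_univ_sum (fun _ : Fin l => (univ : Finset ι)) (fun _ i => ω i)
  rw [Fintype.piFinset_univ] at h
  rw [← h, h1, prod_const_one]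

theorem l1_prod_nonneg (P : Sys k N A B U) (q : B → ℝ) (h0 : ∀ s κ, 0 ≤ P.om q s κ) {l : ℕ}
    (s : A) (κ : Fin l → Option U) : 0 ≤ ∏ a, P.om q s (κ a) :=
  prod_nonneg fun a _ => h0 s _

theorem l1_nu_nonneg (P : Sys k N A B U) (p : A → ℝ) (q : B → ℝ) (hp : ∀ s, 0 ≤ p s)
    (h0 : ∀ s κ, 0 ≤ P.om q s κ) (hb : ∀ u, 0 ≤ P.bv q u) (l : ℕ)
    (z : (Fin l → Option U) × U) : 0 ≤ P.nu p q l z := by
  unfold Sys.nu
  refine mul_nonneg (sum_nonneg fun s _ => ?_) (hb _)
  split_ifs
  · exact mul_nonneg (hp s) (l1_prod_nonneg P q h0 s _)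
  · exact le_rfl

theorem l1_nu0_nonneg (P : Sys k N A B U) (p : A → ℝ) (q : B → ℝ) (hp : ∀ s, 0 ≤ p s)
    (h0 : ∀ s κ, 0 ≤ P.om q s κ) (ha : ∀ u, 0 ≤ P.av p u) (hb : ∀ u, 0 ≤ P.bv q u) (l : ℕ)
    (z : (Fin l → Option U) × U) : 0 ≤ P.nu0 p q l z := by
  unfold Sys.nu0 Sys.cv
  refine mul_nonneg (sum_nonneg fun s _ => ?_) (mul_nonneg (ha _) (hb _))
  exact mul_nonneg (hp s) (l1_prod_nonneg P q h0 s _)

theorem l1_ac (P : Sys k N A B U) (p : A → ℝ) (q : B → ℝ) (hp : ∀ s, 0 ≤ p s)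
    (h0 : ∀ s κ, 0 ≤ P.om q s κ) (l : ℕ)
    (z : (Fin l → Option U) × U) (hz : P.nu0 p q l z = 0) : P.nu p q l z = 0 := by
  unfold Sys.nu0 at hz
  unfold Sys.nu
  have key : (∀ s, z.2 ∈ P.S s → p s * ∏ a, P.om q s (z.1 a) = 0) →
      (∑ s, if z.2 ∈ P.S s then p s * ∏ a, P.om q s (z.1 a) else 0) * P.bv q z.2 = 0 := by
    intro h
    rw [sum_eq_zero, zero_mul]
    intro s _
    split_ifs with hs
    · exact h s hs
    · rfl
  rcases mul_eq_zero.mp hz with h | h
  · apply key
    intro s _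
    exact (sum_eq_zero_iff_of_nonneg (fun s _ => mul_nonneg (hp s)
      (l1_prod_nonneg P q h0 s _))).mp h s (mem_univ _)
  · unfold Sys.cv at h
    rcases mul_eq_zero.mp h with h | h
    · apply key
      intro s hs
      unfold Sys.av at h
      have h1 := (sum_eq_zero_iff_of_nonneg (fun s _ => by
        split_ifs
        · exact hp s
        · exact le_rfl)).mp h s (mem_univ _)
      rw [if_pos hs] at h1
      rw [h1, zero_mul]
    · rw [h, mul_zero]

theorem l1_nu_sum (P : Sys k N A B U) (p : A → ℝ) (q : B → ℝ)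
    (h1 : ∀ s, ∑ κ, P.om q s κ = 1) (l : ℕ) : ∑ z, P.nu p q l z = P.zz p q := by
  rw [Fintype.sum_prod_type, sum_comm]
  unfold Sys.zz Sys.cv Sys.nu
  refine sum_congr rfl fun u _ => ?_
  simp only
  rw [← sum_mul]
  congr 1
  rw [sum_comm]
  unfold Sys.av
  refine sum_congr rfl fun s _ => ?_
  split_ifs
  · rw [← mul_sum, l1_prod_sum _ (h1 s), mul_one]
  · simp

theorem l1_nu0_sum (P : Sys k N A B U) (p : A → ℝ) (q : B → ℝ) (hp1 : ∑ s, p s = 1)
    (h1 : ∀ s, ∑ κ, P.om q s κ = 1) (l : ℕ) : ∑ z, P.nu0 p q l z = P.zz p q := by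
  rw [Fintype.sum_prod_type, sum_comm]
  unfold Sys.zz Sys.nu0
  refine sum_congr rfl fun u _ => ?_
  simp only
  rw [← sum_mul]
  have h2 : ∑ κ : Fin l → Option U, ∑ s, p s * ∏ a, P.om q s (κ a) = 1 := by
    rw [sum_comm]
    have h3 : ∀ s, ∑ κ : Fin l → Option U, p s * ∏ a, P.om q s (κ a) = p s := by
      intro s
      rw [← mul_sum, l1_prod_sum _ (h1 s), mul_one]
    simp only [h3, hp1]
  rw [h2, one_mul]

/-- sum over `Fin 1 → Option U` -/
theorem l1_sum_one (D : (Fin 1 → Option U) × U → ℝ) (hD : ∀ z, 0 ≤ D z) :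
    ∑ w, ∑ u, D (fun _ => some w, u) ≤ ∑ z, D z := by
  rw [Fintype.sum_prod_type, ← (Equiv.funUnique (Fin 1) (Option U)).symm.sum_comp,
    Fintype.sum_option]
  have h : 0 ≤ ∑ u, D ((Equiv.funUnique (Fin 1) (Option U)).symm none, u) :=
    sum_nonneg fun u _ => hD _
  refine le_trans (le_of_eq ?_) (le_add_of_nonneg_left h)
  rfl

theorem l1_nu_one (P : Sys k N A B U) (p : A → ℝ) (q : B → ℝ) (w u : U) :
    P.nu p q 1 (fun _ => some w, u) =
      (∑ s, if u ∈ P.S s then p s * P.om q s (some w) else 0) * P.bv q u := by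
  unfold Sys.nu
  simp

theorem l1_nu0_one (P : Sys k N A B U) (p : A → ℝ) (q : B → ℝ) (w u : U) :
    P.nu0 p q 1 (fun _ => some w, u) = P.ev p q w * P.cv p q u := by
  unfold Sys.nu0 Sys.ev
  simp

end

theorem stL1 (hBasic : StBasic) (hEvent : StKLEvent) (hTV : StKLTV) : StL1 := by
  intro k N A B U _ _ _ _ P p q η hW
  obtain ⟨hf, -⟩ := hBasic P p q η hW
  have hnu := l1_nu_nonneg P p q hW.p0 hf.om0 hf.bv0
  have hnu0 := l1_nu0_nonneg P p q hW.p0 hf.om0 hf.av0 hf.bv0
  have hac := l1_ac P p q hW.p0 hf.om0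
  have hs := l1_nu_sum P p q hf.om1
  have hs0 := l1_nu0_sum P p q hW.p1 hf.om1
  have htv : ∀ l, 0 ≤ P.gh p q l ∧ ∑ z, |P.nu p q l z - P.nu0 p q l z| ≤
      2 * Real.sqrt (P.zz p q * P.gh p q l) := by
    intro l
    have h := hTV _ (P.nu p q l) (P.nu0 p q l) (hnu l) (hnu0 l) (hac l) (by rw [hs, hs0])
    rw [hs] at h
    exact h
  have hone : ∑ w, ∑ u, |P.nu p q 1 (fun _ => some w, u) - P.nu0 p q 1 (fun _ => some w, u)| ≤
      2 * Real.sqrt (P.zz p q * P.gh p q 1) :=
    (l1_sum_one (fun z => |P.nu p q 1 z - P.nu0 p q 1 z|) (fun z => abs_nonneg _)).trans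
      (htv 1).2
  refine ⟨fun l => (htv l).1, ?_, ?_, ?_⟩
  · -- second part
    have hle : ∀ w u, P.sg p q w u ≤ P.nu p q 1 (fun _ => some w, u) := by
      intro w u
      rw [l1_nu_one, sum_mul]
      unfold Sys.sg
      refine sum_le_sum fun s _ => ?_
      have h := hf.omle s u
      have h2 := mul_nonneg (hW.p0 s) (hf.om0 s (some w))
      by_cases hu : u ∈ P.S s
      · rw [if_pos hu] at h ⊢
        have := mul_le_mul_of_nonneg_left h h2
        linarith
      · rw [if_neg hu] at h ⊢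
        have h3 : P.om q s (some u) = 0 := le_antisymm h (hf.om0 s _)
        rw [h3]; simp
    have hfirst : ∑ w, ∑ u, (P.nu p q 1 (fun _ => some w, u) - P.sg p q w u) ≤ η := by
      refine le_trans ?_ hf.evsum
      rw [sum_comm]
      refine sum_le_sum fun u _ => ?_
      have h1 : ∀ w, P.nu p q 1 (fun _ => some w, u) - P.sg p q w u =
          ∑ s, P.om q s (some w) * (p s * ((if u ∈ P.S s then P.bv q u else 0) -
            P.om q s (some u))) := by
        intro w
        rw [l1_nu_one, sum_mul]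
        unfold Sys.sg
        rw [← sum_sub_distrib]
        refine sum_congr rfl fun s _ => ?_
        split_ifs <;> ring
      simp only [h1]
      rw [sum_comm]
      have h2 : P.cv p q u - P.ev p q u = ∑ s, p s * ((if u ∈ P.S s then P.bv q u else 0) -
            P.om q s (some u)) := by
        unfold Sys.cv Sys.av Sys.ev
        rw [sum_mul, ← sum_sub_distrib]
        refine sum_congr rfl fun s _ => ?_
        split_ifs <;> ring
      rw [h2]
      refine sum_le_sum fun s _ => ?_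
      rw [← sum_mul]
      have h3 : 0 ≤ p s * ((if u ∈ P.S s then P.bv q u else 0) - P.om q s (some u)) :=
        mul_nonneg (hW.p0 s) (sub_nonneg.mpr (hf.omle s u))
      have h4 : ∑ w, P.om q s (some w) ≤ 1 := by
        have := hf.om1 s
        rw [Fintype.sum_option] at this
        have h5 := hf.om0 s none
        linarith
      exact mul_le_of_le_one_left h3 h4
    have hthird : ∑ w, ∑ u, |P.nu0 p q 1 (fun _ => some w, u) - P.cv p q w * P.cv p q u| ≤
        P.zz p q * η := by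
      have hcv : ∀ u, 0 ≤ P.cv p q u := fun u => mul_nonneg (hf.av0 u) (hf.bv0 u)
      have h1 : ∀ w u, |P.nu0 p q 1 (fun _ => some w, u) - P.cv p q w * P.cv p q u| =
          (P.cv p q w - P.ev p q w) * P.cv p q u := by
        intro w u
        rw [l1_nu0_one, ← sub_mul, abs_mul, abs_of_nonneg (hcv u), abs_sub_comm,
          abs_of_nonneg (sub_nonneg.mpr (hf.evle w))]
      simp only [h1]
      simp only [← mul_sum]
      rw [← sum_mul, mul_comm]
      refine mul_le_mul_of_nonneg_left hf.evsum ?_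
      exact sum_nonneg fun u _ => hcv u
    have htri : ∀ w u, |P.sg p q w u - P.cv p q w * P.cv p q u| ≤
        (P.nu p q 1 (fun _ => some w, u) - P.sg p q w u) +
        |P.nu p q 1 (fun _ => some w, u) - P.nu0 p q 1 (fun _ => some w, u)| +
        |P.nu0 p q 1 (fun _ => some w, u) - P.cv p q w * P.cv p q u| := by
      intro w u
      have h1 : P.sg p q w u - P.cv p q w * P.cv p q u =
          -(P.nu p q 1 (fun _ => some w, u) - P.sg p q w u) +
          (P.nu p q 1 (fun _ => some w, u) - P.nu0 p q 1 (fun _ => some w, u)) +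
          (P.nu0 p q 1 (fun _ => some w, u) - P.cv p q w * P.cv p q u) := by ring
      rw [h1]
      refine (abs_add_three _ _ _).trans ?_
      rw [abs_neg, abs_of_nonneg (sub_nonneg.mpr (hle w u))]
    calc ∑ w, ∑ u, |P.sg p q w u - P.cv p q w * P.cv p q u| ≤
        ∑ w, ∑ u, ((P.nu p q 1 (fun _ => some w, u) - P.sg p q w u) +
        |P.nu p q 1 (fun _ => some w, u) - P.nu0 p q 1 (fun _ => some w, u)| +
        |P.nu0 p q 1 (fun _ => some w, u) - P.cv p q w * P.cv p q u|) :=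
          sum_le_sum fun w _ => sum_le_sum fun u _ => htri w u
      _ = ∑ w, ∑ u, (P.nu p q 1 (fun _ => some w, u) - P.sg p q w u) +
        ∑ w, ∑ u, |P.nu p q 1 (fun _ => some w, u) - P.nu0 p q 1 (fun _ => some w, u)| +
        ∑ w, ∑ u, |P.nu0 p q 1 (fun _ => some w, u) - P.cv p q w * P.cv p q u| := by
          simp only [sum_add_distrib]
      _ ≤ η + 2 * Real.sqrt (P.zz p q * P.gh p q 1) + P.zz p q * η :=
          add_le_add (add_le_add hfirst hone) hthird
      _ = _ := by ring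
  · -- third part
    refine le_trans ?_ hone
    refine sum_le_sum fun w _ => ?_
    refine le_trans ?_ (single_le_sum (f := fun u => |P.nu p q 1 (fun _ => some w, u) -
      P.nu0 p q 1 (fun _ => some w, u)|) (fun u _ => abs_nonneg _) (mem_univ w))
    refine le_trans (le_of_eq ?_) (le_abs_self _)
    rw [l1_nu_one, l1_nu0_one]
    have h1 : (∑ s, if w ∈ P.S s then p s * P.om q s (some w) else 0) = P.ev p q w := by
      unfold Sys.ev
      refine sum_congr rfl fun s _ => ?_
      split_ifs with hs'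
      · rfl
      · have h := hf.omle s w
        rw [if_neg hs'] at h
        have h3 : P.om q s (some w) = 0 := le_antisymm h (hf.om0 s _)
        rw [h3, mul_zero]
    rw [h1]
    unfold Sys.cv
    ring
  · intro l E
    exact hEvent _ (P.nu p q l) (P.nu0 p q l) (hnu l) (hnu0 l) (hac l) (by rw [hs, hs0]) E

end MP668cf7.Sep
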