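import Pool.Agent.Lib.MP_668cf7_lc.Sep.Spec

/-!
# Module 8: labels of pairs
-/

namespace MP668cf7.Sep

open Finset

namespace Sys

set_option linter.unusedSectionVars false

variable {k N : ℕ} {A B U : Type} [DecidableEq U] [Fintype A] [Fintype B] [Fintype U]

/-- The mass of `(w, u)` at the label `z`. -/
noncomputable def lbFz (P : Sys k N A B U) (p : A → ℝ) (q : B → ℝ) (w u : U)
    (z : Fin k × Fin N) : ℝ :=
  ∑ t, if P.y t z.1 = z.2 then
      q t * (P.swap.om p t (some w) * P.swap.om p t (some u)) else 0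

theorem lbSg_symm (P : Sys k N A B U) (p : A → ℝ) (q : B → ℝ) (w u : U) :
    P.sg p q w u = P.sg p q u w := by
  unfold sg
  refine sum_congr rfl fun s _ => ?_
  ring

theorem lbFz_symm (P : Sys k N A B U) (p : A → ℝ) (q : B → ℝ) (w u : U) (z : Fin k × Fin N) :
    P.lbFz p q w u z = P.lbFz p q u w z := by
  unfold lbFz
  refine sum_congr rfl fun s _ => ?_
  split_ifs
  · ring
  · rfl

theorem lbMem_J (P : Sys k N A B U) (p : A → ℝ) (q : B → ℝ) (w u : U) (z : Fin k × Fin N) :
    z ∈ P.J p q w u ↔ P.swap.sg q p w u / k ≤ P.lbFz p q w u z := by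
  unfold J lbFz
  simp

theorem lbJ_symm (P : Sys k N A B U) (p : A → ℝ) (q : B → ℝ) (w u : U) :
    P.J p q w u = P.J p q u w := by
  ext z
  rw [lbMem_J, lbMem_J, P.swap.lbSg_symm q p w u, P.lbFz_symm p q w u z]

theorem lbPP_symm (P : Sys k N A B U) (p : A → ℝ) (q : B → ℝ) (w u : U)
    (h : P.PP p q w u) : P.PP p q u w := by
  obtain ⟨h1, h2, h3⟩ := h
  refine ⟨fun h' => h1 h'.symm, ?_, ?_⟩
  · rw [mul_comm]; exact h2
  · rw [mul_comm (P.cv p q u), P.swap.lbSg_symm q p u w]; exact h3

theorem lbSum_fz (P : Sys k N A B U) (p : A → ℝ) (q : B → ℝ) (w u : U) :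
    ∑ z, P.lbFz p q w u z = k * P.swap.sg q p w u := by
  unfold lbFz
  rw [Fintype.sum_prod_type]
  have h1 : ∀ b : Fin k, (∑ j : Fin N, ∑ t, if P.y t (b, j).1 = (b, j).2 then
      q t * (P.swap.om p t (some w) * P.swap.om p t (some u)) else 0) = P.swap.sg q p w u := by
    intro b
    rw [sum_comm]
    unfold sg
    refine sum_congr rfl fun t _ => ?_
    simp
  rw [sum_congr rfl fun b _ => h1 b]
  simp

theorem lbFz_nonneg (P : Sys k N A B U) (p : A → ℝ) (q : B → ℝ) (hq : ∀ t, 0 ≤ q t)
    (hom : ∀ t κ, 0 ≤ P.swap.om p t κ) (w u : U) (z : Fin k × Fin N) : 0 ≤ P.lbFz p q w u z := by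
  unfold lbFz
  refine sum_nonneg fun t _ => ?_
  split_ifs
  · exact mul_nonneg (hq t) (mul_nonneg (hom _ _) (hom _ _))
  · exact le_refl _

theorem lbSg_swap_pos (P : Sys k N A B U) (p : A → ℝ) (q : B → ℝ) (w u : U)
    (h : P.PP p q w u) : 0 < P.swap.sg q p w u := by
  obtain ⟨_, h2, h3⟩ := h
  linarith

theorem lbCard_J_le (P : Sys k N A B U) (p : A → ℝ) (q : B → ℝ) (hq : ∀ t, 0 ≤ q t)
    (hom : ∀ t κ, 0 ≤ P.swap.om p t κ) (hk : 1 ≤ k) (w u : U) (h : P.PP p q w u) :
    ((P.J p q w u).card : ℝ) ≤ (k : ℝ) ^ 2 := by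
  have hτ := P.lbSg_swap_pos p q w u h
  have hk0 : (0 : ℝ) < k := by exact_mod_cast hk
  have h1 : ((P.J p q w u).card : ℝ) * (P.swap.sg q p w u / k) ≤ ∑ z ∈ P.J p q w u,
      P.lbFz p q w u z := by
    rw [← nsmul_eq_mul]
    exact card_nsmul_le_sum _ _ _ fun z hz => (P.lbMem_J p q w u z).1 hz
  have h2 : ∑ z ∈ P.J p q w u, P.lbFz p q w u z ≤ ∑ z, P.lbFz p q w u z :=
    sum_le_sum_of_subset_of_nonneg (subset_univ _) fun z _ _ => P.lbFz_nonneg p q hq hom w u z
  rw [P.lbSum_fz] at h2
  have h3 := h1.trans h2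
  rw [← mul_div_assoc, div_le_iff₀ hk0] at h3
  have h4 : ((P.J p q w u).card : ℝ) * P.swap.sg q p w u ≤ (k : ℝ) ^ 2 * P.swap.sg q p w u := by
    calc ((P.J p q w u).card : ℝ) * P.swap.sg q p w u ≤ k * P.swap.sg q p w u * k := h3
      _ = (k : ℝ) ^ 2 * P.swap.sg q p w u := by ring
  exact le_of_mul_le_mul_right h4 hτ

theorem lbExists_label (P : Sys k N A B U) (p : A → ℝ) (q : B → ℝ) (hq : ∀ t, 0 ≤ q t)
    (hom : ∀ t κ, 0 ≤ P.swap.om p t κ)
    (hle : ∀ t w, P.swap.om p t (some w) ≤ if w ∈ P.T t then P.av p w else 0)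
    (hk : 1 ≤ k) (w u : U) (s : A) (h : P.PP p q w u) (hw : w ∈ P.S s) (hu : u ∈ P.S s) :
    ∃ b, (b, P.x s b) ∈ P.J p q w u := by
  have hτ := P.lbSg_swap_pos p q w u h
  have hk0 : (0 : ℝ) < k := by exact_mod_cast hk
  by_contra hcon
  push Not at hcon
  have h1 : ∀ b : Fin k, P.lbFz p q w u (b, P.x s b) < P.swap.sg q p w u / k := by
    intro b
    have := hcon b
    rw [lbMem_J] at this
    exact lt_of_not_ge this
  have h2 : ∑ b : Fin k, P.lbFz p q w u (b, P.x s b) < ∑ b : Fin k, P.swap.sg q p w u / k :=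
    sum_lt_sum_of_nonempty ⟨⟨0, hk⟩, mem_univ _⟩ fun b _ => h1 b
  have h3 : ∑ b : Fin k, P.swap.sg q p w u / k = P.swap.sg q p w u := by
    rw [sum_const, card_univ, Fintype.card_fin, nsmul_eq_mul]
    field_simp
  rw [h3] at h2
  have h4 : P.swap.sg q p w u ≤ ∑ b : Fin k, P.lbFz p q w u (b, P.x s b) := by
    unfold lbFz
    rw [sum_comm]
    unfold sg
    refine sum_le_sum fun t _ => ?_
    have hn : 0 ≤ q t * (P.swap.om p t (some w) * P.swap.om p t (some u)) :=
      mul_nonneg (hq t) (mul_nonneg (hom _ _) (hom _ _))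
    by_cases hT : w ∈ P.T t ∧ u ∈ P.T t
    · have hM : Meet (P.x s) (P.y t) := by
        by_contra hM
        have hc := P.one s t hM
        obtain ⟨v, hv⟩ := card_eq_one.1 hc
        have e1 : w ∈ ({v} : Finset U) := by rw [← hv]; exact mem_inter.2 ⟨hw, hT.1⟩
        have e2 : u ∈ ({v} : Finset U) := by rw [← hv]; exact mem_inter.2 ⟨hu, hT.2⟩
        rw [mem_singleton] at e1 e2
        exact h.1 (e1.trans e2.symm)
      obtain ⟨b, hb⟩ := hM
      calc q t * (P.swap.om p t (some w) * P.swap.om p t (some u))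
          = (if P.y t b = P.x s b then
              q t * (P.swap.om p t (some w) * P.swap.om p t (some u)) else 0) := by
            rw [if_pos hb.symm]
        _ ≤ ∑ b : Fin k, (if P.y t b = P.x s b then
              q t * (P.swap.om p t (some w) * P.swap.om p t (some u)) else 0) :=
            single_le_sum (f := fun b : Fin k => (if P.y t b = P.x s b then
              q t * (P.swap.om p t (some w) * P.swap.om p t (some u)) else 0))
              (fun b' _ => by
                split_ifs
                · exact hn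
                · exact le_refl _) (mem_univ b)
    · have hz : P.swap.om p t (some w) * P.swap.om p t (some u) = 0 := by
        rw [not_and_or] at hT
        rcases hT with hT | hT
        · have := hle t w
          rw [if_neg hT] at this
          rw [le_antisymm this (hom _ _), zero_mul]
        · have := hle t u
          rw [if_neg hT] at this
          rw [le_antisymm this (hom _ _), mul_zero]
      rw [hz, mul_zero]
      refine sum_nonneg fun b _ => ?_
      split_ifs <;> exact le_refl _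
  linarith

theorem lbSpr_le (P : Sys k N A B U) (p : A → ℝ) (q : B → ℝ) (hq : ∀ t, 0 ≤ q t)
    (hom : ∀ t κ, 0 ≤ P.swap.om p t κ) (hom1 : ∀ t, ∑ κ, P.swap.om p t κ = 1)
    (hle : ∀ t w, P.swap.om p t (some w) ≤ if w ∈ P.T t then P.av p w else 0)
    (ha0 : ∀ u, 0 ≤ P.av p u) (hb0 : ∀ u, 0 ≤ P.bv q u)
    (hk : 1 ≤ k) (h : ℝ) (hh : 0 < h) (w : U) (z : Fin k × Fin N) (hz : z ∉ P.Hv q h w) :
    P.spr p q w z ≤ 2 * (k : ℝ) * h := by
  classical
  have hk0 : (0 : ℝ) < k := by exact_mod_cast hk
  have hc0 : ∀ u, 0 ≤ P.cv p q u := fun u => mul_nonneg (ha0 u) (hb0 u)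
  by_cases hex : ∃ u, P.PP p q w u
  · obtain ⟨u0, hu0⟩ := hex
    have hcw : 0 < P.cv p q w := by
      have h2 := hu0.2.1
      rcases (hc0 w).eq_or_lt with h' | h'
      · rw [← h', zero_mul] at h2
        exact absurd h2 (lt_irrefl _)
      · exact h'
    -- the mass of `w` at the label `z`
    have hz' : (∑ t, if P.y t z.1 = z.2 ∧ w ∈ P.T t then q t else 0) < h * P.bv q w := by
      unfold Hv at hz
      simp only [mem_filter, mem_univ, true_and, not_le] at hz
      exact hz
    have h1 : ∀ u, P.cv p q w * (if P.PP p q w u ∧ z ∈ P.J p q w u then P.cv p q u else 0) ≤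
        2 * k * P.lbFz p q w u z := by
      intro u
      split_ifs with hu
      · have e1 := hu.1.2.2
        have e2 := (P.lbMem_J p q w u z).1 hu.2
        rw [div_le_iff₀ hk0] at e2
        nlinarith
      · rw [mul_zero]
        have := P.lbFz_nonneg p q hq hom w u z
        positivity
    have h2 : P.cv p q w * P.spr p q w z ≤ 2 * k * ∑ u, P.lbFz p q w u z := by
      have e0 : P.cv p q w * P.spr p q w z =
          ∑ u, P.cv p q w * (if P.PP p q w u ∧ z ∈ P.J p q w u then P.cv p q u else 0) := by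
        unfold spr
        rw [mul_sum]
      rw [e0, mul_sum]
      exact sum_le_sum fun u _ => h1 u
    have h3 : ∑ u, P.lbFz p q w u z ≤ P.av p w *
        ∑ t, if P.y t z.1 = z.2 ∧ w ∈ P.T t then q t else 0 := by
      unfold lbFz
      rw [sum_comm, mul_sum]
      refine sum_le_sum fun t _ => ?_
      by_cases hy : P.y t z.1 = z.2
      · simp only [hy, if_true, true_and]
        rw [← mul_sum, ← mul_sum]
        have e1 : ∑ u, P.swap.om p t (some u) ≤ 1 := by
          have := hom1 t
          rw [Fintype.sum_option] at this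
          have h0 := hom t none
          linarith
        have e2 := hle t w
        have e3 : P.swap.om p t (some w) * ∑ u, P.swap.om p t (some u) ≤
            P.swap.om p t (some w) := by
          have := mul_le_mul_of_nonneg_left e1 (hom t (some w))
          linarith
        have e4 := mul_le_mul_of_nonneg_left (e3.trans e2) (hq t)
        refine e4.trans ?_
        split_ifs
        · exact le_of_eq (mul_comm _ _)
        · simp
      · simp [hy]
    have h4 : P.av p w * (∑ t, if P.y t z.1 = z.2 ∧ w ∈ P.T t then q t else 0) ≤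
        h * P.cv p q w := by
      have := mul_le_mul_of_nonneg_left hz'.le (ha0 w)
      refine this.trans (le_of_eq ?_)
      unfold cv
      ring
    have h5 : P.cv p q w * P.spr p q w z ≤ P.cv p q w * (2 * k * h) := by
      calc P.cv p q w * P.spr p q w z ≤ 2 * k * ∑ u, P.lbFz p q w u z := h2
        _ ≤ 2 * k * (h * P.cv p q w) := by
            refine mul_le_mul_of_nonneg_left (h3.trans h4) (by positivity)
        _ = P.cv p q w * (2 * k * h) := by ring
    exact le_of_mul_le_mul_left h5 hcw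
  · push Not at hex
    have : P.spr p q w z = 0 := by
      unfold spr
      refine sum_eq_zero fun u _ => ?_
      rw [if_neg]
      exact fun h' => hex u h'.1
    rw [this]
    positivity

end Sys

/-- Module 8. -/
theorem stLabels (hB : StBasic) : StLabels := by
  intro k N A B U _ _ _ _ P p q η h W hk hh
  obtain ⟨F, W'⟩ := hB P p q η W
  obtain ⟨F', -⟩ := hB P.swap q p η W'
  have hle : ∀ t w, P.swap.om p t (some w) ≤ if w ∈ P.T t then P.av p w else 0 := by
    intro t w
    have := F'.omle t w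
    rw [F.bvswap] at this
    exact this
  refine ⟨fun w u => ⟨P.lbPP_symm p q w u, P.lbPP_symm p q u w⟩, P.lbJ_symm p q,
    fun w u => P.lbCard_J_le p q W.q0 F'.om0 hk w u,
    fun w u s => P.lbExists_label p q W.q0 F'.om0 hle hk w u s,
    fun w z => P.lbSpr_le p q W.q0 F'.om0 F'.om1 hle F.av0 F.bv0 hk h hh w z⟩

end MP668cf7.Sep
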