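import Pool.Agent.Lib.MP_668cf7_lc.Sep.Spec

/-!
# Module 14: marginalisation of product weights
-/

namespace MP668cf7.Sep

open Finset

theorem stMarg : StMarg := by
  classical
  intro ι _ ω hω L j e he F
  let C := {a : Fin L // a ∉ Set.range e}
  let σ : Fin j ⊕ C ≃ Fin L :=
    (Equiv.sumCongr (Equiv.ofInjective e he) (Equiv.refl _)).trans (Equiv.Set.sumCompl (Set.range e))
  have hσl : ∀ i, σ (Sum.inl i) = e i := fun i => rfl
  let Φ : (Fin j → ι) × (C → ι) ≃ (Fin L → ι) :=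
    (Equiv.sumArrowEquivProdArrow (Fin j) C ι).symm.trans (Equiv.arrowCongr σ (Equiv.refl ι))
  have hΦ : ∀ z : (Fin j → ι) × (C → ι), ∀ c, Φ z (σ c) = Sum.elim z.1 z.2 c := by
    intro z c
    simp [Φ, Equiv.sumArrowEquivProdArrow]
  rw [← Equiv.sum_comp Φ, Fintype.sum_prod_type]
  refine Finset.sum_congr rfl fun f _ => ?_
  have h1 : ∀ g : C → ι, (∏ a, ω (Φ (f, g) a)) * F (fun i => Φ (f, g) (e i)) =
      ((∏ a, ω (f a)) * F f) * ∏ a, ω (g a) := by
    intro g
    have h2 : ∏ a, ω (Φ (f, g) a) = (∏ a, ω (f a)) * ∏ a, ω (g a) := by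
      rw [← Equiv.prod_comp σ, Fintype.prod_sum_type]
      congr 1
      · exact Finset.prod_congr rfl fun a _ => by rw [hΦ]; rfl
      · exact Finset.prod_congr rfl fun a _ => by rw [hΦ]; rfl
    have h3 : (fun i => Φ (f, g) (e i)) = f := by
      funext i
      rw [← hσl, hΦ]; rfl
    rw [h2, h3]
    ring
  rw [Finset.sum_congr rfl fun g _ => h1 g, ← Finset.mul_sum]
  have h4 : ∑ g : C → ι, ∏ a, ω (g a) = 1 := by
    have := Finset.prod_univ_sum (fun _ : C => (Finset.univ : Finset ι)) (fun _ i => ω i)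
    rw [Fintype.piFinset_univ] at this
    rw [← this]
    simp [hω]
  rw [h4, mul_one]

end MP668cf7.Sep
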