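import Pool.Agent.Lib.MP_668cf7_lc.Sep.Spec

/-! Module 10: masses of the exceptional events. -/

namespace MP668cf7.Sep

open Finset

namespace MassX

lemma pairs_le (l : ℕ) :
    2 * ((univ.filter fun z : Fin l × Fin l => z.1 < z.2).card) ≤ l ^ 2 := by
  have h1 : (univ.filter fun z : Fin l × Fin l => z.1 < z.2).card =
      (univ.filter fun z : Fin l × Fin l => z.2 < z.1).card := by
    apply Finset.card_bij (fun z _ => z.swap)
    · intro z hz
      simp only [mem_filter, mem_univ, true_and, Prod.fst_swap, Prod.snd_swap] at hz ⊢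
      exact hz
    · intro z _ z' _ h
      exact Prod.swap_injective h
    · intro z hz
      refine ⟨z.swap, ?_, Prod.swap_swap z⟩
      simp only [mem_filter, mem_univ, true_and, Prod.fst_swap, Prod.snd_swap] at hz ⊢
      exact hz
  have h2 : Disjoint (univ.filter fun z : Fin l × Fin l => z.1 < z.2)
      (univ.filter fun z : Fin l × Fin l => z.2 < z.1) := by
    rw [Finset.disjoint_filter]
    intro z _ h h'
    exact lt_asymm h h'
  have h3 := Finset.card_le_univ ((univ.filter fun z : Fin l × Fin l => z.1 < z.2) ∪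
      (univ.filter fun z : Fin l × Fin l => z.2 < z.1))
  rw [Finset.card_union_of_disjoint h2, ← h1] at h3
  simp only [Fintype.card_prod, Fintype.card_fin] at h3
  calc _ = (univ.filter fun z : Fin l × Fin l => z.1 < z.2).card +
        (univ.filter fun z : Fin l × Fin l => z.1 < z.2).card := by ring
    _ ≤ l * l := h3
    _ = l ^ 2 := by ring

end MassX

open scoped Classical in
theorem stMass (hB : StBasic) (hL : StLabels) : StMass := by
  intro k N A B U _ _ _ _ P p q η h hW hk hh
  obtain ⟨hb, -⟩ := hB P p q η hW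
  obtain ⟨hsym, hJsym, hcard, -, hspr⟩ := hL P p q η h hW hk hh
  have hc0 : ∀ u, 0 ≤ P.cv p q u := fun u => mul_nonneg (hb.av0 u) (hb.bv0 u)
  have hk0 : (0 : ℝ) ≤ k := Nat.cast_nonneg k
  have hkh : 0 ≤ 2 * (k : ℝ) * h := by positivity
  have hcard' : ∀ w u, P.PP p q w u → ((P.J' p q h w u).card : ℝ) ≤ (k : ℝ) ^ 2 := by
    intro w u hP
    refine le_trans ?_ (hcard w u hP)
    exact_mod_cast Finset.card_le_card Finset.sdiff_subset
  constructor
  · intro l κ
    let Lb : Option U → Option U → Finset (Fin k × Fin N) := fun o o' =>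
      match o, o' with
      | some w', some w'' => if P.PP p q w' w'' then P.J' p q h w' w'' else ∅
      | _, _ => ∅
    have hLb : ∀ o o', ((Lb o o').card : ℝ) ≤ (k : ℝ) ^ 2 := by
      intro o o'
      rcases o with _ | w <;> rcases o' with _ | w'
      · simp only [Lb, Finset.card_empty, Nat.cast_zero]; positivity
      · simp only [Lb, Finset.card_empty, Nat.cast_zero]; positivity
      · simp only [Lb, Finset.card_empty, Nat.cast_zero]; positivity
      · simp only [Lb]
        split_ifs with hP
        · exact hcard' w w' hP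
        · simp only [Finset.card_empty, Nat.cast_zero]; positivity
    let g : Option U → (Fin k × Fin N) → U → ℝ := fun o z u =>
      match o with
      | some w => if z ∉ P.Hv q h w ∧ P.PP p q w u ∧ z ∈ P.J p q w u then P.cv p q u else 0
      | none => 0
    have hg0 : ∀ o z u, 0 ≤ g o z u := by
      intro o z u
      rcases o with _ | w
      · exact le_rfl
      · simp only [g]
        split_ifs
        · exact hc0 u
        · exact le_rfl
    have hgs : ∀ o z, ∑ u, g o z u ≤ 2 * k * h := by
      intro o z
      rcases o with _ | w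
      · simp only [g, Finset.sum_const_zero]; exact hkh
      · by_cases hz : z ∈ P.Hv q h w
        · simp only [g, hz, not_true_eq_false, false_and, if_false, Finset.sum_const_zero]
          exact hkh
        · refine le_trans (le_of_eq ?_) (hspr w z hz)
          unfold Sys.spr
          simp only [g, hz, not_false_eq_true, true_and]
    let prs := univ.filter fun z : Fin l × Fin l => z.1 < z.2
    have hpt : ∀ u, (if P.EE p q h κ u then P.cv p q u else 0) ≤
        ∑ a, ∑ ab ∈ prs, ∑ z ∈ Lb (κ ab.1) (κ ab.2), g (κ a) z u := by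
      intro u
      split_ifs with hE
      · obtain ⟨a, w, ha, hP, a', b', w', w'', hab, ha', hb', hP', z, hz⟩ := hE
        rw [Finset.mem_inter] at hz
        obtain ⟨hz1, hz2⟩ := hz
        have hz3 : z ∈ Lb (κ a') (κ b') := by
          rw [ha', hb']
          simp only [Lb, hP', if_true]
          exact hz2
        have hz1' : z ∈ P.J p q w u ∧ z ∉ P.Hv q h w := by
          unfold Sys.J' at hz1
          rw [Finset.mem_sdiff, Finset.mem_union] at hz1
          exact ⟨hz1.1, fun h' => hz1.2 (Or.inl h')⟩
        have hgv : g (κ a) z u = P.cv p q u := by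
          rw [ha]
          simp only [g]
          rw [if_pos ⟨hz1'.2, hP, hz1'.1⟩]
        rw [← hgv]
        have hm : (a', b') ∈ prs := by
          simp only [prs, mem_filter, mem_univ, true_and]; exact hab
        calc g (κ a) z u ≤ ∑ z ∈ Lb (κ a') (κ b'), g (κ a) z u :=
              Finset.single_le_sum (f := fun z => g (κ a) z u) (fun z _ => hg0 _ z u) hz3
          _ ≤ ∑ ab ∈ prs, ∑ z ∈ Lb (κ ab.1) (κ ab.2), g (κ a) z u :=
              Finset.single_le_sum (f := fun ab : Fin l × Fin l =>
                ∑ z ∈ Lb (κ ab.1) (κ ab.2), g (κ a) z u)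
                (fun ab _ => Finset.sum_nonneg fun z _ => hg0 _ z u) hm
          _ ≤ ∑ a, ∑ ab ∈ prs, ∑ z ∈ Lb (κ ab.1) (κ ab.2), g (κ a) z u :=
              Finset.single_le_sum (f := fun a =>
                ∑ ab ∈ prs, ∑ z ∈ Lb (κ ab.1) (κ ab.2), g (κ a) z u)
                (fun a _ => Finset.sum_nonneg fun ab _ => Finset.sum_nonneg fun z _ => hg0 _ z u)
                (Finset.mem_univ a)
      · exact Finset.sum_nonneg fun a _ => Finset.sum_nonneg fun ab _ =>
          Finset.sum_nonneg fun z _ => hg0 _ z u
    have hpr : (prs.card : ℝ) ≤ (l : ℝ) ^ 2 / 2 := by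
      have h1 := MassX.pairs_le l
      have h2 : (2 : ℝ) * prs.card ≤ (l : ℝ) ^ 2 := by exact_mod_cast h1
      linarith
    have hl0 : (0 : ℝ) ≤ l := Nat.cast_nonneg l
    calc P.massE p q h κ ≤ ∑ u, ∑ a, ∑ ab ∈ prs, ∑ z ∈ Lb (κ ab.1) (κ ab.2), g (κ a) z u := by
          unfold Sys.massE
          exact Finset.sum_le_sum fun u _ => hpt u
      _ = ∑ a, ∑ ab ∈ prs, ∑ z ∈ Lb (κ ab.1) (κ ab.2), ∑ u, g (κ a) z u := by
          rw [Finset.sum_comm]
          refine Finset.sum_congr rfl fun a _ => ?_
          rw [Finset.sum_comm]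
          refine Finset.sum_congr rfl fun ab _ => ?_
          rw [Finset.sum_comm]
      _ ≤ ∑ _a : Fin l, ∑ ab ∈ prs, (k : ℝ) ^ 2 * (2 * k * h) := by
          refine Finset.sum_le_sum fun a _ => Finset.sum_le_sum fun ab _ => ?_
          calc ∑ z ∈ Lb (κ ab.1) (κ ab.2), ∑ u, g (κ a) z u
              ≤ ∑ z ∈ Lb (κ ab.1) (κ ab.2), 2 * (k : ℝ) * h :=
                Finset.sum_le_sum fun z _ => hgs _ z
            _ = ((Lb (κ ab.1) (κ ab.2)).card : ℝ) * (2 * k * h) := by
                rw [Finset.sum_const, nsmul_eq_mul]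
            _ ≤ _ := mul_le_mul_of_nonneg_right (hLb _ _) hkh
      _ = (l : ℝ) * ((prs.card : ℝ) * ((k : ℝ) ^ 2 * (2 * k * h))) := by
          rw [Finset.sum_const, Finset.sum_const, nsmul_eq_mul, nsmul_eq_mul, Finset.card_univ,
            Fintype.card_fin]
      _ ≤ (l : ℝ) * ((l : ℝ) ^ 2 / 2 * ((k : ℝ) ^ 2 * (2 * k * h))) := by gcongr
      _ = (l : ℝ) ^ 3 * (k : ℝ) ^ 3 * h := by ring
  · have hk1 : (1 : ℝ) ≤ k := by exact_mod_cast hk
    have hkpos : (0 : ℝ) < k := by linarith
    have hmC0 : ∀ w1 w2, 0 ≤ P.massC p q h w1 w2 := by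
      intro w1 w2
      unfold Sys.massC
      refine Finset.sum_nonneg fun u _ => ?_
      split_ifs
      · exact hc0 u
      · exact le_rfl
    -- the inner sums
    have hin : ∀ w1 u, (∑ w2, if P.Coll p q h w1 w2 u then P.cv p q w2 else 0) ≤
        2 * (k : ℝ) ^ 3 * h := by
      intro w1 u
      by_cases hP : P.PP p q w1 u
      · have hpt : ∀ w2, (if P.Coll p q h w1 w2 u then P.cv p q w2 else 0) ≤
            ∑ z ∈ P.J' p q h w1 u,
              if P.PP p q u w2 ∧ z ∈ P.J p q u w2 then P.cv p q w2 else 0 := by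
          intro w2
          have hnn : ∀ z, 0 ≤ (if P.PP p q u w2 ∧ z ∈ P.J p q u w2 then P.cv p q w2 else 0) := by
            intro z
            split_ifs
            · exact hc0 w2
            · exact le_rfl
          split_ifs with hC
          · obtain ⟨-, hP2, z, hz⟩ := hC
            rw [Finset.mem_inter] at hz
            have hz2 : z ∈ P.J p q w2 u := by
              have := hz.2
              unfold Sys.J' at this
              exact (Finset.mem_sdiff.mp this).1
            calc P.cv p q w2 = if P.PP p q u w2 ∧ z ∈ P.J p q u w2 then P.cv p q w2 else 0 := by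
                  rw [if_pos ⟨(hsym _ _).mp hP2, by rw [hJsym u w2]; exact hz2⟩]
              _ ≤ _ := Finset.single_le_sum (f := fun z =>
                  if P.PP p q u w2 ∧ z ∈ P.J p q u w2 then P.cv p q w2 else 0)
                  (fun z _ => hnn z) hz.1
          · exact Finset.sum_nonneg fun z _ => hnn z
        calc (∑ w2, if P.Coll p q h w1 w2 u then P.cv p q w2 else 0)
            ≤ ∑ w2, ∑ z ∈ P.J' p q h w1 u,
              if P.PP p q u w2 ∧ z ∈ P.J p q u w2 then P.cv p q w2 else 0 :=
              Finset.sum_le_sum fun w2 _ => hpt w2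
          _ = ∑ z ∈ P.J' p q h w1 u, P.spr p q u z := by
              rw [Finset.sum_comm]; rfl
          _ ≤ ∑ z ∈ P.J' p q h w1 u, 2 * (k : ℝ) * h := by
              refine Finset.sum_le_sum fun z hz => hspr u z ?_
              unfold Sys.J' at hz
              rw [Finset.mem_sdiff, Finset.mem_union] at hz
              exact fun h' => hz.2 (Or.inr h')
          _ = ((P.J' p q h w1 u).card : ℝ) * (2 * k * h) := by
              rw [Finset.sum_const, nsmul_eq_mul]
          _ ≤ (k : ℝ) ^ 2 * (2 * k * h) := mul_le_mul_of_nonneg_right (hcard' w1 u hP) hkh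
          _ = _ := by ring
      · have : ∀ w2, (if P.Coll p q h w1 w2 u then P.cv p q w2 else 0) = 0 := by
          intro w2
          rw [if_neg]
          exact fun hC => hP hC.1
        rw [Finset.sum_eq_zero fun w2 _ => this w2]
        positivity
    have hmk : ∀ w1 w2, (if 1 / (k : ℝ) ≤ P.massC p q h w1 w2 then
        P.cv p q w1 * P.cv p q w2 else 0) ≤
        k * (P.cv p q w1 * P.cv p q w2 * P.massC p q h w1 w2) := by
      intro w1 w2
      have hcc : 0 ≤ P.cv p q w1 * P.cv p q w2 := mul_nonneg (hc0 _) (hc0 _)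
      split_ifs with hF
      · have h1 : 1 ≤ k * P.massC p q h w1 w2 := by
          rw [div_le_iff₀ hkpos] at hF
          linarith
        calc P.cv p q w1 * P.cv p q w2 = P.cv p q w1 * P.cv p q w2 * 1 := by ring
          _ ≤ P.cv p q w1 * P.cv p q w2 * (k * P.massC p q h w1 w2) :=
              mul_le_mul_of_nonneg_left h1 hcc
          _ = _ := by ring
      · have := hmC0 w1 w2
        positivity
    calc P.massF p q h ≤ ∑ w1, ∑ w2, k * (P.cv p q w1 * P.cv p q w2 * P.massC p q h w1 w2) := by
          unfold Sys.massF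
          exact Finset.sum_le_sum fun w1 _ => Finset.sum_le_sum fun w2 _ => hmk w1 w2
      _ = ∑ w1, ∑ u, k * (P.cv p q w1 * P.cv p q u *
            ∑ w2, if P.Coll p q h w1 w2 u then P.cv p q w2 else 0) := by
          refine Finset.sum_congr rfl fun w1 _ => ?_
          have e1 : ∀ w2, (k : ℝ) * (P.cv p q w1 * P.cv p q w2 * P.massC p q h w1 w2) =
              ∑ u, k * (P.cv p q w1 * P.cv p q u *
                if P.Coll p q h w1 w2 u then P.cv p q w2 else 0) := by
            intro w2
            unfold Sys.massC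
            rw [Finset.mul_sum, Finset.mul_sum]
            refine Finset.sum_congr rfl fun u _ => ?_
            split_ifs <;> ring
          rw [Finset.sum_congr rfl fun w2 _ => e1 w2, Finset.sum_comm]
          refine Finset.sum_congr rfl fun u _ => ?_
          rw [Finset.mul_sum, Finset.mul_sum]
      _ ≤ ∑ w1, ∑ u, k * (P.cv p q w1 * P.cv p q u * (2 * (k : ℝ) ^ 3 * h)) := by
          refine Finset.sum_le_sum fun w1 _ => Finset.sum_le_sum fun u _ => ?_
          exact mul_le_mul_of_nonneg_left (mul_le_mul_of_nonneg_left (hin w1 u)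
            (mul_nonneg (hc0 _) (hc0 _))) hk0
      _ = 2 * (k : ℝ) ^ 4 * h * P.zz p q ^ 2 := by
          unfold Sys.zz
          rw [pow_two (∑ u, P.cv p q u), Finset.sum_mul_sum, Finset.mul_sum]
          refine Finset.sum_congr rfl fun w1 _ => ?_
          rw [Finset.mul_sum]
          refine Finset.sum_congr rfl fun u _ => ?_
          ring

end MP668cf7.Sep
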