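import Pool.Agent.Lib.MP_668cf7_lc.Sep.Spec

/-!
# From a ZAM protocol to a system
-/

namespace MP668cf7.Sep

open Finset

/-- The number of meeting pairs. -/
theorem meet_count (k N : ℕ) (hN : 0 < N) :
    ((univ.filter fun z : (Fin k → Fin N) × (Fin k → Fin N) => Meet z.1 z.2).card : ℝ) ≤
      (k : ℝ) / N * ((Fintype.card (Fin k → Fin N) : ℝ) * Fintype.card (Fin k → Fin N)) := by
  classical
  have h1 : ∀ b : Fin k, N * (univ.filter fun z : (Fin k → Fin N) × (Fin k → Fin N) =>
      z.1 b = z.2 b).card ≤ Fintype.card (Fin k → Fin N) * Fintype.card (Fin k → Fin N) := by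
    intro b
    set E := univ.filter fun z : (Fin k → Fin N) × (Fin k → Fin N) => z.1 b = z.2 b with hE
    have h2 : (E ×ˢ (univ : Finset (Fin N))).card ≤
        (univ : Finset ((Fin k → Fin N) × (Fin k → Fin N))).card := by
      apply Finset.card_le_card_of_injOn
        (fun z => (z.1.1, Function.update z.1.2 b z.2)) (fun _ _ => mem_coe.2 (mem_univ _))
      rintro ⟨⟨x, y⟩, j⟩ hz ⟨⟨x', y'⟩, j'⟩ hz' h
      simp only [Prod.mk.injEq] at h
      obtain ⟨rfl, h⟩ := h
      have e1 : x b = y b := by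
        have := (mem_product.1 (mem_coe.1 hz)).1
        simpa [hE] using this
      have e2 : x b = y' b := by
        have := (mem_product.1 (mem_coe.1 hz')).1
        simpa [hE] using this
      have e3 : j = j' := by
        have := congrFun h b
        simpa using this
      subst e3
      have e4 : y = y' := by
        funext c
        by_cases hc : c = b
        · subst hc
          rw [← e1, ← e2]
        · have := congrFun h c
          simpa [Function.update_of_ne hc] using this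
      rw [e4]
    rw [card_product, card_univ, Fintype.card_fin, card_univ, Fintype.card_prod, mul_comm] at h2
    exact h2
  have h2 : (univ.filter fun z : (Fin k → Fin N) × (Fin k → Fin N) => Meet z.1 z.2).card ≤
      ∑ b : Fin k, (univ.filter fun z : (Fin k → Fin N) × (Fin k → Fin N) => z.1 b = z.2 b).card := by
    have h3 : (univ.filter fun z : (Fin k → Fin N) × (Fin k → Fin N) => Meet z.1 z.2) ⊆
        univ.biUnion fun b : Fin k =>
          univ.filter fun z : (Fin k → Fin N) × (Fin k → Fin N) => z.1 b = z.2 b := by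
      intro z hz
      obtain ⟨b, hb⟩ := (mem_filter.1 hz).2
      exact mem_biUnion.2 ⟨b, mem_univ _, mem_filter.2 ⟨mem_univ _, hb⟩⟩
    exact (card_le_card h3).trans card_biUnion_le
  have h3 : N * (univ.filter fun z : (Fin k → Fin N) × (Fin k → Fin N) => Meet z.1 z.2).card ≤
      k * (Fintype.card (Fin k → Fin N) * Fintype.card (Fin k → Fin N)) := by
    calc N * (univ.filter fun z : (Fin k → Fin N) × (Fin k → Fin N) => Meet z.1 z.2).card
        ≤ N * ∑ b : Fin k,
          (univ.filter fun z : (Fin k → Fin N) × (Fin k → Fin N) => z.1 b = z.2 b).card :=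
          Nat.mul_le_mul_left _ h2
      _ = ∑ b : Fin k, N *
          (univ.filter fun z : (Fin k → Fin N) × (Fin k → Fin N) => z.1 b = z.2 b).card := by
          rw [mul_sum]
      _ ≤ ∑ b : Fin k, Fintype.card (Fin k → Fin N) * Fintype.card (Fin k → Fin N) :=
          sum_le_sum fun b _ => h1 b
      _ = _ := by simp
  have hN' : (0 : ℝ) < N := by exact_mod_cast hN
  rw [div_mul_eq_mul_div, le_div_iff₀ hN', mul_comm]
  exact_mod_cast h3

/-- A common non-meeting vector. -/
theorem exists_notMeet {k N : ℕ} (hN : 3 ≤ N) (x x' : Fin k → Fin N) :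
    ∃ y, ¬ Meet x y ∧ ¬ Meet x' y := by
  classical
  have h : ∀ b, ∃ z : Fin N, z ≠ x b ∧ z ≠ x' b := by
    intro b
    by_contra hcon
    push Not at hcon
    have h1 : (univ : Finset (Fin N)) ⊆ {x b, x' b} := by
      intro z _
      by_cases hz : z = x b
      · simp [hz]
      · simp [hcon z hz]
    have h2 := (card_le_card h1).trans (card_le_two)
    rw [card_univ, Fintype.card_fin] at h2
    omega
  choose y hy hy' using h
  exact ⟨y, fun ⟨b, hb⟩ => hy b hb.symm, fun ⟨b, hb⟩ => hy' b hb.symm⟩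

theorem fkN_eq {k N : ℕ} (x y : Fin k → Fin N) : fkN k N x y = true ↔ ¬ Meet x y := by
  unfold fkN
  simp

theorem fkN_eq' {k N : ℕ} (x y : Fin k → Fin N) : fkN k N x y = false ↔ Meet x y := by
  unfold fkN
  simp

theorem stRoot : StRoot := by
  intro k N hN Pr hPr
  classical
  have := Pr.finR
  have := Pr.finQ
  have := Pr.nonR
  have := Pr.nonQ
  letI : Fintype Pr.R := Fintype.ofFinite _
  letI : Fintype Pr.Q := Fintype.ofFinite _
  -- the counts
  obtain ⟨NA, hNA⟩ : ∃ NA : Fin Pr.m → (Fin k → Fin N) → ℕ,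
      ∀ i x, NA i x = Nat.card {r : Pr.R // (x, r) ∈ Pr.A i} := ⟨_, fun _ _ => rfl⟩
  obtain ⟨NB, hNB⟩ : ∃ NB : Fin Pr.m → (Fin k → Fin N) → ℕ,
      ∀ i y, NB i y = Nat.card {q : Pr.Q // (y, q) ∈ Pr.B i} := ⟨_, fun _ _ => rfl⟩
  have hcard : ∀ x y i, Nat.card {c : Pr.R × Pr.Q // Pr.InRect x y i c} = NA i x * NB i y := by
    intro x y i
    rw [hNA, hNB, ← Nat.card_prod]
    exact Nat.card_congr (Equiv.subtypeProdEquivProd (p := fun r : Pr.R => (x, r) ∈ Pr.A i)
      (q := fun q : Pr.Q => (y, q) ∈ Pr.B i))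
  have hpos : (0 : ℝ) < (Nat.card (Pr.R × Pr.Q) : ℝ) := by
    exact_mod_cast Nat.card_pos
  have hRQ : Nat.card (Pr.R × Pr.Q) = Fintype.card Pr.R * Fintype.card Pr.Q := by
    rw [Nat.card_eq_fintype_card, Fintype.card_prod]
  have hzero : ∀ x y x' y', ¬ Meet x y → ¬ Meet x' y' → ∀ i, NA i x * NB i y = NA i x' * NB i y' := by
    intro x y x' y' h h' i
    have h1 := hPr.zeroInfo x y x' y' ((fkN_eq _ _).2 h) ((fkN_eq _ _).2 h') i
    unfold AMProtocol.prob at h1
    rw [div_left_inj' hpos.ne', hcard, hcard] at h1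
    exact_mod_cast h1
  have hacc : ∀ x y, ¬ Meet x y → ∀ c, Pr.Accepts x y c := by
    intro x y h c
    have h1 := hPr.complete x y ((fkN_eq _ _).2 h)
    unfold AMProtocol.prob at h1
    rw [div_eq_one_iff_eq hpos.ne'] at h1
    have h2 : Nat.card {c : Pr.R × Pr.Q // Pr.Accepts x y c} = Nat.card (Pr.R × Pr.Q) := by
      exact_mod_cast h1
    rw [Nat.card_eq_fintype_card, Nat.card_eq_fintype_card, Fintype.card_subtype,
      card_eq_iff_eq_univ] at h2
    have h3 : c ∈ univ.filter fun c => Pr.Accepts x y c := by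
      rw [h2]
      exact mem_univ _
    exact (mem_filter.1 h3).2
  obtain ⟨y0, hy0, -⟩ := exists_notMeet hN (fun _ : Fin k => (⟨0, by omega⟩ : Fin N))
    (fun _ : Fin k => (⟨0, by omega⟩ : Fin N))
  set x0 : Fin k → Fin N := fun _ : Fin k => (⟨0, by omega⟩ : Fin N) with hx0
  obtain ⟨D, hD⟩ : ∃ D : Fin Pr.m → ℕ, ∀ i, D i = NA i x0 * NB i y0 := ⟨_, fun _ => rfl⟩
  have hD1 : ∀ x y, ¬ Meet x y → ∀ i, NA i x * NB i y = D i := by
    intro x y h i
    rw [hD]
    exact hzero x y x0 y0 h hy0 i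
  have hA : ∀ i, 0 < D i → ∀ x x', NA i x = NA i x' := by
    intro i hi x x'
    obtain ⟨y, h, h'⟩ := exists_notMeet hN x x'
    have h1 := hD1 x y h i
    have h2 := hD1 x' y h' i
    have h3 : 0 < NB i y := by
      rcases Nat.eq_zero_or_pos (NB i y) with h0 | h0
      · rw [h0, mul_zero] at h1
        omega
      · exact h0
    exact Nat.eq_of_mul_eq_mul_right h3 (h1.trans h2.symm)
  have hB : ∀ i, 0 < D i → ∀ y y', NB i y = NB i y' := by
    intro i hi y y'
    obtain ⟨x, h, h'⟩ := exists_notMeet hN y y'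
    have h1 := hD1 x y (fun hm => h ((meet_comm _ _).1 hm)) i
    have h2 := hD1 x y' (fun hm => h' ((meet_comm _ _).1 hm)) i
    have h3 : 0 < NA i x := by
      rcases Nat.eq_zero_or_pos (NA i x) with h0 | h0
      · rw [h0, zero_mul] at h1
        omega
      · exact h0
    exact Nat.eq_of_mul_eq_mul_left h3 (h1.trans h2.symm)
  have hD2 : ∀ i, 0 < D i → ∀ x y, NA i x * NB i y = D i := by
    intro i hi x y
    rw [hD, hA i hi x x0, hB i hi y y0]
  -- the sets
  obtain ⟨S, hS⟩ : ∃ S : (Fin k → Fin N) × Pr.R → Finset (Fin Pr.m),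
      ∀ s i, i ∈ S s ↔ 0 < D i ∧ s ∈ Pr.A i :=
    ⟨fun s => univ.filter fun i => 0 < D i ∧ s ∈ Pr.A i, fun s i => by simp⟩
  obtain ⟨T, hT⟩ : ∃ T : (Fin k → Fin N) × Pr.Q → Finset (Fin Pr.m),
      ∀ s i, i ∈ T s ↔ 0 < D i ∧ s ∈ Pr.B i :=
    ⟨fun s => univ.filter fun i => 0 < D i ∧ s ∈ Pr.B i, fun s i => by simp⟩
  have hone : ∀ (s : (Fin k → Fin N) × Pr.R) (t : (Fin k → Fin N) × Pr.Q), ¬ Meet s.1 t.1 →
      (S s ∩ T t).card = 1 := by
    rintro ⟨x, r⟩ ⟨y, q⟩ h
    obtain ⟨i, hi⟩ := hacc x y h (r, q)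
    have hDi : 0 < D i := by
      rw [← hD1 x y h i, ← hcard x y i]
      have : Nonempty {c : Pr.R × Pr.Q // Pr.InRect x y i c} := ⟨⟨(r, q), hi⟩⟩
      exact Nat.card_pos
    rw [card_eq_one]
    refine ⟨i, ?_⟩
    ext j
    rw [mem_inter, hS, hT, mem_singleton]
    constructor
    · rintro ⟨⟨_, h1⟩, ⟨_, h2⟩⟩
      exact hPr.unambiguous x y ((fkN_eq _ _).2 h) (r, q) j i ⟨h1, h2⟩ hi
    · rintro rfl
      exact ⟨⟨hDi, hi.1⟩, ⟨hDi, hi.2⟩⟩
  have hsum : ∀ x y, ∑ c : Pr.R × Pr.Q, (S (x, c.1) ∩ T (y, c.2)).card = ∑ i, D i := by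
    intro x y
    have h1 : ∀ c : Pr.R × Pr.Q, (S (x, c.1) ∩ T (y, c.2)).card =
        ∑ i, if i ∈ S (x, c.1) ∩ T (y, c.2) then 1 else 0 := by
      intro c
      rw [sum_boole, filter_mem_eq_inter, univ_inter]
      rfl
    simp_rw [h1]
    rw [sum_comm]
    apply sum_congr rfl
    intro i _
    rw [sum_boole]
    rcases Nat.eq_zero_or_pos (D i) with h0 | h0
    · rw [h0]
      have : (univ.filter fun c : Pr.R × Pr.Q => i ∈ S (x, c.1) ∩ T (y, c.2)) = ∅ := by
        apply filter_false_of_mem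
        intro c _ hc
        rw [mem_inter, hS] at hc
        have := hc.1.1
        omega
      rw [this]
      simp
    · rw [← hD2 i h0 x y, ← hcard x y i, Nat.card_eq_fintype_card, Fintype.card_subtype]
      have : (univ.filter fun c : Pr.R × Pr.Q => i ∈ S (x, c.1) ∩ T (y, c.2)) =
          univ.filter fun c : Pr.R × Pr.Q => Pr.InRect x y i c := by
        ext c
        simp only [mem_filter, mem_univ, true_and]
        rw [mem_inter, hS, hT]
        exact ⟨fun h => ⟨h.1.2, h.2.2⟩, fun h => ⟨⟨h0, h.1⟩, ⟨h0, h.2⟩⟩⟩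
      rw [this]
      rfl
  have hDsum : ∑ i, D i = Fintype.card Pr.R * Fintype.card Pr.Q := by
    rw [← hsum x0 y0]
    have : ∀ c : Pr.R × Pr.Q, (S (x0, c.1) ∩ T (y0, c.2)).card = 1 := fun c => hone _ _ hy0
    simp [this]
  set r : ℝ := (Fintype.card Pr.R : ℝ) with hr
  set q : ℝ := (Fintype.card Pr.Q : ℝ) with hq
  set X : ℝ := (Fintype.card (Fin k → Fin N) : ℝ) with hX
  have hr0 : 0 ≤ r := by positivity
  have hq0 : 0 ≤ q := by positivity
  have hsum' : ∀ x y, ∑ a : Pr.R, ∑ b : Pr.Q, ((S (x, a) ∩ T (y, b)).card : ℝ) = r * q := by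
    intro x y
    rw [← Fintype.sum_prod_type']
    have := hsum x y
    rw [hDsum] at this
    rw [hr, hq]
    exact_mod_cast this
  have hswap : ∀ F : (Fin k → Fin N) × Pr.R → (Fin k → Fin N) × Pr.Q → ℝ,
      ∑ s, ∑ t, F s t = ∑ x, ∑ y, ∑ a, ∑ b, F (x, a) (y, b) := by
    intro F
    rw [Fintype.sum_prod_type]
    apply sum_congr rfl
    intro x _
    simp_rw [Fintype.sum_prod_type]
    rw [sum_comm]
  have hmc := meet_count k N (by omega)
  have hmc' : (∑ x : Fin k → Fin N, ∑ y : Fin k → Fin N, if Meet x y then (1 : ℝ) else 0) ≤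
      (k : ℝ) / N * (X * X) := by
    rw [← Fintype.sum_prod_type', sum_boole]
    exact hmc
  refine ⟨Pr.R, Pr.Q, inferInstance, inferInstance, Pr.nonR, Pr.nonQ,
    ⟨fun s => s.1, fun t => t.1, S, T, hone⟩, fun _ => rfl, fun _ => rfl, ?_, ?_, ?_⟩
  · unfold Sys.Zr
    rw [hswap]
    simp only [hsum']
    simp only [sum_const, card_univ, nsmul_eq_mul, Fintype.card_prod, Nat.cast_mul]
    ring
  · unfold Sys.Yr
    rw [hswap]
    have h1 : ∀ x y : Fin k → Fin N, (∑ a : Pr.R, ∑ b : Pr.Q,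
        if Meet x y then (((S (x, a) ∩ T (y, b)).card : ℝ) + 1) else 0) =
        2 * (r * q) * if Meet x y then 1 else 0 := by
      intro x y
      by_cases h : Meet x y
      · simp only [if_pos h, sum_add_distrib, hsum']
        simp only [sum_const, card_univ, nsmul_eq_mul]
        rw [← hr, ← hq]
        ring
      · simp only [if_neg h]
        simp
    calc _ = ∑ x : Fin k → Fin N, ∑ y : Fin k → Fin N, 2 * (r * q) * (if Meet x y then 1 else 0) :=
          sum_congr rfl fun x _ => sum_congr rfl fun y _ => h1 x y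
      _ = 2 * (r * q) * ∑ x : Fin k → Fin N, ∑ y : Fin k → Fin N, if Meet x y then (1 : ℝ) else 0 := by
          simp_rw [mul_sum]
      _ ≤ 2 * (r * q) * ((k : ℝ) / N * (X * X)) :=
          mul_le_mul_of_nonneg_left hmc' (by positivity)
      _ = _ := by
          rw [Fintype.card_prod, Fintype.card_prod]
          push_cast
          rw [← hr, ← hq, ← hX]
          ring
  · unfold Sys.Gr
    rw [hswap]
    have h1 : ∀ x y : Fin k → Fin N, (∑ a : Pr.R, ∑ b : Pr.Q,
        if Meet x y ∧ (S (x, a) ∩ T (y, b)).Nonempty then (1 : ℝ) else 0) ≤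
        1 / 2 * (r * q) * if Meet x y then 1 else 0 := by
      intro x y
      by_cases h : Meet x y
      · simp only [h, true_and, if_true, mul_one]
        rw [← Fintype.sum_prod_type', sum_boole]
        have h2 := hPr.sound x y ((fkN_eq' _ _).2 h)
        unfold AMProtocol.prob at h2
        rw [div_le_iff₀ hpos, hRQ, Nat.card_eq_fintype_card, Fintype.card_subtype] at h2
        push_cast at h2
        rw [← hr, ← hq] at h2
        refine le_trans ?_ h2
        have h3 : (univ.filter fun c : Pr.R × Pr.Q => (S (x, c.1) ∩ T (y, c.2)).Nonempty) ⊆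
            univ.filter fun c : Pr.R × Pr.Q => Pr.Accepts x y c := by
          intro c hc
          obtain ⟨i, hi⟩ := (mem_filter.1 hc).2
          rw [mem_inter, hS, hT] at hi
          exact mem_filter.2 ⟨mem_univ _, i, hi.1.2, hi.2.2⟩
        exact_mod_cast card_le_card h3
      · simp [h]
    calc _ ≤ ∑ x : Fin k → Fin N, ∑ y : Fin k → Fin N,
            1 / 2 * (r * q) * (if Meet x y then 1 else 0) :=
          sum_le_sum fun x _ => sum_le_sum fun y _ => h1 x y
      _ = 1 / 2 * (r * q) * ∑ x : Fin k → Fin N, ∑ y : Fin k → Fin N,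
            if Meet x y then (1 : ℝ) else 0 := by
          simp_rw [mul_sum]
      _ ≤ 1 / 2 * (r * q) * ((k : ℝ) / N * (X * X)) :=
          mul_le_mul_of_nonneg_left hmc' (by positivity)
      _ = _ := by
          rw [Fintype.card_prod, Fintype.card_prod]
          push_cast
          rw [← hr, ← hq, ← hX]
          ring

end MP668cf7.Sep
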