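import Pool.Agent.Lib.MP_668cf7_lc.Sep.Spec

/-!
# Module 16 (World Lemma): numerics
-/

namespace MP668cf7.Sep

open Finset

theorem world_sum (K : ℝ) (hK : 0 < K) (n : ℕ) :
    46 / 100 * ((n : ℝ) * (n - 1)) - (n : ℝ) ^ 3 / (48 * K) - 40 * n ≤
      ∑ l ∈ range n, (92 / 100 * (l : ℝ) - (l : ℝ) ^ 2 / (16 * K) - 40) := by
  induction n with
  | zero => simp
  | succ n ih =>
    rw [sum_range_succ]
    have h1 : ((n + 1 : ℕ) : ℝ) ^ 3 / (48 * K) =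
        (n : ℝ) ^ 3 / (48 * K) + (n : ℝ) ^ 2 / (16 * K) + (3 * n + 1) / (48 * K) := by
      push_cast
      field_simp
      ring
    have h2 : 0 ≤ (3 * (n : ℝ) + 1) / (48 * K) := by positivity
    rw [h1]
    push_cast
    nlinarith

theorem world_term (K l pG pC pE : ℝ) (hK : 10000 ≤ K) (hl1 : 1 ≤ l) (hl2 : l ≤ 2 * K)
    (hG : 92 / 100 ≤ pG) (hC : pC ≤ 3 / (40 * K) + 18 / K ^ 2)
    (hE : pE ≤ l / (40 * K) + 2 * l ^ 3 / K ^ 6) :
    92 / 100 * l - l ^ 2 / (16 * K) - 40 ≤ l * pG - l * (l - 1) / 2 * pC - l * pE := by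
  have hK0 : 0 < K := by linarith
  have e1 : 92 / 100 * l ≤ l * pG := by nlinarith
  have e2 : l * (l - 1) / 2 * pC ≤ l * (l - 1) / 2 * (3 / (40 * K) + 18 / K ^ 2) := by
    apply mul_le_mul_of_nonneg_left hC
    have : 0 ≤ l * (l - 1) := mul_nonneg (by linarith) (by linarith)
    linarith
  have e3 : l * pE ≤ l * (l / (40 * K) + 2 * l ^ 3 / K ^ 6) :=
    mul_le_mul_of_nonneg_left hE (by linarith)
  have e4 : l * (l - 1) / 2 * (3 / (40 * K) + 18 / K ^ 2) ≤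
      l ^ 2 / 2 * (3 / (40 * K) + 18 / K ^ 2) := by
    apply mul_le_mul_of_nonneg_right _ (by positivity)
    nlinarith
  have e5 : l ^ 2 / 2 * (3 / (40 * K) + 18 / K ^ 2) + l * (l / (40 * K) + 2 * l ^ 3 / K ^ 6) =
      l ^ 2 / (16 * K) + 9 * (l / K) ^ 2 + 2 * (l / K) ^ 4 * (1 / K ^ 2) := by
    field_simp
    ring
  have e6 : l / K ≤ 2 := by
    rw [div_le_iff₀ hK0]
    exact hl2
  have e7 : 0 ≤ l / K := by positivity
  have e8 : (l / K) ^ 2 ≤ 4 := by nlinarith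
  have e9 : (l / K) ^ 4 ≤ 16 := by
    have : (l / K) ^ 4 = ((l / K) ^ 2) ^ 2 := by ring
    rw [this]
    nlinarith [sq_nonneg (l / K)]
  have e10 : 1 / K ^ 2 ≤ 1 / 100 := by
    apply one_div_le_one_div_of_le (by norm_num)
    nlinarith
  have e11 : (l / K) ^ 4 * (1 / K ^ 2) ≤ 16 * (1 / 100) :=
    mul_le_mul e9 e10 (by positivity) (by norm_num)
  linarith

theorem world_final (K : ℝ) (hK : 10000 ≤ K)
    (h : 46 / 100 * (2 * K * (2 * K - 1)) - (2 * K) ^ 3 / (48 * K) - 40 * (2 * K) ≤ K ^ 2) :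
    False := by
  have hK0 : 0 < K := by linarith
  have e6 : (2 * K) ^ 3 / (48 * K) = K ^ 2 / 6 := by
    field_simp
    norm_num
  rw [e6] at h
  nlinarith

theorem world_pG (K z pG η s1 s2 : ℝ) (hη0 : 0 ≤ η) (hη : η ≤ 1 / 10000)
    (hz : z ≤ 1 + η) (hK2 : 1 / K ^ 2 ≤ 1 / 10000)
    (hs1 : s1 ≤ 16 / 10000) (hs2 : s2 ≤ 16 / 10000)
    (hG : 1 - 2 * η - 2 * (1 / K ^ 2) - (20 * (s1 + s2) + η) - 2 * (2 * s2 + (1 + z) * η)
      - (2 * s1 + (1 + z) * η) ≤ pG) : 92 / 100 ≤ pG := by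
  have hzη : (1 + z) * η ≤ 3 * η := by
    apply mul_le_mul_of_nonneg_right _ hη0
    linarith
  linarith

theorem world_sqrt (K z g η : ℝ) (hK : 10000 ≤ K) (hη0 : 0 ≤ η) (hη : η ≤ 1 / 10000)
    (hz : z ≤ 1 + η) (hg0 : 0 ≤ g) (hg : g ≤ 1 / (40 * K)) :
    Real.sqrt (z * g) ≤ 16 / 10000 := by
  apply Real.sqrt_le_iff.2
  refine ⟨by norm_num, ?_⟩
  have h3 : 1 / (40 * K) ≤ 1 / 400000 := by
    apply one_div_le_one_div_of_le (by norm_num)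
    linarith
  have h4 : z * g ≤ (1 + η) * (1 / 400000) :=
    mul_le_mul hz (hg.trans h3) hg0 (by linarith)
  nlinarith

theorem stWorld (hBasic : StBasic) (hL1 : StL1) (hGood : StGood) (hBad : StBad)
    (hExp : StExp) : StWorld := by
  intro K hK N A B U _ _ _ _ P p q hW hc
  by_contra hcon
  push Not at hcon
  obtain ⟨h1, h2⟩ := hcon
  have hKr : (10000 : ℝ) ≤ (K : ℝ) := by exact_mod_cast hK
  have hK0 : (0 : ℝ) < (K : ℝ) := by linarith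
  -- powers
  have hpow : ∀ n : ℕ, 1 ≤ n → 1 / (K : ℝ) ^ n ≤ 1 / 10000 := by
    intro n hn
    have : (10000 : ℝ) ≤ (K : ℝ) ^ n := by
      calc (10000 : ℝ) ≤ (K : ℝ) ^ 1 := by simpa using hKr
        _ ≤ (K : ℝ) ^ n := pow_le_pow_right₀ (by linarith) hn
    exact one_div_le_one_div_of_le (by norm_num) this
  obtain ⟨η, hη⟩ : ∃ η : ℝ, η = 1 / (K : ℝ) ^ 28 := ⟨_, rfl⟩
  obtain ⟨h, hh⟩ : ∃ h : ℝ, h = 1 / (K : ℝ) ^ 12 := ⟨_, rfl⟩
  rw [← hη] at hW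
  obtain ⟨bf, hW'⟩ := hBasic P p q _ hW
  have hη0 : 0 < η := by rw [hη]; positivity
  have hh0 : 0 < h := by rw [hh]; positivity
  have hη1 : η ≤ 1 / 10000 := by rw [hη]; exact hpow 28 (by norm_num)
  have hK2 : 1 / (K : ℝ) ^ 2 ≤ 1 / 10000 := hpow 2 (by norm_num)
  have hkη : ((K ^ 2 : ℕ) : ℝ) / h ^ 2 * η = 1 / (K : ℝ) ^ 2 := by
    rw [hh, hη]
    push_cast
    field_simp
  have hk1 : 1 ≤ K ^ 2 := Nat.one_le_pow _ _ (by omega)
  have hz1 : P.zz p q ≤ 1 + η := bf.zz1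
  have hz0 : 0 ≤ P.zz p q := by
    have := bf.zz0
    linarith
  -- square roots
  have hg1 : P.gh p q 1 < 1 / (40 * (K : ℝ)) := by
    have := h1 1 le_rfl (by omega)
    simpa using this
  have hs1 := world_sqrt K (P.zz p q) _ η hKr hη0.le hη1 hz1 ((hL1 P p q _ hW).1 1) hg1.le
  have hs2 := world_sqrt K (P.zz p q) _ η hKr hη0.le hη1 hz1 ((hL1 P.swap q p _ hW').1 1) h2.le
  -- pGood
  have hG := hGood P p q η h hW hc (by linarith) hh0
  rw [hkη] at hG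
  have hpG : 92 / 100 ≤ P.pGood p q h :=
    world_pG K (P.zz p q) _ η _ _ hη0.le hη1 hz1 hK2 hs1 hs2 hG
  clear hG hs1 hs2 hkη
  -- pColl
  have hBd := hBad P p q η h hW hk1 hh0
  have hg2 : P.gh p q 2 < 2 / (40 * (K : ℝ)) := by
    have := h1 2 (by norm_num) (by omega)
    simpa using this
  have hz2 : P.zz p q ^ 2 ≤ 4 := by
    have : P.zz p q ≤ 2 := by linarith
    nlinarith
  have hk4 : 4 * ((K ^ 2 : ℕ) : ℝ) ^ 4 * h * P.zz p q ^ 2 ≤ 16 / (K : ℝ) ^ 4 := by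
    have h5 : 4 * ((K ^ 2 : ℕ) : ℝ) ^ 4 * h = 4 / (K : ℝ) ^ 4 := by
      rw [hh]
      push_cast
      field_simp
    rw [h5]
    have h6 : 4 / (K : ℝ) ^ 4 * P.zz p q ^ 2 ≤ 4 / (K : ℝ) ^ 4 * 4 :=
      mul_le_mul_of_nonneg_left hz2 (by positivity)
    calc _ ≤ _ := h6
      _ = _ := by ring
  have hpC : P.pColl p q h ≤ 3 / (40 * (K : ℝ)) + 18 / (K : ℝ) ^ 2 := by
    have h7 : 16 / (K : ℝ) ^ 4 ≤ 16 / (K : ℝ) ^ 2 := by
      apply div_le_div_of_nonneg_left (by norm_num) (by positivity)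
      exact pow_le_pow_right₀ (by linarith) (by norm_num)
    have h8 := hBd.1
    have h9 : (2 : ℝ) / ((K ^ 2 : ℕ) : ℝ) = 2 / (K : ℝ) ^ 2 := by push_cast; rfl
    rw [h9] at h8
    have h10 : 3 / (40 * (K : ℝ)) = 1 / (40 * (K : ℝ)) + 2 / (40 * (K : ℝ)) := by ring
    have h11 : 18 / (K : ℝ) ^ 2 = 16 / (K : ℝ) ^ 2 + 2 / (K : ℝ) ^ 2 := by ring
    linarith
  -- pE
  have hpE : ∀ l : ℕ, 1 ≤ l → l < 2 * K →
      P.pE p q h l ≤ (l : ℝ) / (40 * K) + 2 * (l : ℝ) ^ 3 / (K : ℝ) ^ 6 := by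
    intro l hl hlK
    have h3 := hBd.2 l
    have h4 := h1 l hl hlK.le
    have h5 : 2 * ((l : ℝ) ^ 3 * ((K ^ 2 : ℕ) : ℝ) ^ 3 * h) = 2 * (l : ℝ) ^ 3 / (K : ℝ) ^ 6 := by
      rw [hh]
      push_cast
      field_simp
    rw [h5] at h3
    linarith
  -- the sum
  have hS := hExp P p q η h hW hk1 hh0 (2 * K)
  have hterm : ∀ l ∈ range (2 * K), 92 / 100 * (l : ℝ) - (l : ℝ) ^ 2 / (16 * K) - 40 ≤
      (l : ℝ) * P.pGood p q h - (l : ℝ) * (l - 1) / 2 * P.pColl p q h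
        - (l : ℝ) * P.pE p q h l := by
    intro l hl
    rw [mem_range] at hl
    rcases Nat.eq_zero_or_pos l with h0 | hpos
    · subst h0
      norm_num
    exact world_term K l _ _ _ hKr (by exact_mod_cast hpos) (by exact_mod_cast hl.le) hpG hpC
      (hpE l hpos hl)
  have hsum := (world_sum K hK0 (2 * K)).trans ((sum_le_sum hterm).trans hS)
  have hc2 : ((2 * K : ℕ) : ℝ) = 2 * (K : ℝ) := by push_cast; ring
  rw [hc2] at hsum
  push_cast at hsum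
  exact world_final K hKr hsum

end MP668cf7.Sep
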