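import Pool.Agent.Lib.MP_668cf7_lc.Sep.CorrB
import Pool.Agent.Lib.MP_668cf7_lc.Sep.KLTools
import Pool.Agent.Lib.MP_668cf7_lc.Sep.Avg
import Pool.Agent.Lib.MP_668cf7_lc.Sep.Drop
import Pool.Agent.Lib.MP_668cf7_lc.Sep.Basic
import Pool.Agent.Lib.MP_668cf7_lc.Sep.L1
import Pool.Agent.Lib.MP_668cf7_lc.Sep.Diag
import Pool.Agent.Lib.MP_668cf7_lc.Sep.Labels
import Pool.Agent.Lib.MP_668cf7_lc.Sep.Hit
import Pool.Agent.Lib.MP_668cf7_lc.Sep.Mass
import Pool.Agent.Lib.MP_668cf7_lc.Sep.Good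
import Pool.Agent.Lib.MP_668cf7_lc.Sep.Bad
import Pool.Agent.Lib.MP_668cf7_lc.Sep.Count
import Pool.Agent.Lib.MP_668cf7_lc.Sep.Marg
import Pool.Agent.Lib.MP_668cf7_lc.Sep.Exp
import Pool.Agent.Lib.MP_668cf7_lc.Sep.World
import Pool.Agent.Lib.MP_668cf7_lc.Sep.Induct
import Pool.Agent.Lib.MP_668cf7_lc.Sep.Root
import Pool.Agent.Lib.MP_668cf7_lc.Sep.Bound
import Pool.Agent.Lib.MP_668cf7_lc.Sep.Embed
import Pool.Agent.Lib.MP_668cf7_lc.Sep.CoNP
import Pool.Agent.Lib.MP_668cf7_lc.Sep.Final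

/-!
# ZAM versus coNP: all modules together
-/

namespace MP668cf7.Sep

theorem bound : StBound := by
  have hBasic : StBasic := @stBasic
  have hL1 : StL1 := @stL1 @hBasic @stKLEvent @stKLTV
  have hDiag : StDiag := @stDiag @hBasic @hL1
  have hLab : StLabels := @stLabels @hBasic
  have hHit : StHit := @stHit @hBasic
  have hMass : StMass := @stMass @hBasic @hLab
  have hGood : StGood := @stGood @hBasic @hL1 @hDiag @hHit
  have hBad : StBad := @stBad @hBasic @hL1 @hMass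
  have hExp : StExp := @stExp @hBasic @hLab @stCount @stMarg
  have hWorld : StWorld := @stWorld @hBasic @hL1 @hGood @hBad @hExp
  have hAvg : StAvg := @stAvg @stKLMix
  have hDrop : StDrop := @stDrop
  have hInd : StInduct := @stInduct @hWorld @hAvg @hDrop
  exact @stBound @stCorr @hInd @stRoot

end MP668cf7.Sep
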