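import Pool.Agent.Lib.MP_668cf7_lc.Sep.Spec

/-!
# Corruption bound, part A: the one-step inequality
-/

namespace MP668cf7.Sep

open Finset

/-- Bernoulli: `x ^ (1 - θ) ≤ 1 + (1 - θ) (x - 1)`. -/
theorem bern (θ x : ℝ) (hθ : 0 ≤ θ) (hθ1 : θ ≤ 1) (hx : 0 ≤ x) :
    x ^ (1 - θ) ≤ 1 + (1 - θ) * (x - 1) := by
  have h := rpow_one_add_le_one_add_mul_self (s := x - 1) (p := 1 - θ) (by linarith)
    (by linarith) (by linarith)
  simpa using h

theorem neg_bern (θ y : ℝ) (hθ : 0 ≤ θ) (hy : 0 < y) : 1 + θ * (1 - y) ≤ y ^ (-θ) := by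
  rw [Real.rpow_def_of_pos hy]
  have h1 := Real.add_one_le_exp (Real.log y * -θ)
  have h2 := Real.log_le_sub_one_of_pos hy
  nlinarith

/-- second order bound on `[0, 1]` -/
theorem bern2 (θ x : ℝ) (hθ : 0 < θ) (hθ1 : θ < 1) (hx : 0 ≤ x) (hx1 : x ≤ 1) :
    x ^ (1 - θ) ≤ 1 + (1 - θ) * (x - 1) - θ * (1 - θ) * (1 - x) ^ 2 / 2 := by
  set f : ℝ → ℝ := fun x => 1 + (1 - θ) * (x - 1) - θ * (1 - θ) * (1 - x) ^ 2 / 2 - x ^ (1 - θ)
    with hf
  have hcont : ContinuousOn f (Set.Icc 0 1) := by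
    apply ContinuousOn.sub
    · fun_prop
    · exact continuousOn_id.rpow_const (fun x _ => Or.inr (by linarith))
  have hder : ∀ y ∈ Set.Ioo (0 : ℝ) 1,
      HasDerivAt f ((1 - θ) * (1 + θ * (1 - y) - y ^ (-θ))) y := by
    intro y hy
    have h1 : HasDerivAt (fun x : ℝ => x ^ (1 - θ)) ((1 - θ) * y ^ ((1 - θ) - 1)) y :=
      Real.hasDerivAt_rpow_const (Or.inl hy.1.ne')
    have h3 : HasDerivAt (fun x : ℝ => (1 - x)) (-1) y := by
      simpa using (hasDerivAt_id y).const_sub 1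
    have h4 : HasDerivAt (fun x : ℝ => (1 - x) ^ 2) (-(2 * (1 - y))) y := by
      have := h3.fun_pow 2
      simpa using this
    have h5 : HasDerivAt (fun x : ℝ => 1 + (1 - θ) * (x - 1)) (1 - θ) y := by
      have := (((hasDerivAt_id y).sub_const 1).const_mul (1 - θ)).const_add 1
      simpa using this
    have h6 : HasDerivAt (fun x : ℝ => θ * (1 - θ) * (1 - x) ^ 2 / 2)
        (θ * (1 - θ) * (-(2 * (1 - y))) / 2) y := (h4.const_mul (θ * (1 - θ))).div_const 2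
    have h7 := (h5.sub h6).sub h1
    have h8 : (1 - θ) * (1 + θ * (1 - y) - y ^ (-θ)) =
        (1 - θ) - (θ * (1 - θ) * (-(2 * (1 - y))) / 2) - (1 - θ) * y ^ ((1 - θ) - 1) := by
      rw [show (1 - θ) - 1 = -θ by ring]
      ring
    rw [h8]
    exact h7
  have hanti : AntitoneOn f (Set.Icc 0 1) := by
    apply antitoneOn_of_deriv_nonpos (convex_Icc 0 1) hcont
    · intro y hy
      rw [interior_Icc] at hy
      exact (hder y hy).differentiableAt.differentiableWithinAt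
    · intro y hy
      rw [interior_Icc] at hy
      rw [(hder y hy).deriv]
      have h1 := neg_bern θ y hθ.le hy.1
      exact mul_nonpos_of_nonneg_of_nonpos (by linarith) (by linarith)
  have h := hanti (Set.mem_Icc.2 ⟨hx, hx1⟩) (Set.mem_Icc.2 ⟨zero_le_one, le_rfl⟩) hx1
  simp only [hf, Real.one_rpow] at h
  nlinarith

/-- `1 - min(x, 1) ≤ 1/100 + 63 ((x - x^(1-θ))/θ - x + 1)` -/
theorem psi_bound (θ x : ℝ) (hθ : 0 < θ) (hθ1 : θ ≤ 13 / 63) (hx : 0 ≤ x) :
    1 - min x 1 ≤ 1 / 100 + 63 * ((x - x ^ (1 - θ)) / θ - x + 1) := by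
  rcases le_total x 1 with h1 | h1
  · rw [min_eq_left h1]
    have h2 := bern2 θ x hθ (by linarith) hx h1
    have h3 : (1 - θ) * (1 - x) ^ 2 / 2 ≤ (x - x ^ (1 - θ)) / θ - x + 1 := by
      have : (1 - θ) * (1 - x) ^ 2 / 2 + x - 1 ≤ (x - x ^ (1 - θ)) / θ := by
        rw [le_div_iff₀ hθ]
        nlinarith
      linarith
    have h4 : (1 - x) ≤ 1 / 100 + 25 * (1 - x) ^ 2 := by nlinarith [sq_nonneg (5 * (1 - x) - 1 / 10)]
    have h5 : 25 * (1 - x) ^ 2 ≤ 63 * ((1 - θ) * (1 - x) ^ 2 / 2) := by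
      nlinarith [sq_nonneg (1 - x)]
    linarith
  · rw [min_eq_right h1]
    have h2 := bern θ x hθ.le (by linarith) hx
    have h3 : 0 ≤ (x - x ^ (1 - θ)) / θ - x + 1 := by
      have : x - 1 ≤ (x - x ^ (1 - θ)) / θ := by
        rw [le_div_iff₀ hθ]
        nlinarith
      linarith
    linarith

theorem min_rpow (θ x : ℝ) (hθ : 0 ≤ θ) (hθ1 : θ ≤ 1) (hx : 0 ≤ x) :
    min x 1 ≤ min (x ^ (1 - θ)) 1 := by
  rcases le_total x 1 with h1 | h1
  · rw [min_eq_left h1]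
    refine le_min ?_ h1
    have := Real.rpow_le_rpow_of_exponent_ge' hx h1 (by linarith : (0 : ℝ) ≤ 1 - θ)
      (by linarith : 1 - θ ≤ 1)
    simpa using this
  · rw [min_eq_right h1]
    exact le_min (Real.one_le_rpow h1 (by linarith)) le_rfl

/-- normalised one-step inequality -/
theorem one_step_norm (N : ℕ) (hN : 1000 ≤ N) (A B : Fin N → ℝ) (hA : ∀ j, 0 ≤ A j)
    (hB : ∀ j, 0 ≤ B j) (hsA : ∑ j, A j = N) (hsB : ∑ j, B j = N) :
    (∑ i, ∑ j, if i ≠ j then (A i) ^ (1 - 126 / (N : ℝ)) * (B j) ^ (1 - 126 / (N : ℝ)) else 0) ≤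
      (N : ℝ) ^ 2 * (1 - (98 / 100) / N) := by
  have hN0 : (1000 : ℝ) ≤ N := by exact_mod_cast hN
  have hN1 : (0 : ℝ) < N := by linarith
  set θ : ℝ := 126 / (N : ℝ) with hθ
  have hθ0 : 0 < θ := by positivity
  have hθN : θ * N = 126 := by rw [hθ]; field_simp
  have hθ1 : θ ≤ 13 / 63 := by
    rw [hθ, div_le_iff₀ hN1]; nlinarith
  -- the defects
  set dA : ℝ := (N - ∑ j, A j ^ (1 - θ)) / (θ * N) with hdA
  set dB : ℝ := (N - ∑ j, B j ^ (1 - θ)) / (θ * N) with hdB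
  have hXA : ∑ j, A j ^ (1 - θ) = N * (1 - θ * dA) := by
    rw [hdA]; field_simp; ring
  have hXB : ∑ j, B j ^ (1 - θ) = N * (1 - θ * dB) := by
    rw [hdB]; field_simp; ring
  have key : ∀ (A : Fin N → ℝ), (∀ j, 0 ≤ A j) → ∑ j, A j = N →
      0 ≤ (N - ∑ j, A j ^ (1 - θ)) / (θ * N) ∧ θ * ((N - ∑ j, A j ^ (1 - θ)) / (θ * N)) ≤ 1 ∧
      N * (1 - 1 / 100 - 63 * ((N - ∑ j, A j ^ (1 - θ)) / (θ * N))) ≤ ∑ j, min (A j) 1 := by
    intro A hA hsA
    have h1 : ∑ j, A j ^ (1 - θ) ≤ N := by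
      calc ∑ j, A j ^ (1 - θ) ≤ ∑ j, (1 + (1 - θ) * (A j - 1)) :=
            sum_le_sum (fun j _ => bern θ (A j) hθ0.le (by linarith) (hA j))
        _ = N := by
            rw [sum_add_distrib, ← mul_sum, sum_sub_distrib, hsA]
            simp
    have h2 : 0 ≤ ∑ j, A j ^ (1 - θ) := sum_nonneg (fun j _ => Real.rpow_nonneg (hA j) _)
    refine ⟨div_nonneg (by linarith) (by positivity), ?_, ?_⟩
    · have : θ * ((N - ∑ j, A j ^ (1 - θ)) / (θ * N)) = (N - ∑ j, A j ^ (1 - θ)) / N := by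
        field_simp
      rw [this, div_le_one hN1]
      linarith
    · have h3 : ∑ j, (1 - min (A j) 1) ≤
          ∑ j, (1 / 100 + 63 * ((A j - A j ^ (1 - θ)) / θ - A j + 1)) :=
        sum_le_sum (fun j _ => psi_bound θ (A j) hθ0 hθ1 (hA j))
      have h4 : ∑ j, (1 / 100 + 63 * ((A j - A j ^ (1 - θ)) / θ - A j + 1)) =
          N * (1 / 100 + 63 * ((N - ∑ j, A j ^ (1 - θ)) / (θ * N))) := by
        have h5 : ∑ j, (A j - A j ^ (1 - θ)) / θ = (N - ∑ j, A j ^ (1 - θ)) / θ := by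
          rw [← sum_div, sum_sub_distrib, hsA]
        rw [sum_add_distrib, ← mul_sum, sum_add_distrib, sum_sub_distrib, h5, hsA]
        simp only [sum_const, card_univ, Fintype.card_fin, nsmul_eq_mul, mul_one]
        field_simp
        ring
      rw [sum_sub_distrib] at h3
      simp only [sum_const, card_univ, Fintype.card_fin, nsmul_eq_mul, mul_one] at h3
      rw [h4] at h3
      linarith
  obtain ⟨a1, a2, a3⟩ := key A hA hsA
  obtain ⟨b1, b2, b3⟩ := key B hB hsB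
  rw [← hdA] at a1 a2 a3
  rw [← hdB] at b1 b2 b3
  -- diagonal
  have hdiag : N * (98 / 100 - 63 * (dA + dB)) ≤ ∑ i, A i ^ (1 - θ) * B i ^ (1 - θ) := by
    have h1 : ∀ i, min (A i) 1 + min (B i) 1 - 1 ≤ A i ^ (1 - θ) * B i ^ (1 - θ) := by
      intro i
      have hA0 : 0 ≤ A i ^ (1 - θ) := Real.rpow_nonneg (hA i) _
      have hB0 : 0 ≤ B i ^ (1 - θ) := Real.rpow_nonneg (hB i) _
      have h2 := min_rpow θ (A i) hθ0.le (by linarith) (hA i)
      have h3 := min_rpow θ (B i) hθ0.le (by linarith) (hB i)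
      have h4 : min (A i ^ (1 - θ)) 1 * min (B i ^ (1 - θ)) 1 ≤ A i ^ (1 - θ) * B i ^ (1 - θ) :=
        mul_le_mul (min_le_left _ _) (min_le_left _ _) (le_min hB0 zero_le_one) hA0
      have h5 := min_le_right (A i ^ (1 - θ)) 1
      have h6 := min_le_right (B i ^ (1 - θ)) 1
      nlinarith
    have h2 := sum_le_sum (fun i (_ : i ∈ (univ : Finset (Fin N))) => h1 i)
    rw [sum_sub_distrib, sum_add_distrib] at h2
    simp only [sum_const, card_univ, Fintype.card_fin, nsmul_eq_mul, mul_one] at h2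
    linarith
  have hsum : (∑ i, ∑ j, if i ≠ j then (A i) ^ (1 - θ) * (B j) ^ (1 - θ) else 0) =
      (∑ j, A j ^ (1 - θ)) * (∑ j, B j ^ (1 - θ)) - ∑ i, A i ^ (1 - θ) * B i ^ (1 - θ) := by
    rw [sum_mul_sum, ← sum_sub_distrib]
    apply sum_congr rfl
    intro i _
    have h1 : ∀ j, (if i ≠ j then (A i) ^ (1 - θ) * (B j) ^ (1 - θ) else 0) =
        (A i) ^ (1 - θ) * (B j) ^ (1 - θ) -
          if j = i then (A i) ^ (1 - θ) * (B j) ^ (1 - θ) else 0 := by
      intro j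
      by_cases h : i = j
      · subst h; simp
      · have h' : ¬ j = i := fun h'' => h h''.symm
        simp [h, h']
    simp only [h1]
    rw [sum_sub_distrib]
    simp
  rw [hsum, hXA, hXB]
  have hprod : (1 - θ * dA) * (1 - θ * dB) ≤ 1 - θ * (dA + dB) / 2 := by
    have h1 : (θ * dA) * (θ * dB) ≤ (θ * dA + θ * dB) / 2 := by
      have h3 : 0 ≤ θ * dA := by positivity
      have h4 : 0 ≤ θ * dB := by positivity
      nlinarith
    nlinarith
  have h9 : (N : ℝ) * (1 - θ * dA) * (N * (1 - θ * dB)) ≤ N ^ 2 * (1 - θ * (dA + dB) / 2) := by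
    have : (N : ℝ) * (1 - θ * dA) * (N * (1 - θ * dB)) = N ^ 2 * ((1 - θ * dA) * (1 - θ * dB)) := by
      ring
    rw [this]
    exact mul_le_mul_of_nonneg_left hprod (by positivity)
  have h10 : (N : ℝ) ^ 2 * (1 - θ * (dA + dB) / 2) = N ^ 2 - 63 * N * (dA + dB) := by
    have : (N : ℝ) ^ 2 * (1 - θ * (dA + dB) / 2) = N ^ 2 - (θ * N) * N * (dA + dB) / 2 := by ring
    rw [this, hθN]
    ring
  have h11 : (N : ℝ) ^ 2 * (1 - (98 / 100) / N) = N ^ 2 - 98 / 100 * N := by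
    field_simp
  rw [h11]
  nlinarith

/-- one-step inequality -/
theorem one_step (N : ℕ) (hN : 1000 ≤ N) (a b : Fin N → ℝ) (ha : ∀ j, 0 ≤ a j)
    (hb : ∀ j, 0 ≤ b j) :
    (∑ i, ∑ j, if i ≠ j then (a i * b j) ^ (1 - 126 / (N : ℝ)) else 0) ≤
      (N : ℝ) ^ 2 * (1 - (98 / 100) / N) *
        (((∑ j, a j) / N) * ((∑ j, b j) / N)) ^ (1 - 126 / (N : ℝ)) := by
  have hN0 : (1000 : ℝ) ≤ N := by exact_mod_cast hN
  have hN1 : (0 : ℝ) < N := by linarith
  have hθ1 : 126 / (N : ℝ) ≤ 13 / 63 := by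
    rw [div_le_iff₀ hN1]; nlinarith
  have hpos : 0 < 1 - 126 / (N : ℝ) := by linarith
  have hfac : 0 ≤ (N : ℝ) ^ 2 * (1 - (98 / 100) / N) := by
    have : (98 / 100 : ℝ) / N ≤ 1 := by
      rw [div_le_one hN1]; linarith
    exact mul_nonneg (by positivity) (by linarith)
  have hab : ∀ i j, 0 ≤ a i * b j := fun i j => mul_nonneg (ha i) (hb j)
  have hsa : 0 ≤ ∑ j, a j := sum_nonneg (fun j _ => ha j)
  have hsb : 0 ≤ ∑ j, b j := sum_nonneg (fun j _ => hb j)
  have hzero : (∀ i j, a i * b j = 0) → (∑ i, ∑ j, if i ≠ j then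
      (a i * b j) ^ (1 - 126 / (N : ℝ)) else 0) = 0 := by
    intro h
    apply sum_eq_zero
    intro i _
    apply sum_eq_zero
    intro j _
    rw [h i j, Real.zero_rpow hpos.ne']
    simp
  rcases hsa.eq_or_lt with h0 | ha0
  · have hz : ∀ i, a i = 0 := fun i =>
      (sum_eq_zero_iff_of_nonneg (fun j _ => ha j)).1 h0.symm i (mem_univ i)
    rw [hzero (fun i j => by rw [hz i, zero_mul])]
    apply mul_nonneg hfac
    apply Real.rpow_nonneg
    positivity
  rcases hsb.eq_or_lt with h0 | hb0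
  · have hz : ∀ i, b i = 0 := fun i =>
      (sum_eq_zero_iff_of_nonneg (fun j _ => hb j)).1 h0.symm i (mem_univ i)
    rw [hzero (fun i j => by rw [hz j, mul_zero])]
    apply mul_nonneg hfac
    apply Real.rpow_nonneg
    positivity
  set θ' : ℝ := 1 - 126 / (N : ℝ) with hθ'
  set ma : ℝ := (∑ j, a j) / N with hma
  set mb : ℝ := (∑ j, b j) / N with hmb
  have hma0 : 0 < ma := div_pos ha0 hN1
  have hmb0 : 0 < mb := div_pos hb0 hN1
  have h := one_step_norm N hN (fun j => a j / ma) (fun j => b j / mb)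
    (fun j => div_nonneg (ha j) hma0.le) (fun j => div_nonneg (hb j) hmb0.le)
    (by rw [← sum_div, hma]; field_simp) (by rw [← sum_div, hmb]; field_simp)
  rw [← hθ'] at h
  have hterm : ∀ i j, (a i * b j) ^ θ' =
      (ma * mb) ^ θ' * ((a i / ma) ^ θ' * (b j / mb) ^ θ') := by
    intro i j
    rw [← Real.mul_rpow (div_nonneg (ha i) hma0.le) (div_nonneg (hb j) hmb0.le),
      ← Real.mul_rpow (by positivity)
        (mul_nonneg (div_nonneg (ha i) hma0.le) (div_nonneg (hb j) hmb0.le))]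
    congr 1
    field_simp
  have hrew : (∑ i, ∑ j, if i ≠ j then (a i * b j) ^ θ' else 0) =
      (ma * mb) ^ θ' * ∑ i, ∑ j, if i ≠ j then (a i / ma) ^ θ' * (b j / mb) ^ θ' else 0 := by
    rw [mul_sum]
    apply sum_congr rfl
    intro i _
    rw [mul_sum]
    apply sum_congr rfl
    intro j _
    by_cases hij : i ≠ j
    · rw [if_pos hij, if_pos hij, hterm]
    · rw [if_neg hij, if_neg hij, mul_zero]
  rw [hrew, mul_comm]
  exact mul_le_mul_of_nonneg_right h (Real.rpow_nonneg (by positivity) _)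

end MP668cf7.Sep
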