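import Pool.Agent.Lib.MP_668cf7_lc.Sep.CorrA

/-!
# Corruption bound, part B: induction on the number of coordinates and conclusion
-/

namespace MP668cf7.Sep

open Finset

theorem not_meet_cons {k N : ℕ} (i j : Fin N) (x y : Fin k → Fin N) :
    ¬ Meet (Fin.cons i x : Fin (k + 1) → Fin N) (Fin.cons j y) ↔ i ≠ j ∧ ¬ Meet x y := by
  unfold Meet
  rw [Fin.exists_fin_succ]
  simp only [Fin.cons_zero, Fin.cons_succ, not_or]

theorem sum_cons {k N : ℕ} (f : (Fin (k + 1) → Fin N) → ℝ) :
    ∑ x, f x = ∑ i : Fin N, ∑ x : Fin k → Fin N, f (Fin.cons i x) := by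
  rw [← (Fin.consEquiv (fun _ : Fin (k + 1) => Fin N)).sum_comp, Fintype.sum_prod_type]
  rfl

theorem corr_ind (N : ℕ) (hN : 1000 ≤ N) (k : ℕ) :
    ∀ (α β : (Fin k → Fin N) → ℝ), (∀ x, 0 ≤ α x) → (∀ x, α x ≤ 1) → (∀ x, 0 ≤ β x) →
      (∀ x, β x ≤ 1) →
      (∑ x, ∑ y, if ¬ Meet x y then α x * β y else 0) ≤
        ((N : ℝ) ^ 2 * (1 - (98 / 100) / N)) ^ k *
          (((∑ x, α x) / (N : ℝ) ^ k) * ((∑ x, β x) / (N : ℝ) ^ k)) ^ (1 - 126 / (N : ℝ)) := by
  have hN0 : (1000 : ℝ) ≤ N := by exact_mod_cast hN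
  have hN1 : (0 : ℝ) < N := by linarith
  have hθ1 : 126 / (N : ℝ) ≤ 13 / 63 := by
    rw [div_le_iff₀ hN1]; nlinarith
  have hpos : 0 < 1 - 126 / (N : ℝ) := by linarith
  have hθ0 : 0 ≤ 126 / (N : ℝ) := by positivity
  have hfac : 0 ≤ (N : ℝ) ^ 2 * (1 - (98 / 100) / N) := by
    have : (98 / 100 : ℝ) / N ≤ 1 := by
      rw [div_le_one hN1]; linarith
    exact mul_nonneg (by positivity) (by linarith)
  induction k with
  | zero =>
    intro α β hα hα1 hβ hβ1
    have h1 : ∀ x y : Fin 0 → Fin N, ¬ Meet x y := by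
      rintro x y ⟨b, -⟩
      exact b.elim0
    simp only [Fintype.sum_unique, h1, not_false_eq_true, if_true, pow_zero, one_mul, div_one]
    set c := α default * β default with hc
    have hc0 : 0 ≤ c := mul_nonneg (hα _) (hβ _)
    have hc1 : c ≤ 1 := mul_le_one₀ (hα1 _) (hβ _) (hβ1 _)
    have := Real.rpow_le_rpow_of_exponent_ge' hc0 hc1 hpos.le
      (by linarith : 1 - 126 / (N : ℝ) ≤ 1)
    simpa using this
  | succ k ih =>
    intro α β hα hα1 hβ hβ1
    set C : ℝ := (N : ℝ) ^ 2 * (1 - (98 / 100) / N) with hC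
    set a : Fin N → ℝ := fun i => (∑ x : Fin k → Fin N, α (Fin.cons i x)) / (N : ℝ) ^ k with ha
    set b : Fin N → ℝ := fun i => (∑ x : Fin k → Fin N, β (Fin.cons i x)) / (N : ℝ) ^ k with hb
    have ha0 : ∀ i, 0 ≤ a i := fun i => div_nonneg (sum_nonneg (fun x _ => hα _)) (by positivity)
    have hb0 : ∀ i, 0 ≤ b i := fun i => div_nonneg (sum_nonneg (fun x _ => hβ _)) (by positivity)
    have h1 : (∑ x : Fin (k + 1) → Fin N, ∑ y, if ¬ Meet x y then α x * β y else 0) =
        ∑ i : Fin N, ∑ j : Fin N, if i ≠ j then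
          (∑ x : Fin k → Fin N, ∑ y : Fin k → Fin N,
            if ¬ Meet x y then α (Fin.cons i x) * β (Fin.cons j y) else 0) else 0 := by
      rw [sum_cons]
      apply sum_congr rfl
      intro i _
      have h2 : ∀ x : Fin k → Fin N, (∑ y : Fin (k + 1) → Fin N,
          if ¬ Meet (Fin.cons i x : Fin (k + 1) → Fin N) y then α (Fin.cons i x) * β y else 0) =
          ∑ j : Fin N, ∑ y : Fin k → Fin N,
            if i ≠ j ∧ ¬ Meet x y then α (Fin.cons i x) * β (Fin.cons j y) else 0 := by
        intro x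
        rw [sum_cons]
        apply sum_congr rfl
        intro j _
        apply sum_congr rfl
        intro y _
        by_cases h : i ≠ j ∧ ¬ Meet x y
        · rw [if_pos h, if_pos ((not_meet_cons i j x y).2 h)]
        · rw [if_neg h, if_neg (fun h' => h ((not_meet_cons i j x y).1 h'))]
      simp only [h2]
      rw [sum_comm]
      apply sum_congr rfl
      intro j _
      by_cases hij : i ≠ j
      · rw [if_pos hij]
        simp only [hij, ne_eq, not_false_eq_true, true_and]
      · rw [if_neg hij]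
        apply sum_eq_zero
        intro x _
        apply sum_eq_zero
        intro y _
        rw [if_neg (fun h => hij h.1)]
    rw [h1]
    have h2 : (∑ i : Fin N, ∑ j : Fin N, if i ≠ j then
          (∑ x : Fin k → Fin N, ∑ y : Fin k → Fin N,
            if ¬ Meet x y then α (Fin.cons i x) * β (Fin.cons j y) else 0) else 0) ≤
        ∑ i : Fin N, ∑ j : Fin N, C ^ k * (if i ≠ j then (a i * b j) ^ (1 - 126 / (N : ℝ)) else 0) := by
      apply sum_le_sum
      intro i _
      apply sum_le_sum
      intro j _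
      by_cases hij : i ≠ j
      · rw [if_pos hij, if_pos hij]
        exact ih (fun x => α (Fin.cons i x)) (fun x => β (Fin.cons j x)) (fun x => hα _)
          (fun x => hα1 _) (fun x => hβ _) (fun x => hβ1 _)
      · rw [if_neg hij, if_neg hij, mul_zero]
    refine h2.trans ?_
    simp only [← mul_sum]
    have h3 := one_step N hN a b ha0 hb0
    have h4 : (∑ j, a j) / N = (∑ x, α x) / (N : ℝ) ^ (k + 1) := by
      rw [sum_cons, ha, ← sum_div, div_div, pow_succ]
    have h5 : (∑ j, b j) / N = (∑ x, β x) / (N : ℝ) ^ (k + 1) := by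
      rw [sum_cons, hb, ← sum_div, div_div, pow_succ]
    rw [h4, h5] at h3
    calc C ^ k * _ ≤ C ^ k * (C * _) := mul_le_mul_of_nonneg_left h3 (pow_nonneg hfac k)
      _ = _ := by ring

theorem sum_mem_univ {X : Type} [Fintype X] [DecidableEq X] (C : Finset X) (f : X → ℝ) :
    ∑ s ∈ C, f s = ∑ s, if s ∈ C then f s else 0 := by
  rw [sum_ite_mem, univ_inter]

theorem stCorr : StCorr := by
  intro k N hN hkN R Q _ _ A'' B''
  classical
  have hN0 : (1000 : ℝ) ≤ N := by exact_mod_cast hN
  have hN1 : (0 : ℝ) < N := by linarith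
  have hkN0 : (100 : ℝ) * k ≤ N := by exact_mod_cast hkN
  have hk0 : (0 : ℝ) ≤ k := Nat.cast_nonneg _
  -- meeting pairs are nonnegative
  have hM0 : 0 ≤ ∑ s ∈ A'', ∑ t ∈ B'', if Meet s.1 t.1 then (1 : ℝ) else 0 := by
    apply sum_nonneg; intro s _; apply sum_nonneg; intro t _; split_ifs <;> norm_num
  set NA : ℝ := ((Fintype.card ((Fin k → Fin N) × R) : ℕ) : ℝ) with hNA
  set NB : ℝ := ((Fintype.card ((Fin k → Fin N) × Q) : ℕ) : ℝ) with hNB
  have hNA' : NA = (N : ℝ) ^ k * Fintype.card R := by
    rw [hNA, Fintype.card_prod]; simp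
  have hNB' : NB = (N : ℝ) ^ k * Fintype.card Q := by
    rw [hNB, Fintype.card_prod]; simp
  have hcA : (A''.card : ℝ) ≤ NA := by rw [hNA]; exact_mod_cast card_le_univ A''
  have hcB : (B''.card : ℝ) ≤ NB := by rw [hNB]; exact_mod_cast card_le_univ B''
  have hA0 : (0 : ℝ) ≤ A''.card := Nat.cast_nonneg _
  have hB0 : (0 : ℝ) ≤ B''.card := Nat.cast_nonneg _
  have hkn : 0 ≤ (k : ℝ) / N := by positivity
  have ht : (k : ℝ) / N ≤ 1 / 100 := by
    rw [div_le_iff₀ hN1]; linarith
  by_cases hP : ((A''.card : ℝ) * B''.card) < Real.exp (-(k : ℝ) / 10000) * (NA * NB) ∨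
      (A''.card : ℝ) * B''.card = 0
  · have h1 : (A''.card : ℝ) * B''.card ≤ Real.exp (-(k : ℝ) / 10000) * (NA * NB) := by
      rcases hP with h | h
      · exact h.le
      · rw [h]; positivity
    have h2 : (k : ℝ) / N * ((A''.card : ℝ) * B''.card) ≤
        (k : ℝ) / N * (Real.exp (-(k : ℝ) / 10000) * (NA * NB)) := mul_le_mul_of_nonneg_left h1 hkn
    have h3 : 0 ≤ (k : ℝ) / N * ((A''.card : ℝ) * B''.card) := by positivity
    nlinarith
  · push Not at hP
    obtain ⟨hP1, hP2⟩ := hP
    have hApos : (0 : ℝ) < A''.card := lt_of_le_of_ne hA0 (fun h => hP2 (by rw [← h, zero_mul]))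
    have hBpos : (0 : ℝ) < B''.card := lt_of_le_of_ne hB0 (fun h => hP2 (by rw [← h, mul_zero]))
    have hNApos : 0 < NA := lt_of_lt_of_le hApos hcA
    have hNBpos : 0 < NB := lt_of_lt_of_le hBpos hcB
    have hRpos : (0 : ℝ) < Fintype.card R := by
      by_contra h
      have : (Fintype.card R : ℝ) = 0 := le_antisymm (not_lt.1 h) (Nat.cast_nonneg _)
      rw [hNA', this, mul_zero] at hNApos
      exact lt_irrefl _ hNApos
    have hQpos : (0 : ℝ) < Fintype.card Q := by
      by_contra h
      have : (Fintype.card Q : ℝ) = 0 := le_antisymm (not_lt.1 h) (Nat.cast_nonneg _)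
      rw [hNB', this, mul_zero] at hNBpos
      exact lt_irrefl _ hNBpos
    set α : (Fin k → Fin N) → ℝ := fun x => (∑ r : R, if (x, r) ∈ A'' then (1 : ℝ) else 0) /
      Fintype.card R with hα
    set β : (Fin k → Fin N) → ℝ := fun y => (∑ q : Q, if (y, q) ∈ B'' then (1 : ℝ) else 0) /
      Fintype.card Q with hβ
    have hα0 : ∀ x, 0 ≤ α x := by
      intro x
      apply div_nonneg _ hRpos.le
      apply sum_nonneg; intro r _; split_ifs <;> norm_num
    have hβ0 : ∀ x, 0 ≤ β x := by
      intro x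
      apply div_nonneg _ hQpos.le
      apply sum_nonneg; intro r _; split_ifs <;> norm_num
    have hα1 : ∀ x, α x ≤ 1 := by
      intro x
      rw [hα]
      simp only
      rw [div_le_one hRpos]
      calc (∑ r : R, if (x, r) ∈ A'' then (1 : ℝ) else 0) ≤ ∑ r : R, (1 : ℝ) := by
            apply sum_le_sum; intro r _; split_ifs <;> norm_num
        _ = Fintype.card R := by simp
    have hβ1 : ∀ x, β x ≤ 1 := by
      intro x
      rw [hβ]
      simp only
      rw [div_le_one hQpos]
      calc (∑ r : Q, if (x, r) ∈ B'' then (1 : ℝ) else 0) ≤ ∑ r : Q, (1 : ℝ) := by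
            apply sum_le_sum; intro r _; split_ifs <;> norm_num
        _ = Fintype.card Q := by simp
    have hsα : ∑ x, α x = A''.card / Fintype.card R := by
      rw [hα, ← sum_div]
      congr 1
      rw [← Fintype.sum_prod_type' (f := fun x r => if (x, r) ∈ A'' then (1 : ℝ) else 0)]
      simp
    have hsβ : ∑ x, β x = B''.card / Fintype.card Q := by
      rw [hβ, ← sum_div]
      congr 1
      rw [← Fintype.sum_prod_type' (f := fun x r => if (x, r) ∈ B'' then (1 : ℝ) else 0)]
      simp
    have hind := corr_ind N hN k α β hα0 hα1 hβ0 hβ1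
    -- count of non-meeting pairs
    have hnon : (∑ s ∈ A'', ∑ t ∈ B'', if ¬ Meet s.1 t.1 then (1 : ℝ) else 0) =
        Fintype.card R * Fintype.card Q * ∑ x, ∑ y, if ¬ Meet x y then α x * β y else 0 := by
      have e1 : ∀ x y, (if ¬ Meet x y then α x * β y else 0) =
          (∑ r : R, ∑ q : Q, (if (x, r) ∈ A'' then (if (y, q) ∈ B'' then
            (if ¬ Meet x y then (1 : ℝ) else 0) else 0) else 0)) /
              (Fintype.card R * Fintype.card Q) := by
        intro x y
        by_cases h : ¬ Meet x y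
        · rw [if_pos h]
          simp only [if_pos h, hα, hβ]
          rw [div_mul_div_comm, sum_mul_sum]
          congr 1
          apply sum_congr rfl; intro r _
          apply sum_congr rfl; intro q _
          by_cases h1 : (x, r) ∈ A'' <;> by_cases h2 : (y, q) ∈ B'' <;> simp [h1, h2]
        · rw [if_neg h]
          simp [if_neg h]
      have e2 : (∑ s ∈ A'', ∑ t ∈ B'', if ¬ Meet s.1 t.1 then (1 : ℝ) else 0) =
          ∑ x, ∑ y, ∑ r : R, ∑ q : Q, (if (x, r) ∈ A'' then (if (y, q) ∈ B'' then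
            (if ¬ Meet x y then (1 : ℝ) else 0) else 0) else 0) := by
        calc (∑ s ∈ A'', ∑ t ∈ B'', if ¬ Meet s.1 t.1 then (1 : ℝ) else 0)
            = ∑ s : (Fin k → Fin N) × R, ∑ t : (Fin k → Fin N) × Q,
              (if s ∈ A'' then (if t ∈ B'' then (if ¬ Meet s.1 t.1 then (1 : ℝ) else 0)
                else 0) else 0) := by
              rw [sum_mem_univ A'']
              apply sum_congr rfl
              intro s _
              by_cases hs : s ∈ A''
              · simp only [hs, if_true]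
                exact sum_mem_univ B'' _
              · simp [hs]
          _ = ∑ x, ∑ r : R, ∑ y, ∑ q : Q, (if (x, r) ∈ A'' then (if (y, q) ∈ B'' then
            (if ¬ Meet x y then (1 : ℝ) else 0) else 0) else 0) := by
              rw [Fintype.sum_prod_type]
              apply sum_congr rfl; intro x _
              apply sum_congr rfl; intro r _
              rw [Fintype.sum_prod_type]
          _ = _ := by
              apply sum_congr rfl; intro x _
              rw [sum_comm]
      rw [e2]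
      simp only [e1]
      simp only [← sum_div]
      field_simp
    have htot : (∑ s ∈ A'', ∑ t ∈ B'', if Meet s.1 t.1 then (1 : ℝ) else 0) =
        (A''.card : ℝ) * B''.card - ∑ s ∈ A'', ∑ t ∈ B'', if ¬ Meet s.1 t.1 then (1 : ℝ) else 0 := by
      rw [eq_sub_iff_add_eq, ← sum_add_distrib]
      have : ∀ s ∈ A'', ((∑ t ∈ B'', if Meet s.1 t.1 then (1 : ℝ) else 0) +
          ∑ t ∈ B'', if ¬ Meet s.1 t.1 then (1 : ℝ) else 0) = B''.card := by
        intro s _
        rw [← sum_add_distrib]
        have : ∀ t ∈ B'', ((if Meet s.1 t.1 then (1 : ℝ) else 0) +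
            if ¬ Meet s.1 t.1 then (1 : ℝ) else 0) = 1 := by
          intro t _
          by_cases h : Meet s.1 t.1 <;> simp [h]
        rw [sum_congr rfl this]
        simp
      rw [sum_congr rfl this]
      simp
    rw [htot, hnon]
    rw [hsα, hsβ] at hind
    set p : ℝ := (A''.card : ℝ) / NA * (B''.card / NB) with hp
    have hp0 : 0 < p := by positivity
    have e3 : (A''.card / Fintype.card R / (N : ℝ) ^ k * (B''.card / Fintype.card Q / (N : ℝ) ^ k)) =
        p := by
      rw [hp, hNA', hNB']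
      field_simp
    rw [e3] at hind
    have hpe : Real.exp (-(k : ℝ) / 10000) ≤ p := by
      rw [hp, div_mul_div_comm, le_div_iff₀ (by positivity)]
      exact hP1
    set θ : ℝ := 126 / (N : ℝ) with hθ
    have hθ0 : 0 < θ := by positivity
    have hpow : p ^ (1 - θ) ≤ p * Real.exp (θ * k / 10000) := by
      rw [Real.rpow_sub hp0, Real.rpow_one, div_eq_mul_inv]
      apply mul_le_mul_of_nonneg_left _ hp0.le
      rw [← Real.rpow_neg hp0.le]
      calc p ^ (-θ) ≤ (Real.exp (-(k : ℝ) / 10000)) ^ (-θ) :=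
            Real.rpow_le_rpow_of_nonpos (Real.exp_pos _) hpe (by linarith)
        _ = Real.exp (θ * k / 10000) := by
            rw [← Real.exp_mul]
            congr 1
            ring
    have hC : ((N : ℝ) ^ 2 * (1 - (98 / 100) / N)) ^ k ≤
        ((N : ℝ) ^ k * (N : ℝ) ^ k) * Real.exp (-(98 / 100) * k / N) := by
      rw [mul_pow, ← pow_mul, mul_comm 2 k, pow_mul, sq]
      apply mul_le_mul_of_nonneg_left _ (by positivity)
      have h1 : 1 - (98 / 100 : ℝ) / N ≤ Real.exp (-((98 / 100) / N)) := by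
        have := Real.add_one_le_exp (-((98 / 100 : ℝ) / N))
        linarith
      have h0 : 0 ≤ 1 - (98 / 100 : ℝ) / N := by
        have : (98 / 100 : ℝ) / N ≤ 1 := by rw [div_le_one hN1]; linarith
        linarith
      calc (1 - (98 / 100 : ℝ) / N) ^ k ≤ (Real.exp (-((98 / 100) / N))) ^ k :=
            pow_le_pow_left₀ h0 h1 k
        _ = Real.exp (-(98 / 100) * k / N) := by
            rw [← Real.exp_nat_mul]
            congr 1
            ring
    have hfin : Real.exp (-(98 / 100) * k / N) * Real.exp (θ * k / 10000) ≤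
        1 - 95 / 100 * ((k : ℝ) / N) := by
      rw [← Real.exp_add]
      set t : ℝ := (k : ℝ) / N with ht'
      have e4 : -(98 / 100) * (k : ℝ) / N + θ * k / 10000 = -(9674 / 10000 * t) := by
        rw [hθ, ht']; field_simp; ring
      rw [e4, Real.exp_neg]
      have h1 := Real.add_one_le_exp (9674 / 10000 * t)
      have h2 : (0 : ℝ) < 1 + 9674 / 10000 * t := by positivity
      calc (Real.exp (9674 / 10000 * t))⁻¹ ≤ (1 + 9674 / 10000 * t)⁻¹ := by
            apply inv_anti₀ h2; linarith
        _ ≤ 1 - 95 / 100 * t := by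
            rw [inv_le_iff_one_le_mul₀ h2]
            nlinarith
    have hchain : ((N : ℝ) ^ 2 * (1 - (98 / 100) / N)) ^ k * p ^ (1 - θ) ≤
        ((N : ℝ) ^ k * (N : ℝ) ^ k) * (p * (1 - 95 / 100 * ((k : ℝ) / N))) := by
      calc ((N : ℝ) ^ 2 * (1 - (98 / 100) / N)) ^ k * p ^ (1 - θ)
          ≤ (((N : ℝ) ^ k * (N : ℝ) ^ k) * Real.exp (-(98 / 100) * k / N)) *
              (p * Real.exp (θ * k / 10000)) := by
            apply mul_le_mul hC hpow (Real.rpow_nonneg hp0.le _) (by positivity)
        _ = ((N : ℝ) ^ k * (N : ℝ) ^ k) * (p * (Real.exp (-(98 / 100) * k / N) *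
              Real.exp (θ * k / 10000))) := by ring
        _ ≤ _ := by
            apply mul_le_mul_of_nonneg_left _ (by positivity)
            exact mul_le_mul_of_nonneg_left hfin hp0.le
    have hlast : (Fintype.card R : ℝ) * Fintype.card Q *
        (∑ x, ∑ y, if ¬ Meet x y then α x * β y else 0) ≤
        (A''.card : ℝ) * B''.card * (1 - 95 / 100 * ((k : ℝ) / N)) := by
      calc (Fintype.card R : ℝ) * Fintype.card Q *
            (∑ x, ∑ y, if ¬ Meet x y then α x * β y else 0)
          ≤ (Fintype.card R : ℝ) * Fintype.card Q *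
            (((N : ℝ) ^ k * (N : ℝ) ^ k) * (p * (1 - 95 / 100 * ((k : ℝ) / N)))) :=
            mul_le_mul_of_nonneg_left (hind.trans hchain) (by positivity)
        _ = (NA * NB * p) * (1 - 95 / 100 * ((k : ℝ) / N)) := by
            rw [hNA', hNB']; ring
        _ = _ := by
            congr 1
            rw [hp]; field_simp
    have hexp0 : 0 ≤ (k : ℝ) / N * Real.exp (-(k : ℝ) / 10000) * (NA * NB) := by positivity
    nlinarith

end MP668cf7.Sep
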