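import Pool.Agent.Lib.MP_668cf7_lc.Sep.Spec
import Pool.Agent.Lib.MP_668cf7_lc.Main

/-!
# ZAM versus coNP: the final assembly
-/

namespace MP668cf7.Sep

open Finset Filter

theorem exists_zam (n : ℕ) : ∃ Pr : AMProtocol (Finset (Fin n)) (Finset (Fin n)),
    Pr.IsZAM (DISJ n) := by
  have h := main (n + 2) (by omega) (Finset (Fin n)) (Finset (Fin n)) (by
    rw [min_self]
    have : Nat.card (Finset (Fin n)) = 2 ^ n := by simp
    rw [this]
    exact Nat.pow_le_pow_right (by norm_num) (by omega)) (DISJ n)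
  exact h.1

theorem zam_attained (n : ℕ) : ∃ Pr : AMProtocol (Finset (Fin n)) (Finset (Fin n)),
    Pr.IsZAM (DISJ n) ∧ Pr.cost = ZAM (DISJ n) := by
  have hne : {k : ℕ | ∃ P : AMProtocol (Finset (Fin n)) (Finset (Fin n)),
      P.IsZAM (DISJ n) ∧ P.cost = k}.Nonempty := by
    obtain ⟨P, hP⟩ := exists_zam n
    exact ⟨P.cost, P, hP, rfl⟩
  exact Nat.sInf_mem hne

/-- `ln m ≤ ⌈log₂ m⌉`. -/
theorem log_le_clog (m : ℕ) : Real.log m ≤ (Nat.clog 2 m : ℝ) := by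
  rcases Nat.eq_zero_or_pos m with rfl | hm
  · simp
  have h1 : (m : ℝ) ≤ 2 ^ (Nat.clog 2 m) := by
    exact_mod_cast Nat.le_pow_clog (by norm_num) m
  have h2 : Real.log m ≤ Real.log ((2 : ℝ) ^ (Nat.clog 2 m)) :=
    Real.log_le_log (by exact_mod_cast hm) h1
  rw [Real.log_pow] at h2
  have h3 : Real.log 2 ≤ 1 := by
    have := Real.log_two_lt_d9
    linarith
  have h4 : (0 : ℝ) ≤ (Nat.clog 2 m : ℝ) := Nat.cast_nonneg _
  nlinarith

/-- the bound for `K ^ 34 ≤ n` -/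
theorem zam_ge (hB : StBound) (hE : StEmbed) (K n : ℕ) (hK : 10 ^ 10 ≤ K) (hn : K ^ 34 ≤ n) :
    Real.sqrt K / 10 ^ 4 ≤ (ZAM (DISJ n) : ℝ) := by
  obtain ⟨Pr, hPr, hc⟩ := zam_attained n
  obtain ⟨Pr', hPr', hm⟩ := hE (K ^ 2) (K ^ 32) n (by rw [← pow_add]; exact hn) Pr hPr
  have h1 := hB K hK Pr' hPr'
  rw [hm] at h1
  have h2 := log_le_clog Pr.m
  have h3 : (Nat.clog 2 Pr.m : ℝ) = (ZAM (DISJ n) : ℝ) := by
    rw [← hc]; rfl
  linarith

theorem zam_lower (hB : StBound) (hE : StEmbed) :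
    ∀ᶠ n : ℕ in atTop, (n : ℝ) ^ ((1 : ℝ) / 68) / (2 * 10 ^ 4) ≤ (ZAM (DISJ n) : ℝ) := by
  have hev : ∀ᶠ n : ℕ in atTop, ((10 : ℝ) ^ 10 + 1) ≤ (n : ℝ) ^ ((1 : ℝ) / 34) := by
    have ht : Tendsto (fun n : ℕ => (n : ℝ) ^ ((1 : ℝ) / 34)) atTop atTop :=
      (tendsto_rpow_atTop (by norm_num)).comp tendsto_natCast_atTop_atTop
    exact ht.eventually_ge_atTop _
  filter_upwards [hev, eventually_ge_atTop 1] with n hn hn1
  have hn0 : (0 : ℝ) ≤ (n : ℝ) := Nat.cast_nonneg _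
  set r : ℝ := (n : ℝ) ^ ((1 : ℝ) / 34) with hr
  have hr0 : 0 ≤ r := Real.rpow_nonneg hn0 _
  set K : ℕ := ⌊r⌋₊ with hK
  have hKle : (K : ℝ) ≤ r := Nat.floor_le hr0
  have hKlt : r < K + 1 := Nat.lt_floor_add_one r
  have hK10 : 10 ^ 10 ≤ K := by
    apply Nat.le_floor
    push_cast
    linarith
  have hr34 : r ^ 34 = n := by
    rw [hr, ← Real.rpow_natCast, ← Real.rpow_mul hn0]
    norm_num
  have hKn : K ^ 34 ≤ n := by
    have : (K : ℝ) ^ 34 ≤ n := by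
      rw [← hr34]
      exact pow_le_pow_left₀ (Nat.cast_nonneg _) hKle 34
    exact_mod_cast this
  have h1 := zam_ge hB hE K n hK10 hKn
  have h2 : r / 4 ≤ K := by
    have : (10 : ℝ) ^ 10 ≤ K := by exact_mod_cast hK10
    linarith
  have h3 : (n : ℝ) ^ ((1 : ℝ) / 68) = Real.sqrt r := by
    rw [Real.sqrt_eq_rpow, hr, ← Real.rpow_mul hn0]
    norm_num
  have h4 : Real.sqrt r ≤ 2 * Real.sqrt K := by
    have : Real.sqrt r ≤ Real.sqrt (4 * K) := Real.sqrt_le_sqrt (by linarith)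
    rw [Real.sqrt_mul (by norm_num)] at this
    have h5 : Real.sqrt 4 = 2 := by
      rw [show (4 : ℝ) = 2 ^ 2 by norm_num]
      exact Real.sqrt_sq (by norm_num)
    rwa [h5] at this
  rw [h3]
  calc Real.sqrt r / (2 * 10 ^ 4) ≤ 2 * Real.sqrt K / (2 * 10 ^ 4) := by gcongr
    _ = Real.sqrt K / 10 ^ 4 := by ring
    _ ≤ _ := h1

theorem ratio (hB : StBound) (hE : StEmbed) (hC : StCoNP) :
    Tendsto (fun n : ℕ => (ZAM (DISJ n) : ℝ) / max 1 (coNP (DISJ n) : ℝ)) atTop atTop := by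
  have hlow := zam_lower hB hE
  -- `coNP (DISJ n) ≤ clog 2 n ≤ 2 log n + 2`
  have hup : ∀ᶠ n : ℕ in atTop, max 1 (coNP (DISJ n) : ℝ) ≤ 4 * Real.log n := by
    filter_upwards [eventually_ge_atTop 4] with n hn
    have hn4 : (4 : ℝ) ≤ n := by exact_mod_cast hn
    have hlog4 : Real.log 4 = 2 * Real.log 2 := by
      rw [show (4 : ℝ) = 2 ^ 2 by norm_num, Real.log_pow]; norm_num
    have hl2 := Real.log_two_gt_d9
    have hlogn : Real.log 4 ≤ Real.log n := Real.log_le_log (by norm_num) hn4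
    have h1 : (coNP (DISJ n) : ℝ) ≤ (Nat.clog 2 n : ℝ) := by exact_mod_cast hC n
    have h2 : (Nat.clog 2 n : ℝ) ≤ Real.log n / Real.log 2 + 1 := by
      have h3 : (2 : ℕ) ^ (Nat.clog 2 n - 1) < n := Nat.pow_pred_clog_lt_self (by norm_num) (by omega)
      have h4 : ((2 : ℝ)) ^ (Nat.clog 2 n - 1) ≤ n := by exact_mod_cast h3.le
      have h5 : ((Nat.clog 2 n - 1 : ℕ) : ℝ) * Real.log 2 ≤ Real.log n := by
        rw [← Real.log_pow]
        exact Real.log_le_log (by positivity) h4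
      have h6 : 1 ≤ Nat.clog 2 n := by
        have : 0 < Nat.clog 2 n := Nat.clog_pos (by norm_num) (by omega)
        omega
      rw [Nat.cast_sub h6] at h5
      have h7 : (Nat.clog 2 n : ℝ) - 1 ≤ Real.log n / Real.log 2 := by
        rw [le_div_iff₀ (by linarith)]
        push_cast at h5
        exact h5
      linarith
    have h3 : Real.log n / Real.log 2 ≤ 2 * Real.log n := by
      rw [div_le_iff₀ (by linarith)]
      nlinarith
    refine max_le ?_ ?_ <;> nlinarith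
  have hup1 : ∀ᶠ n : ℕ in atTop,
      (n : ℝ) ^ ((1 : ℝ) / 68) / (2 * 10 ^ 4) / (4 * Real.log n) ≤
        (ZAM (DISJ n) : ℝ) / max 1 (coNP (DISJ n) : ℝ) := by
    filter_upwards [hlow, hup, eventually_ge_atTop 4] with n h1 h2 hn
    have h3 : (0 : ℝ) < max 1 (coNP (DISJ n) : ℝ) := lt_of_lt_of_le one_pos (le_max_left _ _)
    have h4 : (0 : ℝ) ≤ (n : ℝ) ^ ((1 : ℝ) / 68) / (2 * 10 ^ 4) := by positivity
    exact div_le_div₀ (by positivity) h1 h3 h2
  refine tendsto_atTop_mono' _ hup1 ?_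
  -- `x ^ (1/68) / log x → ∞`
  have hmain : Tendsto (fun x : ℝ => x ^ ((1 : ℝ) / 68) / Real.log x) atTop atTop := by
    have h0 : (fun x : ℝ => Real.log x) =o[atTop] fun x => x ^ ((1 : ℝ) / 68) :=
      isLittleO_log_rpow_atTop (by norm_num)
    have h1 : Tendsto (fun x : ℝ => Real.log x / x ^ ((1 : ℝ) / 68)) atTop (nhds 0) :=
      h0.tendsto_div_nhds_zero
    have h2 : ∀ᶠ x : ℝ in atTop, 0 < Real.log x / x ^ ((1 : ℝ) / 68) := by
      filter_upwards [eventually_gt_atTop 1] with x hx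
      exact div_pos (Real.log_pos hx) (Real.rpow_pos_of_pos (by linarith) _)
    have h3 : Tendsto (fun x : ℝ => Real.log x / x ^ ((1 : ℝ) / 68)) atTop
        (nhdsWithin 0 (Set.Ioi 0)) := tendsto_nhdsWithin_iff.2 ⟨h1, h2⟩
    have h4 := h3.inv_tendsto_nhdsGT_zero
    refine h4.congr (fun x => ?_)
    simp [inv_div]
  have hcomp := (hmain.comp tendsto_natCast_atTop_atTop).const_mul_atTop
    (show (0 : ℝ) < 1 / (2 * 10 ^ 4 * 4) by norm_num)
  refine hcomp.congr (fun n => ?_)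
  simp only [Function.comp]
  ring

end MP668cf7.Sep
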