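import Pool.Agent.Lib.MP_668cf7_lc.Sep.Spec

namespace MP668cf7.Sep

open Finset

namespace Good

/-- Jensen for squares. -/
lemma sq_mean_le {A : Type} [Fintype A] (p X : A → ℝ) (p0 : ∀ s, 0 ≤ p s) (p1 : ∑ s, p s = 1) :
    (∑ s, p s * X s) ^ 2 ≤ ∑ s, p s * X s ^ 2 := by
  set m : ℝ := ∑ s, p s * X s with hm
  have h1 : 0 ≤ ∑ s, p s * (X s - m) ^ 2 :=
    sum_nonneg fun s _ => mul_nonneg (p0 s) (sq_nonneg _)
  have h2 : ∑ s, p s * (X s - m) ^ 2 = ∑ s, p s * X s ^ 2 - m ^ 2 := by
    have e : ∀ s, p s * (X s - m) ^ 2 = p s * X s ^ 2 - 2 * m * (p s * X s) + m ^ 2 * p s := by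
      intro s; ring
    simp only [e, sum_add_distrib, sum_sub_distrib, ← mul_sum]
    rw [← hm, p1]
    ring
  linarith

end Good

open Good in
open scoped Classical in
/-- Module 11: the probability of good pairs. -/
theorem stGood (hB : StBasic) (hL : StL1) (hD : StDiag) (hH : StHit) : StGood := by
  intro k N A B U _ _ _ _ P p q η h hW hc hη1 hh
  obtain ⟨bf, hW'⟩ := hB P p q η hW
  obtain ⟨-, L2, -, -⟩ := hL P p q η hW
  obtain ⟨-, L2', -, -⟩ := hL P.swap q p η hW'
  have D := hD P p q η hW hc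
  have Hh := hH P p q η h hW hh
  simp only [bf.cvswap, bf.zzswap] at L2'
  have p0 := hW.p0
  have p1 := hW.p1
  set c : U → ℝ := P.cv p q with hcdef
  -- sum of the label weights
  have omsum : ∀ s, ∑ w, P.om q s (some w) ≤ 1 := by
    intro s
    have h1 := bf.om1 s
    rw [Fintype.sum_option] at h1
    have h2 := bf.om0 s none
    linarith
  have omsum0 : ∀ s, 0 ≤ ∑ w, P.om q s (some w) := fun s => sum_nonneg fun w _ => bf.om0 s _
  -- total mass of sigma
  have hall : 1 - 2 * η ≤ ∑ w, ∑ u, P.sg p q w u := by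
    have e1 : ∑ w, ∑ u, P.sg p q w u = ∑ s, p s * (∑ w, P.om q s (some w)) ^ 2 := by
      simp only [Sys.sg]
      have : ∀ w : U, ∑ u, ∑ s, p s * (P.om q s (some w) * P.om q s (some u)) =
          ∑ s, p s * (P.om q s (some w) * ∑ u, P.om q s (some u)) := by
        intro w
        rw [sum_comm]
        refine sum_congr rfl fun s _ => ?_
        rw [mul_sum, mul_sum]
      simp only [this]
      rw [sum_comm]
      refine sum_congr rfl fun s _ => ?_
      rw [← mul_sum, ← sum_mul, sq]
    have e2 : ∑ w, P.ev p q w = ∑ s, p s * ∑ w, P.om q s (some w) := by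
      simp only [Sys.ev]
      rw [sum_comm]
      exact sum_congr rfl fun s _ => (mul_sum _ _ _).symm
    have h1 := sq_mean_le p (fun s => ∑ w, P.om q s (some w)) p0 p1
    have h2 := bf.ev1
    rw [← e2] at h1
    rw [e1]
    nlinarith [sq_nonneg η]
  -- non PP pairs
  have hnotcc : ∑ w, ∑ u, (if P.PP p q w u then 0 else c w * c u) ≤
      ∑ w, c w ^ 2 + 2 * ∑ w, ∑ u, |P.swap.sg q p w u - c w * c u| := by
    have h1 : ∀ w u, (if P.PP p q w u then 0 else c w * c u) ≤
        (if w = u then c w ^ 2 else 0) + 2 * |P.swap.sg q p w u - c w * c u| := by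
      intro w u
      have ha := abs_nonneg (P.swap.sg q p w u - c w * c u)
      have hcw : 0 ≤ c w := by
        rw [hcdef]; exact mul_nonneg (bf.av0 w) (bf.bv0 w)
      split_ifs with h2 h3 h3
      · have := sq_nonneg (c w); linarith
      · linarith
      · subst h3
        rw [sq]; linarith
      · by_cases h4 : 0 < c w * c u
        · have h5 : ¬ c w * c u / 2 ≤ P.swap.sg q p w u := fun h5 => h2 ⟨h3, h4, h5⟩
          rw [not_le] at h5
          have h6 := neg_abs_le (P.swap.sg q p w u - c w * c u)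
          linarith
        · linarith
    calc ∑ w, ∑ u, (if P.PP p q w u then 0 else c w * c u)
        ≤ ∑ w, ∑ u, ((if w = u then c w ^ 2 else 0) + 2 * |P.swap.sg q p w u - c w * c u|) :=
          sum_le_sum fun w _ => sum_le_sum fun u _ => h1 w u
      _ = _ := by
          simp only [sum_add_distrib, sum_ite_eq, mem_univ, if_true, ← mul_sum]
  have hnot : ∑ w, ∑ u, (if P.PP p q w u then 0 else P.sg p q w u) ≤
      ∑ w, c w ^ 2 + 2 * ∑ w, ∑ u, |P.swap.sg q p w u - c w * c u| +
        ∑ w, ∑ u, |P.sg p q w u - c w * c u| := by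
    refine le_trans ?_ (add_le_add_left hnotcc _)
    rw [← sum_add_distrib]
    refine sum_le_sum fun w _ => ?_
    rw [← sum_add_distrib]
    refine sum_le_sum fun u _ => ?_
    have ha := le_abs_self (P.sg p q w u - c w * c u)
    have ha' := abs_nonneg (P.sg p q w u - c w * c u)
    split_ifs <;> linarith
  -- PP pairs
  have hPP : ∑ s, ∑ w, ∑ u, (if P.PP p q w u then
      p s * (P.om q s (some w) * P.om q s (some u)) else 0) =
      ∑ w, ∑ u, P.sg p q w u - ∑ w, ∑ u, (if P.PP p q w u then 0 else P.sg p q w u) := by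
    rw [← sum_sub_distrib, sum_comm]
    refine sum_congr rfl fun w _ => ?_
    rw [← sum_sub_distrib, sum_comm]
    refine sum_congr rfl fun u _ => ?_
    split_ifs
    · rw [sub_zero]; rfl
    · simp
  -- hits
  have hhit1 : ∑ s, ∑ w, ∑ u, (if P.Hit q h s w then
      p s * (P.om q s (some w) * P.om q s (some u)) else 0) ≤ P.pHit p q h := by
    unfold Sys.pHit
    refine sum_le_sum fun s _ => sum_le_sum fun w _ => ?_
    split_ifs
    · rw [← mul_sum, ← mul_sum]
      have := mul_le_mul_of_nonneg_left (omsum s) (mul_nonneg (p0 s) (bf.om0 s (some w)))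
      linarith
    · simp
  have hhit2 : ∑ s, ∑ w, ∑ u, (if P.Hit q h s u then
      p s * (P.om q s (some w) * P.om q s (some u)) else 0) ≤ P.pHit p q h := by
    refine le_trans (le_of_eq ?_) hhit1
    refine sum_congr rfl fun s _ => ?_
    rw [sum_comm]
    refine sum_congr rfl fun w _ => sum_congr rfl fun u _ => ?_
    split_ifs
    · ring
    · rfl
  have hmain : ∑ s, ∑ w, ∑ u, (if P.PP p q w u then
      p s * (P.om q s (some w) * P.om q s (some u)) else 0) -
      ∑ s, ∑ w, ∑ u, (if P.Hit q h s w then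
        p s * (P.om q s (some w) * P.om q s (some u)) else 0) -
      ∑ s, ∑ w, ∑ u, (if P.Hit q h s u then
        p s * (P.om q s (some w) * P.om q s (some u)) else 0) ≤ P.pGood p q h := by
    unfold Sys.pGood
    simp only [← sum_sub_distrib]
    refine sum_le_sum fun s _ => sum_le_sum fun w _ => sum_le_sum fun u _ => ?_
    have h0 : 0 ≤ p s * (P.om q s (some w) * P.om q s (some u)) :=
      mul_nonneg (p0 s) (mul_nonneg (bf.om0 s _) (bf.om0 s _))
    by_cases h1 : P.PP p q w u <;> by_cases h2 : P.Hit q h s w <;>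
      by_cases h3 : P.Hit q h s u <;> simp [h1, h2, h3] <;> linarith
  have L2c : ∑ w, ∑ u, |P.sg p q w u - c w * c u| ≤
      2 * Real.sqrt (P.zz p q * P.gh p q 1) + (1 + P.zz p q) * η := L2
  linarith

end MP668cf7.Sep
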