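import Pool.Agent.Lib.MP_668cf7_lc.CoNPDefs

/-!
# ZAM versus coNP: definitions and statements of the modules

`Meet x y`: the vectors `x, y : [k] → [N]` agree in some coordinate (a 0-input).
-/

namespace MP668cf7.Sep

open Finset

/-- `x` and `y` agree in some coordinate. -/
def Meet {k N : ℕ} (x y : Fin k → Fin N) : Prop := ∃ b, x b = y b

instance {k N : ℕ} (x y : Fin k → Fin N) : Decidable (Meet x y) :=
  inferInstanceAs (Decidable (∃ b, x b = y b))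

theorem meet_comm {k N : ℕ} (x y : Fin k → Fin N) : Meet x y ↔ Meet y x :=
  ⟨fun ⟨b, h⟩ => ⟨b, h.symm⟩, fun ⟨b, h⟩ => ⟨b, h.symm⟩⟩

/-- A system: points `s : A`, `t : B` carry vectors `x s`, `y t` and finite sets `S s`, `T t`,
and `|S s ∩ T t| = 1` whenever the vectors do not meet. -/
structure Sys (k N : ℕ) (A B U : Type) [DecidableEq U] where
  x : A → Fin k → Fin N
  y : B → Fin k → Fin N
  S : A → Finset U
  T : B → Finset U
  one : ∀ s t, ¬ Meet (x s) (y t) → (S s ∩ T t).card = 1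

/-- Relative entropy (unnormalised). -/
noncomputable def KL {ι : Type} [Fintype ι] (ν ν0 : ι → ℝ) : ℝ :=
  ∑ i, ν i * Real.log (ν i / ν0 i)

namespace Sys

variable {k N : ℕ} {A B U : Type} [DecidableEq U]

/-- Exchange the two players. -/
def swap (P : Sys k N A B U) : Sys k N B A U where
  x := P.y
  y := P.x
  S := P.T
  T := P.S
  one := fun s t h => by
    rw [inter_comm]
    exact P.one t s (fun h' => h ((meet_comm _ _).1 h'))

@[simp] theorem swap_swap (P : Sys k N A B U) : P.swap.swap = P := rfl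

open scoped Classical in
/-- The label of `(s, t)`: the element `w` if `S s ∩ T t = {w}`, and `none` if there is none. -/
noncomputable def lab (P : Sys k N A B U) (s : A) (t : B) : Option U :=
  if h : ∃ w, P.S s ∩ P.T t = {w} then some h.choose else none

theorem lab_eq_some (P : Sys k N A B U) (s : A) (t : B) (w : U) :
    P.lab s t = some w ↔ P.S s ∩ P.T t = {w} := by
  unfold lab
  split_ifs with h
  · have hc := h.choose_spec
    constructor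
    · intro h'
      have : h.choose = w := by simpa using h'
      rw [← this]
      exact hc
    · intro h'
      have h2 : ({w} : Finset U) = {h.choose} := h'.symm.trans hc
      exact congrArg some (by simpa using h2.symm)
  · simp only [false_iff]
    exact fun h' => h ⟨w, h'⟩

theorem swap_lab (P : Sys k N A B U) (s : A) (t : B) : P.swap.lab t s = P.lab s t := by
  apply Option.ext
  intro w
  have h1 := P.swap.lab_eq_some t s w
  have h2 := P.lab_eq_some s t w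
  have h3 : P.swap.S t ∩ P.swap.T s = P.S s ∩ P.T t := inter_comm _ _
  rw [h3] at h1
  exact h1.trans h2.symm

variable [Fintype A] [Fintype B] [Fintype U]

/-- `ω_s(κ)`: the probability over `t ∼ q` that the label of `(s, t)` is `κ`. -/
noncomputable def om (P : Sys k N A B U) (q : B → ℝ) (s : A) (κ : Option U) : ℝ :=
  ∑ t, if P.lab s t = κ then q t else 0

/-- `a_u = P_s(u ∈ S)`. -/
noncomputable def av (P : Sys k N A B U) (p : A → ℝ) (u : U) : ℝ :=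
  ∑ s, if u ∈ P.S s then p s else 0

/-- `b_u = P_t(u ∈ T)`. -/
noncomputable def bv (P : Sys k N A B U) (q : B → ℝ) (u : U) : ℝ :=
  ∑ t, if u ∈ P.T t then q t else 0

/-- `c_u = a_u b_u`. -/
noncomputable def cv (P : Sys k N A B U) (p : A → ℝ) (q : B → ℝ) (u : U) : ℝ :=
  P.av p u * P.bv q u

/-- `e_w = P(S ∩ T = {w})`. -/
noncomputable def ev (P : Sys k N A B U) (p : A → ℝ) (q : B → ℝ) (w : U) : ℝ :=
  ∑ s, p s * P.om q s (some w)

/-- `z = ∑ c_u`. -/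
noncomputable def zz (P : Sys k N A B U) (p : A → ℝ) (q : B → ℝ) : ℝ := ∑ u, P.cv p q u

/-- `ν(κ, u) = ∑_s p(s) ∏_a ω_s(κ_a) 1[u ∈ S s] b_u`. -/
noncomputable def nu (P : Sys k N A B U) (p : A → ℝ) (q : B → ℝ) (l : ℕ)
    (z : (Fin l → Option U) × U) : ℝ :=
  (∑ s, if z.2 ∈ P.S s then p s * ∏ a, P.om q s (z.1 a) else 0) * P.bv q z.2

/-- `ν₀(κ, u) = (∑_s p(s) ∏_a ω_s(κ_a)) c_u`. -/
noncomputable def nu0 (P : Sys k N A B U) (p : A → ℝ) (q : B → ℝ) (l : ℕ)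
    (z : (Fin l → Option U) × U) : ℝ :=
  (∑ s, p s * ∏ a, P.om q s (z.1 a)) * P.cv p q z.2

/-- `ĝ_l`. -/
noncomputable def gh (P : Sys k N A B U) (p : A → ℝ) (q : B → ℝ) (l : ℕ) : ℝ :=
  KL (P.nu p q l) (P.nu0 p q l)

/-- The information `g(φ)` of a function `φ` on `A`. -/
noncomputable def gphi (P : Sys k N A B U) (p : A → ℝ) (q : B → ℝ) {κ : Type} [Fintype κ]
    [DecidableEq κ] (φ : A → κ) : ℝ :=
  KL (fun z : κ × U => (∑ s, if φ s = z.1 ∧ z.2 ∈ P.S s then p s else 0) * P.bv q z.2)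
    (fun z : κ × U => (∑ s, if φ s = z.1 then p s else 0) * P.cv p q z.2)

/-- `σ(w, u) = E_s ω_s(w) ω_s(u)`; `τ` is `P.swap.sg q p`. -/
noncomputable def sg (P : Sys k N A B U) (p : A → ℝ) (q : B → ℝ) (w u : U) : ℝ :=
  ∑ s, p s * (P.om q s (some w) * P.om q s (some u))

/-- the pairs `(w, u)` with `w ≠ u` and `τ(w, u) ≥ c_w c_u / 2 > 0`. -/
def PP (P : Sys k N A B U) (p : A → ℝ) (q : B → ℝ) (w u : U) : Prop :=
  w ≠ u ∧ 0 < P.cv p q w * P.cv p q u ∧ P.cv p q w * P.cv p q u / 2 ≤ P.swap.sg q p w u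

open scoped Classical in
/-- The labels `(b, j)` of the pair `(w, u)`. -/
noncomputable def J (P : Sys k N A B U) (p : A → ℝ) (q : B → ℝ) (w u : U) :
    Finset (Fin k × Fin N) :=
  univ.filter fun z => P.swap.sg q p w u / k ≤
    ∑ t, if P.y t z.1 = z.2 then
      q t * (P.swap.om p t (some w) * P.swap.om p t (some u)) else 0

open scoped Classical in
/-- The heavy labels of `w`. -/
noncomputable def Hv (P : Sys k N A B U) (q : B → ℝ) (h : ℝ) (w : U) :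
    Finset (Fin k × Fin N) :=
  univ.filter fun z => h * P.bv q w ≤ ∑ t, if P.y t z.1 = z.2 ∧ w ∈ P.T t then q t else 0

/-- The labels of `(w, u)` that are not heavy for `w` or `u`. -/
noncomputable def J' (P : Sys k N A B U) (p : A → ℝ) (q : B → ℝ) (h : ℝ) (w u : U) :
    Finset (Fin k × Fin N) :=
  P.J p q w u \ (P.Hv q h w ∪ P.Hv q h u)

/-- `(w1, w2, u)` is colliding. -/
def Coll (P : Sys k N A B U) (p : A → ℝ) (q : B → ℝ) (h : ℝ) (w1 w2 u : U) : Prop :=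
  P.PP p q w1 u ∧ P.PP p q w2 u ∧ (P.J' p q h w1 u ∩ P.J' p q h w2 u).Nonempty

/-- The event `E_l`: some new pair `(κ a, u)` repeats a light label of an old pair. -/
def EE (P : Sys k N A B U) (p : A → ℝ) (q : B → ℝ) (h : ℝ) {l : ℕ}
    (κ : Fin l → Option U) (u : U) : Prop :=
  ∃ (a : Fin l) (w : U), κ a = some w ∧ P.PP p q w u ∧
    ∃ (a' b' : Fin l) (w' w'' : U), a' < b' ∧ κ a' = some w' ∧ κ b' = some w'' ∧
      P.PP p q w' w'' ∧ (P.J' p q h w u ∩ P.J' p q h w' w'').Nonempty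

/-- The vector of `s` hits a heavy label of `w`. -/
def Hit (P : Sys k N A B U) (q : B → ℝ) (h : ℝ) (s : A) (w : U) : Prop :=
  ∃ b, (b, P.x s b) ∈ P.Hv q h w

open scoped Classical in
/-- Probability that the pair `(w, u) ∼ ω_s ⊗ ω_s` is good. -/
noncomputable def pGood (P : Sys k N A B U) (p : A → ℝ) (q : B → ℝ) (h : ℝ) : ℝ :=
  ∑ s, ∑ w, ∑ u, if P.PP p q w u ∧ ¬ P.Hit q h s w ∧ ¬ P.Hit q h s u then
    p s * (P.om q s (some w) * P.om q s (some u)) else 0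

open scoped Classical in
/-- Probability that `(w1, w2, u) ∼ ω_s ⊗ ω_s ⊗ ω_s` is colliding. -/
noncomputable def pColl (P : Sys k N A B U) (p : A → ℝ) (q : B → ℝ) (h : ℝ) : ℝ :=
  ∑ s, ∑ w1, ∑ w2, ∑ u, if P.Coll p q h w1 w2 u then
    p s * (P.om q s (some w1) * P.om q s (some w2) * P.om q s (some u)) else 0

open scoped Classical in
/-- Probability of `E_l`. -/
noncomputable def pE (P : Sys k N A B U) (p : A → ℝ) (q : B → ℝ) (h : ℝ) (l : ℕ) : ℝ :=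
  ∑ s, ∑ κ : Fin l → Option U, ∑ u, if P.EE p q h κ u then
    p s * ((∏ a, P.om q s (κ a)) * P.om q s (some u)) else 0

open scoped Classical in
/-- Mass of the `u` for which `z` is a label of `(w, u)`. -/
noncomputable def spr (P : Sys k N A B U) (p : A → ℝ) (q : B → ℝ) (w : U)
    (z : Fin k × Fin N) : ℝ :=
  ∑ u, if P.PP p q w u ∧ z ∈ P.J p q w u then P.cv p q u else 0

open scoped Classical in
/-- Probability that the vector of `s` hits a heavy label of `w ∼ ω_s`. -/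
noncomputable def pHit (P : Sys k N A B U) (p : A → ℝ) (q : B → ℝ) (h : ℝ) : ℝ :=
  ∑ s, ∑ w, if P.Hit q h s w then p s * P.om q s (some w) else 0

open scoped Classical in
/-- `c`-mass of the `u` with `E_l(κ, u)`. -/
noncomputable def massE (P : Sys k N A B U) (p : A → ℝ) (q : B → ℝ) (h : ℝ) {l : ℕ}
    (κ : Fin l → Option U) : ℝ :=
  ∑ u, if P.EE p q h κ u then P.cv p q u else 0

open scoped Classical in
/-- `c`-mass of the `u` with `Coll(w1, w2, u)`. -/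
noncomputable def massC (P : Sys k N A B U) (p : A → ℝ) (q : B → ℝ) (h : ℝ) (w1 w2 : U) : ℝ :=
  ∑ u, if P.Coll p q h w1 w2 u then P.cv p q u else 0

open scoped Classical in
/-- `c ⊗ c`-mass of the bad pairs `F = {(w1, w2) : massC w1 w2 ≥ 1 / k}`. -/
noncomputable def massF (P : Sys k N A B U) (p : A → ℝ) (q : B → ℝ) (h : ℝ) : ℝ :=
  ∑ w1, ∑ w2, if 1 / (k : ℝ) ≤ P.massC p q h w1 w2 then P.cv p q w1 * P.cv p q w2 else 0

/-! ### Rectangles `A' × B'` -/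

/-- `Z = ∑ |S ∩ T|` over the rectangle. -/
noncomputable def Zr (P : Sys k N A B U) (A' : Finset A) (B' : Finset B) : ℝ :=
  ∑ s ∈ A', ∑ t ∈ B', ((P.S s ∩ P.T t).card : ℝ)

/-- `Y = ∑_{meet} (|S ∩ T| + 1)`. -/
noncomputable def Yr (P : Sys k N A B U) (A' : Finset A) (B' : Finset B) : ℝ :=
  ∑ s ∈ A', ∑ t ∈ B', if Meet (P.x s) (P.y t) then (((P.S s ∩ P.T t).card : ℝ) + 1) else 0

/-- `G = #{meeting pairs with S ∩ T ≠ ∅}`. -/
noncomputable def Gr (P : Sys k N A B U) (A' : Finset A) (B' : Finset B) : ℝ :=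
  ∑ s ∈ A', ∑ t ∈ B', if Meet (P.x s) (P.y t) ∧ (P.S s ∩ P.T t).Nonempty then (1 : ℝ) else 0

/-- number of meeting pairs -/
noncomputable def Mr (P : Sys k N A B U) (A' : Finset A) (B' : Finset B) : ℝ :=
  ∑ s ∈ A', ∑ t ∈ B', if Meet (P.x s) (P.y t) then (1 : ℝ) else 0

/-- `#{s ∈ A' : u ∈ S s}` -/
noncomputable def al (P : Sys k N A B U) (A' : Finset A) (u : U) : ℝ :=
  ((A'.filter fun s => u ∈ P.S s).card : ℝ)

/-- `Ent = ∑_u α_u β_u log (|A'||B'| / (α_u β_u))`. -/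
noncomputable def Er (P : Sys k N A B U) (A' : Finset A) (B' : Finset B) : ℝ :=
  ∑ u, P.al A' u * P.swap.al B' u *
    Real.log ((A'.card * B'.card : ℝ) / (P.al A' u * P.swap.al B' u))

/-- The potential. -/
noncomputable def Psi (P : Sys k N A B U) (K nR n : ℕ) (A' : Finset A) (B' : Finset B) : ℝ :=
  (((n : ℝ) - 2 * K) * P.Zr A' B' - 80 * K * P.Er A' B' - 2 * n * (K : ℝ) ^ 28 * P.Yr A' B') / nR

end Sys

open scoped Classical in
/-- Uniform weights on a finite set. -/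
noncomputable def unif {A : Type} (A' : Finset A) (s : A) : ℝ :=
  if s ∈ A' then 1 / (A'.card : ℝ) else 0

/-- Probability weights `p`, `q` for which the meeting pairs carry little mass. -/
structure World {k N : ℕ} {A B U : Type} [DecidableEq U] [Fintype A] [Fintype B] [Fintype U]
    (P : Sys k N A B U) (p : A → ℝ) (q : B → ℝ) (η : ℝ) : Prop where
  p0 : ∀ s, 0 ≤ p s
  p1 : ∑ s, p s = 1
  q0 : ∀ t, 0 ≤ q t
  q1 : ∑ t, q t = 1
  clean : ∑ s, ∑ t, (if Meet (P.x s) (P.y t) then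
    p s * q t * (((P.S s ∩ P.T t).card : ℝ) + 1) else 0) ≤ η

/-- Basic facts about worlds. -/
structure BasicFacts {k N : ℕ} {A B U : Type} [DecidableEq U] [Fintype A] [Fintype B] [Fintype U]
    (P : Sys k N A B U) (p : A → ℝ) (q : B → ℝ) (η : ℝ) : Prop where
  eta0 : 0 ≤ η
  om0 : ∀ s κ, 0 ≤ P.om q s κ
  om1 : ∀ s, ∑ κ, P.om q s κ = 1
  omle : ∀ s w, P.om q s (some w) ≤ if w ∈ P.S s then P.bv q w else 0
  av0 : ∀ u, 0 ≤ P.av p u
  av1 : ∀ u, P.av p u ≤ 1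
  bv0 : ∀ u, 0 ≤ P.bv q u
  bv1 : ∀ u, P.bv q u ≤ 1
  evle : ∀ w, P.ev p q w ≤ P.cv p q w
  ev0 : ∀ w, 0 ≤ P.ev p q w
  evsum : ∑ w, (P.cv p q w - P.ev p q w) ≤ η
  ev1 : 1 - η ≤ ∑ w, P.ev p q w
  zz0 : 1 - η ≤ P.zz p q
  zz1 : P.zz p q ≤ 1 + η
  evswap : ∀ w, P.swap.ev q p w = P.ev p q w
  avswap : ∀ u, P.swap.av q u = P.bv q u
  bvswap : ∀ u, P.swap.bv p u = P.av p u
  cvswap : ∀ u, P.swap.cv q p u = P.cv p q u
  zzswap : P.swap.zz q p = P.zz p q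
  iota : ∑ w, (∑ s, ∑ t, if w ∈ P.S s ∧ w ∈ P.T t ∧ Meet (P.x s) (P.y t) then
    p s * q t else 0) ≤ η

/-! ### Statements of the modules -/

/-- Module 1 (Corruption bound). -/
def StCorr : Prop := ∀ (k N : ℕ), 1000 ≤ N → 100 * k ≤ N →
  ∀ (R Q : Type) [Fintype R] [Fintype Q] (A'' : Finset ((Fin k → Fin N) × R))
    (B'' : Finset ((Fin k → Fin N) × Q)),
    (95 / 100 : ℝ) * ((k : ℝ) / N) * ((A''.card : ℝ) * B''.card) -
      ((k : ℝ) / N) * Real.exp (-(k : ℝ) / 10000) *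
        ((Fintype.card ((Fin k → Fin N) × R) : ℝ) * Fintype.card ((Fin k → Fin N) × Q)) ≤
      ∑ s ∈ A'', ∑ t ∈ B'', if Meet s.1 t.1 then (1 : ℝ) else 0

/-- Module 2 (relative entropy tools). -/
def StKLEvent : Prop := ∀ (ι : Type) [Fintype ι] (ν ν0 : ι → ℝ), (∀ i, 0 ≤ ν i) →
  (∀ i, 0 ≤ ν0 i) → (∀ i, ν0 i = 0 → ν i = 0) → ∑ i, ν i = ∑ i, ν0 i →
  ∀ E : Finset ι, ∑ i ∈ E, ν i ≤ KL ν ν0 + 2 * ∑ i ∈ E, ν0 i

def StKLTV : Prop := ∀ (ι : Type) [Fintype ι] (ν ν0 : ι → ℝ), (∀ i, 0 ≤ ν i) →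
  (∀ i, 0 ≤ ν0 i) → (∀ i, ν0 i = 0 → ν i = 0) → ∑ i, ν i = ∑ i, ν0 i →
  0 ≤ KL ν ν0 ∧ ∑ i, |ν i - ν0 i| ≤ 2 * Real.sqrt ((∑ i, ν i) * KL ν ν0)

def StKLMix : Prop := ∀ (ι I : Type) [Fintype ι] [Fintype I] (lam : I → ℝ)
  (ν ν0 : I → ι → ℝ), (∀ j, 0 ≤ lam j) → (∀ j i, 0 ≤ ν j i) → (∀ j i, 0 ≤ ν0 j i) →
  (∀ j i, ν0 j i = 0 → ν j i = 0) →
  KL (fun i => ∑ j, lam j * ν j i) (fun i => ∑ j, lam j * ν0 j i) ≤
    ∑ j, lam j * KL (ν j) (ν0 j)

/-- Module 3 (averaging over the revealed points `t⃗`). -/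
def StAvg : Prop := ∀ {k N : ℕ} {A B U : Type} [DecidableEq U] [Fintype A] [Fintype B]
  [Fintype U] (P : Sys k N A B U) (p : A → ℝ) (q : B → ℝ),
  (∀ s, 0 ≤ p s) → (∀ t, 0 ≤ q t) → ∑ t, q t = 1 → ∀ l : ℕ,
  ∃ τ : Fin l → B, P.gh p q l ≤ P.gphi p q (fun s (a : Fin l) => P.lab s (τ a))

/-- Module 4 (entropy drop). -/
def StDrop : Prop := ∀ {k N : ℕ} {A B U : Type} [DecidableEq U] [Fintype A] [Fintype B]
  [Fintype U] (P : Sys k N A B U) (A' : Finset A) (B' : Finset B),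
  A'.Nonempty → B'.Nonempty → ∀ (κ : Type) [Fintype κ] [DecidableEq κ] (φ : A → κ),
  ∑ i, P.Er (A'.filter fun s => φ s = i) B' =
    P.Er A' B' - (A'.card : ℝ) * B'.card * P.gphi (unif A') (unif B') φ

/-- Module 5 (basic facts). -/
def StBasic : Prop := ∀ {k N : ℕ} {A B U : Type} [DecidableEq U] [Fintype A] [Fintype B]
  [Fintype U] (P : Sys k N A B U) (p : A → ℝ) (q : B → ℝ) (η : ℝ),
  World P p q η → BasicFacts P p q η ∧ World P.swap q p η

/-- Module 6 (`L¹` estimates). -/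
def StL1 : Prop := ∀ {k N : ℕ} {A B U : Type} [DecidableEq U] [Fintype A] [Fintype B]
  [Fintype U] (P : Sys k N A B U) (p : A → ℝ) (q : B → ℝ) (η : ℝ), World P p q η →
  (∀ l, 0 ≤ P.gh p q l) ∧
  (∑ w, ∑ u, |P.sg p q w u - P.cv p q w * P.cv p q u| ≤
    2 * Real.sqrt (P.zz p q * P.gh p q 1) + (1 + P.zz p q) * η) ∧
  (∑ w, P.ev p q w * P.bv q w * (1 - P.av p w) ≤ 2 * Real.sqrt (P.zz p q * P.gh p q 1)) ∧
  (∀ (l : ℕ) (E : Finset ((Fin l → Option U) × U)),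
    ∑ z ∈ E, P.nu p q l z ≤ P.gh p q l + 2 * ∑ z ∈ E, P.nu0 p q l z)

/-- Module 7 (diagonal mass). -/
def StDiag : Prop := ∀ {k N : ℕ} {A B U : Type} [DecidableEq U] [Fintype A] [Fintype B]
  [Fintype U] (P : Sys k N A B U) (p : A → ℝ) (q : B → ℝ) (η : ℝ), World P p q η →
  (∀ u, P.cv p q u ≤ 9 / 10) →
  ∑ w, P.cv p q w ^ 2 ≤ 20 * (Real.sqrt (P.zz p q * P.gh p q 1) +
    Real.sqrt (P.zz p q * P.swap.gh q p 1)) + η

/-- Module 8 (labels). -/
def StLabels : Prop := ∀ {k N : ℕ} {A B U : Type} [DecidableEq U] [Fintype A] [Fintype B]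
  [Fintype U] (P : Sys k N A B U) (p : A → ℝ) (q : B → ℝ) (η h : ℝ), World P p q η →
  1 ≤ k → 0 < h →
  (∀ w u, P.PP p q w u ↔ P.PP p q u w) ∧ (∀ w u, P.J p q w u = P.J p q u w) ∧
  (∀ w u, P.PP p q w u → ((P.J p q w u).card : ℝ) ≤ (k : ℝ) ^ 2) ∧
  (∀ w u s, P.PP p q w u → w ∈ P.S s → u ∈ P.S s → ∃ b, (b, P.x s b) ∈ P.J p q w u) ∧
  (∀ w (z : Fin k × Fin N), z ∉ P.Hv q h w → P.spr p q w z ≤ 2 * (k : ℝ) * h)

/-- Module 9 (heavy hits). -/
def StHit : Prop := ∀ {k N : ℕ} {A B U : Type} [DecidableEq U] [Fintype A] [Fintype B]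
  [Fintype U] (P : Sys k N A B U) (p : A → ℝ) (q : B → ℝ) (η h : ℝ), World P p q η →
  0 < h →
  P.pHit p q h ≤ (k : ℝ) / h ^ 2 * η

/-- Module 10 (masses of the exceptional events). -/
def StMass : Prop := ∀ {k N : ℕ} {A B U : Type} [DecidableEq U] [Fintype A] [Fintype B]
  [Fintype U] (P : Sys k N A B U) (p : A → ℝ) (q : B → ℝ) (η h : ℝ), World P p q η →
  1 ≤ k → 0 < h →
  (∀ (l : ℕ) (κ : Fin l → Option U), P.massE p q h κ ≤ (l : ℝ) ^ 3 * (k : ℝ) ^ 3 * h) ∧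
  P.massF p q h ≤ 2 * (k : ℝ) ^ 4 * h * P.zz p q ^ 2

/-- Module 11 (probability of good pairs). -/
def StGood : Prop := ∀ {k N : ℕ} {A B U : Type} [DecidableEq U] [Fintype A] [Fintype B]
  [Fintype U] (P : Sys k N A B U) (p : A → ℝ) (q : B → ℝ) (η h : ℝ), World P p q η →
  (∀ u, P.cv p q u ≤ 9 / 10) → η ≤ 1 → 0 < h →
  1 - 2 * η - 2 * ((k : ℝ) / h ^ 2 * η)
    - (20 * (Real.sqrt (P.zz p q * P.gh p q 1) + Real.sqrt (P.zz p q * P.swap.gh q p 1)) + η)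
    - 2 * (2 * Real.sqrt (P.zz p q * P.swap.gh q p 1) + (1 + P.zz p q) * η)
    - (2 * Real.sqrt (P.zz p q * P.gh p q 1) + (1 + P.zz p q) * η) ≤ P.pGood p q h

/-- Module 12 (probability of `Coll` and of `E_l`). -/
def StBad : Prop := ∀ {k N : ℕ} {A B U : Type} [DecidableEq U] [Fintype A] [Fintype B]
  [Fintype U] (P : Sys k N A B U) (p : A → ℝ) (q : B → ℝ) (η h : ℝ), World P p q η →
  1 ≤ k → 0 < h →
  P.pColl p q h ≤ P.gh p q 1 + P.gh p q 2 + 4 * (k : ℝ) ^ 4 * h * P.zz p q ^ 2 + 2 / k ∧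
  ∀ l : ℕ, P.pE p q h l ≤ P.gh p q l + 2 * ((l : ℝ) ^ 3 * (k : ℝ) ^ 3 * h)

/-- Module 13 (abstract counting). -/
def StCount : Prop := ∀ (k L : ℕ) (good : Fin L → Fin L → Prop) (b : Fin L → Fin L → Fin k)
  (coll : Fin L → Fin L → Fin L → Prop) (E : Fin L → Prop) [DecidableRel good]
  [DecidablePred E] [∀ a a' l, Decidable (coll a a' l)],
  (∀ a a' l, a < a' → a' < l → good a l → good a' l → b a l = b a' l → coll a a' l) →
  (∀ a l a' l', a < l → a' < l' → l' < l → good a l → good a' l' → b a l = b a' l' → E l) →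
  ∑ l, ((((univ.filter fun a : Fin L => a < l ∧ good a l).card : ℝ)
    - ((univ.filter fun z : Fin L × Fin L => z.1 < z.2 ∧ z.2 < l ∧ coll z.1 z.2 l).card : ℝ))
    - if E l then (l : ℝ) else 0) ≤ k

/-- Module 14 (marginalisation of product weights). -/
def StMarg : Prop := ∀ (ι : Type) [Fintype ι] (ω : ι → ℝ), ∑ i, ω i = 1 →
  ∀ (L j : ℕ) (e : Fin j → Fin L), Function.Injective e → ∀ F : (Fin j → ι) → ℝ,
  ∑ κ : Fin L → ι, (∏ a, ω (κ a)) * F (fun i => κ (e i)) = ∑ κ' : Fin j → ι, (∏ a, ω (κ' a)) * F κ'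

/-- Module 15 (expected count). -/
def StExp : Prop := ∀ {k N : ℕ} {A B U : Type} [DecidableEq U] [Fintype A] [Fintype B]
  [Fintype U] (P : Sys k N A B U) (p : A → ℝ) (q : B → ℝ) (η h : ℝ), World P p q η →
  1 ≤ k → 0 < h → ∀ L : ℕ,
  ∑ l ∈ range L, ((l : ℝ) * P.pGood p q h - (l : ℝ) * (l - 1) / 2 * P.pColl p q h
    - (l : ℝ) * P.pE p q h l) ≤ k

/-- Module 16 (World Lemma). -/
def StWorld : Prop := ∀ (K : ℕ), 10000 ≤ K → ∀ {N : ℕ} {A B U : Type} [DecidableEq U]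
  [Fintype A] [Fintype B] [Fintype U] (P : Sys (K ^ 2) N A B U) (p : A → ℝ) (q : B → ℝ),
  World P p q (1 / (K : ℝ) ^ 28) → (∀ u, P.cv p q u ≤ 9 / 10) →
  (∃ l : ℕ, 1 ≤ l ∧ l ≤ 2 * K ∧ (l : ℝ) / (40 * K) ≤ P.gh p q l) ∨
    1 / (40 * (K : ℝ)) ≤ P.swap.gh q p 1

/-- Module 17 (induction over rectangles). -/
def StInduct : Prop := ∀ (K : ℕ), 10000 ≤ K → ∀ {N : ℕ} {A B U : Type} [DecidableEq U]
  [Fintype A] [Fintype B] [Fintype U] (P : Sys (K ^ 2) N A B U) (ε err : ℝ), 0 ≤ ε → 0 ≤ err →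
  (∀ (A' : Finset A) (B' : Finset B),
    (95 / 100 : ℝ) * ε * ((A'.card : ℝ) * B'.card) - err ≤ P.Mr A' B') →
  ∀ (nR n : ℕ), n ≤ nR → ∀ (A' : Finset A) (B' : Finset B),
  (85 / 100 : ℝ) * ε * P.Psi K nR n A' B' - err * ((Fintype.card U : ℝ) + 1) ^ n ≤ P.Gr A' B'

/-- The function: `true` iff the vectors do not meet. -/
def fkN (k N : ℕ) (x y : Fin k → Fin N) : Bool := decide (¬ Meet x y)

/-- Module 18 (from a protocol to a system). -/
def StRoot : Prop := ∀ (k N : ℕ), 3 ≤ N → ∀ Pr : AMProtocol (Fin k → Fin N) (Fin k → Fin N),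
  Pr.IsZAM (fkN k N) →
  ∃ (R Q : Type) (_ : Fintype R) (_ : Fintype Q) (_ : Nonempty R) (_ : Nonempty Q)
    (P : Sys k N ((Fin k → Fin N) × R) ((Fin k → Fin N) × Q) (Fin Pr.m)),
    (∀ s, P.x s = s.1) ∧ (∀ t, P.y t = t.1) ∧
    P.Zr univ univ = (Fintype.card ((Fin k → Fin N) × R) : ℝ) *
      Fintype.card ((Fin k → Fin N) × Q) ∧
    P.Yr univ univ ≤ 2 * ((k : ℝ) / N) * ((Fintype.card ((Fin k → Fin N) × R) : ℝ) *
      Fintype.card ((Fin k → Fin N) × Q)) ∧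
    P.Gr univ univ ≤ 1 / 2 * ((k : ℝ) / N) * ((Fintype.card ((Fin k → Fin N) × R) : ℝ) *
      Fintype.card ((Fin k → Fin N) × Q))

/-- Module 19 (the bound for `fkN`). -/
def StBound : Prop := ∀ (K : ℕ), 10 ^ 10 ≤ K →
  ∀ Pr : AMProtocol (Fin (K ^ 2) → Fin (K ^ 32)) (Fin (K ^ 2) → Fin (K ^ 32)),
  Pr.IsZAM (fkN (K ^ 2) (K ^ 32)) → Real.sqrt K / 10 ^ 4 ≤ Real.log Pr.m

/-- Module 20 (restriction). -/
def StEmbed : Prop := ∀ (k N n : ℕ), k * N ≤ n →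
  ∀ Pr : AMProtocol (Finset (Fin n)) (Finset (Fin n)), Pr.IsZAM (DISJ n) →
  ∃ Pr' : AMProtocol (Fin k → Fin N) (Fin k → Fin N), Pr'.IsZAM (fkN k N) ∧ Pr'.m = Pr.m

end MP668cf7.Sep

namespace MP668cf7

/-- Module 21 (`coNP` of disjointness). -/
def Sep.StCoNP : Prop := ∀ n : ℕ, coNP (Sep.DISJ n) ≤ Nat.clog 2 n

end MP668cf7
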